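import Mathlib
import Pool.Agent.TH519.GL.U1

/-!
# A derivation whose constants are the elements of a given algebraically closed subfield
-/

set_option autoImplicit false

namespace Pool.Agent.R351

open Polynomial

variable {κ C : Type*} [Field κ] [Field C] [Algebra κ C] [CharZero C]

/-- A derivation over `κ` which vanishes on `x` vanishes on everything algebraic over `κ(x)`. -/
theorem der_zero_of_algebraic {ι : Type*} (x : ι → C) (D : Derivation κ C C)
    (hx : ∀ i, D (x i) = 0) (z : C) (hz : IsAlgebraic (Algebra.adjoin κ (Set.range x)) z) :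
    D z = 0 := by
  let K : Subalgebra κ C :=
    { carrier := {w | D w = 0}
      mul_mem' := by
        intro a b ha hb
        simp only [Set.mem_ofPred_eq] at ha hb ⊢
        rw [Derivation.leibniz, ha, hb, smul_zero, smul_zero, add_zero]
      one_mem' := by simp
      add_mem' := by
        intro a b ha hb
        simp only [Set.mem_ofPred_eq] at ha hb ⊢
        rw [map_add, ha, hb, add_zero]
      zero_mem' := by simp
      algebraMap_mem' := fun r => D.map_algebraMap r }
  have hK : Algebra.adjoin κ (Set.range x) ≤ K := by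
    rw [Algebra.adjoin_le_iff]
    rintro _ ⟨i, rfl⟩
    exact hx i
  obtain ⟨p, hp0, hp⟩ := hz
  -- a polynomial of least degree over `K`
  have hex : ∃ n : ℕ, ∃ q : K[X], q ≠ 0 ∧ aeval z q = 0 ∧ q.natDegree = n := by
    refine ⟨_, p.map (Subalgebra.inclusion hK).toRingHom, ?_, ?_, rfl⟩
    · rwa [Ne, Polynomial.map_eq_zero_iff]
      exact Subalgebra.inclusion_injective hK
    · rw [← hp, Polynomial.aeval_def, Polynomial.eval₂_map, Polynomial.aeval_def]
      rfl
  classical
  obtain ⟨q, hq0, hq, hqn⟩ := Nat.find_spec hex
  have hmin := fun m (hm : m < Nat.find hex) => Nat.find_min hex hm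
  have h1 : D (aeval z q) = aeval z (derivative q) * D z := by
    clear hqn hmin hq0 hq
    induction q using Polynomial.induction_on' with
    | add p q hp hq => simp only [map_add, hp, hq, add_mul]
    | monomial n a =>
      rw [aeval_monomial, Derivation.leibniz, derivative_monomial, aeval_monomial,
        Derivation.leibniz_pow]
      have h2 : D (algebraMap K C a) = 0 := a.2
      rw [h2, smul_zero, add_zero]
      simp only [nsmul_eq_mul, smul_eq_mul, map_mul, map_natCast]
      ring
  rw [hq, map_zero] at h1
  rcases mul_eq_zero.1 h1.symm with h2 | h2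
  · exfalso
    have hdeg : q.natDegree ≠ 0 := by
      intro h0
      rw [Polynomial.eq_C_of_natDegree_eq_zero h0, aeval_C] at hq
      apply hq0
      rw [Polynomial.eq_C_of_natDegree_eq_zero h0]
      have : q.coeff 0 = 0 := Subtype.ext hq
      rw [this, map_zero]
    have h3 : derivative q ≠ 0 := by
      intro h0
      exact hdeg (Polynomial.derivative_eq_zero.1 h0)
    exact hmin (derivative q).natDegree (by rw [← hqn]; exact natDegree_derivative_lt hdeg)
      ⟨derivative q, h3, h2, rfl⟩
  · exact h2

/-- Derivations with prescribed values on algebraically independent elements. -/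
theorem exists_der_values {ι : Type*} (x : ι → C) (hx : AlgebraicIndependent κ x) (f : ι → C) :
    ∃ D : Derivation κ C C, ∀ i, D (x i) = f i := by
  set θ : MvPolynomial ι κ →ₐ[κ] DualNumber C :=
    MvPolynomial.aeval (fun i => TrivSqZeroExt.inl (x i) + TrivSqZeroExt.inr (f i)) with hθ
  have hfst : ∀ r, (θ r).fst = MvPolynomial.aeval x r := by
    intro r
    have h1 : (TrivSqZeroExt.fstHom κ C C).comp θ = MvPolynomial.aeval x := by
      apply MvPolynomial.algHom_ext
      intro i
      rw [AlgHom.comp_apply, hθ, MvPolynomial.aeval_X, MvPolynomial.aeval_X]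
      simp
    exact DFunLike.congr_fun h1 r
  obtain ⟨D, hD⟩ := Pool.Agent.TH519.GL.exists_der (MvPolynomial.aeval x : _ →ₐ[κ] C).toRingHom hx
    θ.toRingHom hfst
  have h0 : ∀ a : κ, D (algebraMap κ C a) = 0 := by
    intro a
    have h1 := hD (MvPolynomial.C a)
    have h2 : (MvPolynomial.aeval x : _ →ₐ[κ] C).toRingHom (MvPolynomial.C a) = algebraMap κ C a := by
      simp
    have h3 : (θ.toRingHom (MvPolynomial.C a)).snd = 0 := by
      have : θ.toRingHom (MvPolynomial.C a) = algebraMap κ (DualNumber C) a := by simp
      rw [this]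
      rfl
    rw [h2, h3] at h1
    exact h1
  refine ⟨Derivation.mk' (R := κ) (A := C) (M := C)
    { toFun := D
      map_add' := D.map_add
      map_smul' := fun c z => by
        rw [Algebra.smul_def c z, D.leibniz, h0, smul_zero, add_zero, RingHom.id_apply,
          Algebra.smul_def c (D z), smul_eq_mul] } (fun a b => D.leibniz a b), fun i => ?_⟩
  have h1 := hD (MvPolynomial.X i)
  have h2 : (MvPolynomial.aeval x : _ →ₐ[κ] C).toRingHom (MvPolynomial.X i) = x i := by simp
  have h3 : (θ.toRingHom (MvPolynomial.X i)).snd = f i := by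
    have : θ.toRingHom (MvPolynomial.X i) = TrivSqZeroExt.inl (x i) + TrivSqZeroExt.inr (f i) := by
      simp [hθ]
    rw [this]
    simp
  rw [h2, h3] at h1
  exact h1

theorem sum_der_apply {ι : Type*} (s : Finset ι) (f : ι → Derivation κ C C) (z : C) :
    (∑ b ∈ s, f b) z = ∑ b ∈ s, f b z := by
  classical
  induction s using Finset.induction_on with
  | empty => simp
  | insert a s ha ih => rw [Finset.sum_insert ha, Finset.sum_insert ha, Derivation.add_apply, ih]

/-- The derivation is determined by its values on a transcendence basis. -/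
theorem der_ext {ι : Type*} {x : ι → C} (hx : IsTranscendenceBasis κ x) {D D' : Derivation κ C C}
    (h : ∀ i, D (x i) = D' (x i)) : D = D' := by
  ext z
  have h1 : (D - D') z = 0 := der_zero_of_algebraic x (D - D') (fun i => by
    rw [Derivation.sub_apply, h, sub_self]) z (hx.isAlgebraic.isAlgebraic z)
  rw [Derivation.sub_apply, sub_eq_zero] at h1
  exact h1

/-- Elements killed by all derivations are algebraic. -/
theorem algebraic_of_der_zero (z : C) (h : ∀ D : Derivation κ C C, D z = 0) : IsAlgebraic κ z := by
  by_contra hz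
  have h1 : AlgebraicIndependent κ (fun _ : Unit => z) := by
    rw [algebraicIndependent_unique_type_iff]
    exact hz
  obtain ⟨D, hD⟩ := exists_der_values (fun _ : Unit => z) h1 (fun _ => 1)
  have := hD ()
  rw [h D] at this
  exact zero_ne_one this

/-- Every element depends on finitely many elements of a transcendence basis only. -/
theorem exists_finset_algebraic {ι : Type*} {x : ι → C} (hx : IsTranscendenceBasis κ x) (z : C) :
    ∃ S : Finset ι, IsAlgebraic (Algebra.adjoin κ (Set.range fun i : S => x i)) z := by
  classical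
  obtain ⟨p, hp0, hp⟩ := hx.isAlgebraic.isAlgebraic z
  -- the finitely many coefficients
  have h1 : ∀ w : Algebra.adjoin κ (Set.range x), ∃ S : Finset ι,
      (w : C) ∈ Algebra.adjoin κ (Set.range fun i : S => x i) := by
    rintro ⟨w, hw⟩
    induction hw using Algebra.adjoin_induction with
    | mem y hy =>
      obtain ⟨i, rfl⟩ := hy
      exact ⟨{i}, Algebra.subset_adjoin ⟨⟨i, by simp⟩, rfl⟩⟩
    | algebraMap r => exact ⟨∅, Subalgebra.algebraMap_mem _ r⟩
    | add a b _ _ ha hb =>
      obtain ⟨S, hS⟩ := ha
      obtain ⟨T, hT⟩ := hb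
      have mono : ∀ {S T : Finset ι}, S ⊆ T → Algebra.adjoin κ (Set.range fun i : S => x i) ≤
          Algebra.adjoin κ (Set.range fun i : T => x i) := by
        intro S T hST
        apply Algebra.adjoin_mono
        rintro _ ⟨i, rfl⟩
        exact ⟨⟨i, hST i.2⟩, rfl⟩
      exact ⟨S ∪ T, Subalgebra.add_mem _ (mono Finset.subset_union_left hS)
        (mono Finset.subset_union_right hT)⟩
    | mul a b _ _ ha hb =>
      obtain ⟨S, hS⟩ := ha
      obtain ⟨T, hT⟩ := hb
      have mono : ∀ {S T : Finset ι}, S ⊆ T → Algebra.adjoin κ (Set.range fun i : S => x i) ≤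
          Algebra.adjoin κ (Set.range fun i : T => x i) := by
        intro S T hST
        apply Algebra.adjoin_mono
        rintro _ ⟨i, rfl⟩
        exact ⟨⟨i, hST i.2⟩, rfl⟩
      exact ⟨S ∪ T, Subalgebra.mul_mem _ (mono Finset.subset_union_left hS)
        (mono Finset.subset_union_right hT)⟩
  choose S hS using h1
  set T : Finset ι := p.support.biUnion (fun n => S (p.coeff n)) with hT
  refine ⟨T, ?_⟩
  have hmem : ∀ n, ((p.coeff n : Algebra.adjoin κ (Set.range x)) : C) ∈
      Algebra.adjoin κ (Set.range fun i : T => x i) := by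
    intro n
    by_cases hn : n ∈ p.support
    · refine Algebra.adjoin_mono ?_ (hS (p.coeff n))
      rintro _ ⟨i, rfl⟩
      exact ⟨⟨i, Finset.mem_biUnion.2 ⟨n, hn, i.2⟩⟩, rfl⟩
    · rw [Polynomial.notMem_support_iff.1 hn]
      exact Subalgebra.zero_mem _
  set A := Algebra.adjoin κ (Set.range fun i : T => x i) with hA
  let q : A[X] := ∑ n ∈ p.support, Polynomial.monomial n ⟨_, hmem n⟩
  have hcoef : ∀ n, ((q.coeff n : A) : C) = ((p.coeff n : Algebra.adjoin κ (Set.range x)) : C) := by
    intro n
    simp only [q, Polynomial.finsetSum_coeff, Polynomial.coeff_monomial]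
    rw [Finset.sum_ite_eq']
    split_ifs with h
    · rfl
    · rw [Polynomial.notMem_support_iff.1 h]
      rfl
  refine ⟨q, ?_, ?_⟩
  · intro h0
    apply hp0
    ext n
    rw [← hcoef, h0]
    simp
  · have h2 : q.map (algebraMap A C) = p.map (algebraMap (Algebra.adjoin κ (Set.range x)) C) := by
      ext n
      rw [Polynomial.coeff_map, Polynomial.coeff_map]
      exact hcoef n
    rw [Polynomial.aeval_def, ← Polynomial.eval_map, h2, Polynomial.eval_map, ← Polynomial.aeval_def,
      hp]

/-- **A derivation with constants `κ`**. -/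
theorem exists_der_const [IsAlgClosed κ] (hinf : ∀ (s : Set C), s.Finite →
    ¬ Algebra.IsAlgebraic (Algebra.adjoin κ s) C) :
    ∃ D : Derivation κ C C, ∀ z, D z = 0 → ∃ a : κ, algebraMap κ C a = z := by
  classical
  obtain ⟨B, hB⟩ := exists_isTranscendenceBasis κ C
  have hBinf : Infinite B := by
    rw [Set.infinite_coe_iff]
    intro hfin
    apply hinf B hfin
    have := hB.isAlgebraic
    rwa [Subtype.range_coe] at this
  -- a bijection with `B × ℕ`
  obtain ⟨e⟩ : Nonempty (B ≃ B × ℕ) := by
    rw [← Cardinal.eq]
    simp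
  set σ : B → B := fun b => e.symm ((e b).1, (e b).2 + 1) with hσ
  have hσe : ∀ b, e (σ b) = ((e b).1, (e b).2 + 1) := fun b => by simp [hσ]
  have hσinj : Function.Injective σ := by
    intro a b hab
    have h1 := congrArg e hab
    rw [hσe, hσe, Prod.mk.injEq] at h1
    apply e.injective
    exact Prod.ext h1.1 (by omega)
  obtain ⟨D, hD⟩ := exists_der_values (fun b : B => (b : C)) hB.1 (fun b => (σ b : C))
  choose P hP using fun b : B => exists_der_values (fun b : B => (b : C)) hB.1
    (fun b' => if b' = b then (1 : C) else 0)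
  -- the partial derivations commute
  have hcomm : ∀ b b' : B, ∀ z, P b (P b' z) = P b' (P b z) := by
    intro b b' z
    have h1 : ⁅P b, P b'⁆ = (0 : Derivation κ C C) := by
      apply der_ext hB
      intro i
      rw [Derivation.commutator_apply, hP, hP, Derivation.zero_apply]
      split_ifs <;> simp
    have h2 := DFunLike.congr_fun h1 z
    rw [Derivation.commutator_apply, Derivation.zero_apply, sub_eq_zero] at h2
    exact h2
  refine ⟨D, fun z hz => ?_⟩
  obtain ⟨S, hS⟩ := exists_finset_algebraic hB z
  -- every derivation is a combination of the partial ones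
  have hcomb : ∀ E : Derivation κ C C, E z = ∑ b ∈ S, E (b : C) * P b z := by
    intro E
    have h1 : (E - ∑ b ∈ S, (E (b : C)) • P b) z = 0 := by
      apply der_zero_of_algebraic (fun i : S => ((i : B) : C)) _ _ z hS
      rintro ⟨b, hb⟩
      rw [Derivation.sub_apply, sub_eq_zero]
      have h2 : (∑ b' ∈ S, (E (b' : C)) • P b') (b : C) = ∑ b' ∈ S, E (b' : C) * P b' (b : C) := by
        rw [sum_der_apply]
        rfl
      rw [h2, Finset.sum_eq_single b]
      · rw [hP, if_pos rfl, mul_one]
      · intro b' _ hne
        rw [hP, if_neg (Ne.symm hne), mul_zero]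
      · intro h3; exact absurd hb h3
    rw [Derivation.sub_apply, sub_eq_zero] at h1
    rw [h1, sum_der_apply]
    rfl
  have hvan : ∀ b ∉ S, P b z = 0 := by
    intro b hb
    rw [hcomb]
    apply Finset.sum_eq_zero
    intro b' hb'
    rw [hP, if_neg (by rintro rfl; exact hb hb'), zero_mul]
  -- all partial derivatives vanish
  have hall : ∀ b : B, P b z = 0 := by
    by_contra hcon
    push Not at hcon
    obtain ⟨b₀, hb₀⟩ := hcon
    have hne : (S.filter fun b => P b z ≠ 0).Nonempty := by
      refine ⟨b₀, Finset.mem_filter.2 ⟨?_, hb₀⟩⟩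
      by_contra h; exact hb₀ (hvan _ h)
    obtain ⟨b, hb, hmax⟩ := Finset.exists_max_image _ (fun b => (e b).2) hne
    rw [Finset.mem_filter] at hb
    have hσ0 : P (σ b) z = 0 := by
      by_contra h0
      have hS' : σ b ∈ S := by
        by_contra h; exact h0 (hvan _ h)
      have := hmax (σ b) (Finset.mem_filter.2 ⟨hS', h0⟩)
      rw [hσe] at this
      simp at this
    have h1 : P (σ b) (D z) = P b z := by
      rw [hcomb D, map_sum]
      rw [Finset.sum_eq_single b]
      · rw [Derivation.leibniz, hcomm, hσ0, map_zero, smul_zero, zero_add, hD, hP, if_pos rfl,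
          smul_eq_mul, mul_one]
      · intro b' _ hne
        rw [Derivation.leibniz, hcomm, hσ0, map_zero, smul_zero, zero_add, hD, hP,
          if_neg (fun h => hne (hσinj h)), smul_zero]
      · intro h; exact absurd hb.1 h
    rw [hz, map_zero] at h1
    exact hb.2 h1.symm
  have halg : IsAlgebraic κ z := by
    apply algebraic_of_der_zero
    intro E
    rw [hcomb]
    apply Finset.sum_eq_zero
    intro b _
    rw [hall, mul_zero]
  -- `κ` is algebraically closed
  obtain ⟨p, hp0, hp⟩ := halg
  have hs : (p.map (algebraMap κ C)).roots = p.roots.map (algebraMap κ C) :=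
    (IsAlgClosed.splits p).roots_map _
  have h1 : z ∈ (p.map (algebraMap κ C)).roots := by
    rw [mem_roots (by rwa [Ne, Polynomial.map_eq_zero]), IsRoot, eval_map, ← aeval_def, hp]
  rw [hs, Multiset.mem_map] at h1
  obtain ⟨a, _, ha⟩ := h1
  exact ⟨a, ha⟩

end Pool.Agent.R351
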