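import Mathlib

/-!
# Wronskians
-/

set_option autoImplicit false

namespace Pool.Agent.R351

open Module

variable {κ C : Type*} [Field κ] [Field C] [Algebra κ C]

/-- iterated derivative -/
def dit (D : Derivation κ C C) (c : ℕ) (z : C) : C := (fun y => D y)^[c] z

theorem dit_zero (D : Derivation κ C C) (z : C) : dit D 0 z = z := rfl

theorem dit_succ (D : Derivation κ C C) (c : ℕ) (z : C) : dit D (c + 1) z = D (dit D c z) := by
  unfold dit
  rw [Function.iterate_succ_apply']

theorem dit_add (D : Derivation κ C C) (c : ℕ) (z w : C) :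
    dit D c (z + w) = dit D c z + dit D c w := by
  induction c with
  | zero => rfl
  | succ c ih => rw [dit_succ, dit_succ, dit_succ, ih, map_add]

theorem dit_map_zero (D : Derivation κ C C) (c : ℕ) : dit D c 0 = 0 := by
  induction c with
  | zero => rfl
  | succ c ih => rw [dit_succ, ih, map_zero]

theorem dit_smul (D : Derivation κ C C) (c : ℕ) (a : κ) (z : C) :
    dit D c (a • z) = a • dit D c z := by
  induction c with
  | zero => rfl
  | succ c ih => rw [dit_succ, dit_succ, ih, D.map_smul]

theorem dit_sum (D : Derivation κ C C) (c : ℕ) {ι : Type*} (s : Finset ι) (z : ι → C) :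
    dit D c (∑ i ∈ s, z i) = ∑ i ∈ s, dit D c (z i) := by
  classical
  induction s using Finset.induction_on with
  | empty => simp [dit_map_zero]
  | insert a s ha ih => rw [Finset.sum_insert ha, Finset.sum_insert ha, dit_add, ih]

/-- **Wronskians.** -/
theorem wronskian_ne_zero (D : Derivation κ C C)
    (hD : ∀ z, D z = 0 → ∃ a : κ, algebraMap κ C a = z) (n : ℕ) (w : Fin n → C)
    (hw : LinearIndependent κ w) :
    (Matrix.of fun i c : Fin n => dit D c (w i)).det ≠ 0 := by
  induction n with
  | zero => simp
  | succ n ih =>
    intro hdet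
    obtain ⟨a, ha0, ha⟩ := Matrix.exists_vecMul_eq_zero_iff.2 hdet
    have hrel : ∀ c : Fin (n + 1), ∑ i, a i * dit D c (w i) = 0 := fun c => by
      have := congrFun ha c
      simpa [Matrix.vecMul, dotProduct] using this
    have hw' : LinearIndependent κ (fun i : Fin n => w i.castSucc) :=
      hw.comp _ (Fin.castSucc_injective n)
    have hIH := ih _ hw'
    have hker : ∀ b : Fin n → C, (∀ c : Fin n, ∑ i, b i * dit D c (w i.castSucc) = 0) → b = 0 := by
      intro b hb
      by_contra hb0
      apply hIH
      rw [← Matrix.exists_vecMul_eq_zero_iff]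
      refine ⟨b, hb0, ?_⟩
      funext c
      simpa [Matrix.vecMul, dotProduct] using hb c
    have hlast : a (Fin.last n) ≠ 0 := by
      intro h0
      apply ha0
      have h1 : (fun i : Fin n => a i.castSucc) = 0 := by
        apply hker
        intro c
        have h2 := hrel c.castSucc
        rw [Fin.sum_univ_castSucc, h0, zero_mul, add_zero] at h2
        exact h2
      funext i
      refine Fin.lastCases ?_ (fun j => ?_) i
      · exact h0
      · exact congrFun h1 j
    set b : Fin n → C := fun i => -(a i.castSucc / a (Fin.last n)) with hb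
    have hb1 : ∀ c : ℕ, c < n + 1 → dit D c (w (Fin.last n)) = ∑ i, b i * dit D c (w i.castSucc) := by
      intro c hc
      have h2 := hrel ⟨c, hc⟩
      rw [Fin.sum_univ_castSucc] at h2
      simp only at h2
      have h3 : dit D c (w (Fin.last n)) =
          -(∑ i : Fin n, a i.castSucc * dit D c (w i.castSucc)) / a (Fin.last n) := by
        rw [eq_div_iff hlast]
        linear_combination h2
      rw [h3, neg_div, Finset.sum_div, ← Finset.sum_neg_distrib]
      apply Finset.sum_congr rfl
      intro i _
      rw [hb]
      ring
    have hDb : (fun i => D (b i)) = 0 := by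
      apply hker
      intro c
      have h1 := hb1 (c + 1) (by omega)
      have h2 := hb1 c (by omega)
      rw [dit_succ, h2, map_sum] at h1
      have h3 : ∀ i, D (b i * dit D c (w i.castSucc)) =
          D (b i) * dit D c (w i.castSucc) + b i * dit D (c + 1) (w i.castSucc) := by
        intro i
        rw [Derivation.leibniz, dit_succ, smul_eq_mul, smul_eq_mul]
        ring
      simp only [h3, Finset.sum_add_distrib] at h1
      linear_combination h1
    choose e he using fun i => hD (b i) (congrFun hDb i)
    have h4 := hb1 0 (Nat.succ_pos n)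
    simp only [dit_zero, ← he] at h4
    rw [Fintype.linearIndependent_iff] at hw
    have h5 := hw (Fin.snoc (fun i => e i) (-1)) (by
      rw [Fin.sum_univ_castSucc]
      simp only [Fin.snoc_castSucc, Fin.snoc_last]
      rw [neg_smul, one_smul, h4]
      simp only [Algebra.smul_def]
      ring) (Fin.last n)
    rw [Fin.snoc_last] at h5
    exact one_ne_zero (neg_eq_zero.1 h5)

theorem wronskian_ker (D : Derivation κ C C)
    (hD : ∀ z, D z = 0 → ∃ a : κ, algebraMap κ C a = z) (n : ℕ) (w : Fin n → C)
    (hw : LinearIndependent κ w) (γ : Fin n → C) (h : ∀ i, ∑ c : Fin n, γ c * dit D c (w i) = 0) :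
    γ = 0 := by
  by_contra h0
  apply wronskian_ne_zero D hD n w hw
  rw [← Matrix.exists_mulVec_eq_zero_iff]
  refine ⟨γ, h0, ?_⟩
  funext i
  have := h i
  simp only [Matrix.mulVec, dotProduct, Matrix.of_apply, Pi.zero_apply]
  rw [← this]
  exact Finset.sum_congr rfl fun c _ => mul_comm _ _

/-- Dependent elements have zero Wronskian. -/
theorem wronskian_eq_zero (D : Derivation κ C C) (n : ℕ) (w : Fin n → C)
    (β : Fin n → κ) (hβ : β ≠ 0) (h : ∑ i, β i • w i = 0) :
    (Matrix.of fun i c : Fin n => dit D c (w i)).det = 0 := by
  rw [← Matrix.exists_vecMul_eq_zero_iff]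
  refine ⟨fun i => algebraMap κ C (β i), ?_, ?_⟩
  · intro h0
    apply hβ
    funext i
    have := congrFun h0 i
    rw [Pi.zero_apply] at this ⊢
    exact (map_eq_zero _).1 this
  · funext c
    simp only [Matrix.vecMul, dotProduct, Matrix.of_apply, Pi.zero_apply]
    have h1 := congrArg (dit D c) h
    rw [dit_sum, dit_map_zero] at h1
    rw [← h1]
    apply Finset.sum_congr rfl
    intro i _
    rw [dit_smul, Algebra.smul_def]

/-- **The rank of the values of a linear differential operator.** -/
theorem rank_operator (D : Derivation κ C C)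
    (hD : ∀ z, D z = 0 → ∃ a : κ, algebraMap κ C a = z) {ι : Type*} [Fintype ι] (w : ι → C)
    (hw : LinearIndependent κ w) (K : ℕ) (γ : Fin K → C) (hγ : γ ≠ 0) :
    Fintype.card ι < finrank κ (Submodule.span κ (Set.range fun i => ∑ c : Fin K, γ c * dit D c (w i)))
      + K := by
  classical
  let Φ : (ι → κ) →ₗ[κ] C := Fintype.linearCombination κ (fun i => ∑ c : Fin K, γ c * dit D c (w i))
  have h1 := LinearMap.finrank_range_add_finrank_ker Φ
  rw [Module.finrank_fintype_fun_eq_card] at h1
  have h2 : LinearMap.range Φ =
      Submodule.span κ (Set.range fun i => ∑ c : Fin K, γ c * dit D c (w i)) :=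
    Fintype.range_linearCombination κ _
  rw [← h2, ← h1]
  have h3 : finrank κ (LinearMap.ker Φ) < K := by
    by_contra hcon
    push Not at hcon
    let B := Module.finBasis κ (LinearMap.ker Φ)
    let v : Fin K → (ι → κ) := fun j => (B (Fin.castLE hcon j) : ι → κ)
    have hv : LinearIndependent κ v :=
      (B.linearIndependent.map' (LinearMap.ker Φ).subtype (Submodule.ker_subtype _)).comp _
        (Fin.castLE_injective hcon)
    have hΨ : LinearMap.ker (Fintype.linearCombination κ w) = ⊥ := by
      rw [LinearMap.ker_eq_bot']
      intro m hm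
      funext i
      exact Fintype.linearIndependent_iff.1 hw m (by simpa [Fintype.linearCombination_apply] using hm) i
    have hu : LinearIndependent κ (fun j => Fintype.linearCombination κ w (v j)) :=
      hv.map' (Fintype.linearCombination κ w) hΨ
    apply hγ
    refine wronskian_ker D hD K _ hu γ ?_
    intro j
    have h4 : Φ (v j) = 0 := (B (Fin.castLE hcon j)).2
    simp only [Φ, Fintype.linearCombination_apply] at h4
    rw [← h4]
    simp only [Fintype.linearCombination_apply, dit_sum, dit_smul, Finset.mul_sum]
    rw [Finset.sum_comm]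
    apply Finset.sum_congr rfl
    intro i _
    rw [Finset.smul_sum]
    apply Finset.sum_congr rfl
    intro c _
    rw [mul_smul_comm]
  omega

end Pool.Agent.R351
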