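import Mathlib
import Pool.Agent.R351.Wron
import Pool.Agent.Y918.SC.MCube

/-!
# Jets: a differential relation of bounded degree for sums of products of powers
-/

set_option autoImplicit false

namespace Pool.Agent.R351

open Module MvPolynomial

section Ring

variable {κ C : Type*} [Field κ] [Field C] [Algebra κ C] {V : Type*}

/-- the ring of differential polynomials -/
abbrev JR (κ : Type*) [Field κ] (V : Type*) := MvPolynomial (V × ℕ) κ

/-- the derivation of the ring of differential polynomials -/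
noncomputable def jd (κ : Type*) [Field κ] (V : Type*) : Derivation κ (JR κ V) (JR κ V) :=
  mkDerivation κ (fun v => X (v.1, v.2 + 1))

theorem jd_X (v : V × ℕ) : jd κ V (X v) = X (v.1, v.2 + 1) := mkDerivation_X _ _ _

/-- evaluation at the jets of a point -/
noncomputable def jev (D : Derivation κ C C) (P : V → C) : JR κ V →ₐ[κ] C :=
  aeval (fun v => dit D v.2 (P v.1))

theorem jev_X (D : Derivation κ C C) (P : V → C) (v : V × ℕ) :
    jev D P (X v) = dit D v.2 (P v.1) := aeval_X _ _

theorem jev_jd (D : Derivation κ C C) (P : V → C) (r : JR κ V) :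
    jev D P (jd κ V r) = D (jev D P r) := by
  induction r using MvPolynomial.induction_on with
  | C a =>
    rw [← MvPolynomial.algebraMap_eq, Derivation.map_algebraMap, map_zero, AlgHom.commutes,
      Derivation.map_algebraMap]
  | add p q hp hq => rw [map_add, map_add, map_add, map_add, hp, hq]
  | mul_X p v hp =>
    rw [Derivation.leibniz, map_add, smul_eq_mul, smul_eq_mul, map_mul, map_mul, hp, map_mul,
      Derivation.leibniz, jd_X, jev_X, jev_X, dit_succ, smul_eq_mul, smul_eq_mul]

/-- the differential polynomials of order at most `c` -/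
noncomputable def ordLE (κ : Type*) [Field κ] (V : Type*) (c : ℕ) : Subalgebra κ (JR κ V) :=
  supported κ {v : V × ℕ | v.2 ≤ c}

theorem ordLE_mono {c c' : ℕ} (h : c ≤ c') : ordLE κ V c ≤ ordLE κ V c' :=
  supported_mono fun v (hv : v.2 ≤ c) => (le_trans hv h : v.2 ≤ c')

theorem jd_ordLE {c : ℕ} {r : JR κ V} (h : r ∈ ordLE κ V c) : jd κ V r ∈ ordLE κ V (c + 1) := by
  unfold ordLE supported at h
  induction h using Algebra.adjoin_induction with
  | mem y hy =>
    obtain ⟨v, hv, rfl⟩ := hy
    rw [jd_X]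
    exact Algebra.subset_adjoin ⟨_, by
      have : v.2 ≤ c := hv
      show v.2 + 1 ≤ c + 1
      omega, rfl⟩
  | algebraMap a =>
    rw [Derivation.map_algebraMap]
    exact Subalgebra.zero_mem _
  | add a b _ _ ha hb =>
    rw [map_add]
    exact Subalgebra.add_mem _ ha hb
  | mul a b ha' hb' ha hb =>
    rw [Derivation.leibniz]
    exact Subalgebra.add_mem _ (Subalgebra.mul_mem _ (ordLE_mono (Nat.le_succ c) ha') hb)
      (Subalgebra.mul_mem _ (ordLE_mono (Nat.le_succ c) hb') ha)

theorem jd_totalDegree (r : JR κ V) : (jd κ V r).totalDegree ≤ r.totalDegree := by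
  classical
  have h1 : jd κ V r = ∑ m ∈ r.support, jd κ V (monomial m (r.coeff m)) := by
    conv_lhs => rw [r.as_sum]
    rw [map_sum]
  rw [h1]
  refine totalDegree_finsetSum_le fun m hm => ?_
  rw [jd, mkDerivation_monomial]
  refine (totalDegree_smul_le _ _).trans ?_
  rw [Finsupp.sum]
  refine totalDegree_finsetSum_le fun v hv => ?_
  rw [smul_eq_mul]
  refine (totalDegree_mul _ _).trans ?_
  refine (Nat.add_le_add (totalDegree_monomial_le _ _) (totalDegree_X _).le).trans ?_
  have h2 : m = (m - Finsupp.single v 1) + Finsupp.single v 1 := by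
    rw [tsub_add_cancel_of_le]
    rw [Finsupp.single_le_iff]
    exact Nat.one_le_iff_ne_zero.2 (Finsupp.mem_support_iff.1 hv)
  have h3 : (m.sum fun _ e => e) = ((m - Finsupp.single v 1).sum fun _ e => e) + 1 := by
    conv_lhs => rw [h2]
    rw [Finsupp.sum_add_index (by simp) (by intros; rfl)]
    simp
  exact le_trans (le_of_eq h3.symm) (le_totalDegree hm)

end Ring

section Power

variable {κ C : Type*} [Field κ] [Field C] [Algebra κ C] {V : Type*} {s : ℕ}

/-- the product of the bases -/
noncomputable def phi (f : Fin s → JR κ V) : JR κ V := ∏ j, f j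

/-- the product of powers -/
noncomputable def gg (f : Fin s → JR κ V) (a : Fin s → ℕ) : JR κ V := ∏ j, f j ^ a j

/-- `phi` times the logarithmic derivative of `gg` -/
noncomputable def Lg (f : Fin s → JR κ V) (a : Fin s → ℕ) : JR κ V :=
  ∑ j, (a j : JR κ V) * jd κ V (f j) * ∏ l ∈ Finset.univ.erase j, f l

/-- `phi ^ c` times the `c`-th derivative of `gg`, divided by `gg` -/
noncomputable def pp (f : Fin s → JR κ V) (a : Fin s → ℕ) : ℕ → JR κ V
  | 0 => 1
  | c + 1 => phi f * jd κ V (pp f a c) + Lg f a * pp f a c - (c : JR κ V) * jd κ V (phi f) * pp f a c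

theorem der_prod_pow {R : Type*} [CommRing R] [Algebra κ R] (δ : Derivation κ R R)
    (S : Finset (Fin s)) (f : Fin s → R) (a : Fin s → ℕ) :
    (∏ j ∈ S, f j) * δ (∏ j ∈ S, f j ^ a j) =
      (∑ j ∈ S, (a j : R) * δ (f j) * ∏ l ∈ S.erase j, f l) * ∏ j ∈ S, f j ^ a j := by
  classical
  induction S using Finset.induction_on with
  | empty => simp
  | insert i S hi ih =>
    rw [Finset.prod_insert hi, Finset.prod_insert hi, Finset.sum_insert hi, Derivation.leibniz,
      Derivation.leibniz_pow, Finset.erase_insert hi]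
    have h1 : ∑ j ∈ S, (a j : R) * δ (f j) * ∏ l ∈ (insert i S).erase j, f l =
        f i * ∑ j ∈ S, (a j : R) * δ (f j) * ∏ l ∈ S.erase j, f l := by
      rw [Finset.mul_sum]
      refine Finset.sum_congr rfl fun j hj => ?_
      have hne : i ≠ j := by rintro rfl; exact hi hj
      rw [Finset.erase_insert_of_ne hne, Finset.prod_insert (fun h => hi (Finset.mem_of_mem_erase h))]
      ring
    rw [h1]
    simp only [smul_eq_mul, nsmul_eq_mul]
    rcases Nat.eq_zero_or_pos (a i) with h0 | h0
    · rw [h0]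
      simp only [Nat.cast_zero, zero_mul, mul_zero, pow_zero, one_mul, zero_add, add_zero]
      linear_combination (f i) * ih
    · obtain ⟨b, hb⟩ : ∃ b, a i = b + 1 := ⟨a i - 1, by omega⟩
      rw [hb]
      simp only [Nat.add_sub_cancel, pow_succ]
      linear_combination (f i ^ b * f i * f i) * ih

theorem pp_spec (f : Fin s → JR κ V) (a : Fin s → ℕ) (c : ℕ) :
    phi f ^ c * (fun y => jd κ V y)^[c] (gg f a) = pp f a c * gg f a := by
  induction c with
  | zero => simp [pp]
  | succ c ih =>
    have h1 := congrArg (fun z => phi f * jd κ V z) ih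
    simp only [Derivation.leibniz, Derivation.leibniz_pow, smul_eq_mul, nsmul_eq_mul] at h1
    have h2 : phi f * jd κ V (gg f a) = Lg f a * gg f a := by
      unfold phi gg Lg
      exact der_prod_pow (jd κ V) Finset.univ f a
    rw [Function.iterate_succ_apply', pp]
    set G := (fun y => jd κ V y)^[c] (gg f a) with hG
    rcases Nat.eq_zero_or_pos c with h0 | h0
    · subst h0
      simp only [Nat.cast_zero, zero_mul, mul_zero, pow_zero, one_mul, zero_add, pow_one,
        sub_zero, add_zero] at h1 ih ⊢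
      linear_combination h1 + (pp f a 0) * h2
    · obtain ⟨b, hb⟩ : ∃ b, c = b + 1 := ⟨c - 1, by omega⟩
      have h3 : phi f * phi f ^ (c - 1) = phi f ^ c := by
        rw [hb, Nat.add_sub_cancel, pow_succ, mul_comm]
      rw [pow_succ]
      linear_combination h1 + (pp f a c) * h2 - ((c : JR κ V) * jd κ V (phi f)) * ih +
        (G * (c : JR κ V) * jd κ V (phi f)) * (-h3)

end Power

section Bounds

variable {κ C : Type*} [Field κ] [Field C] [Algebra κ C] {V : Type*} {s : ℕ}
  {f : Fin s → JR κ V} {a : Fin s → ℕ} {d : ℕ}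

theorem phi_totalDegree (hf : ∀ j, (f j).totalDegree ≤ d) : (phi f).totalDegree ≤ s * d := by
  unfold phi
  refine (totalDegree_finsetProd _ _).trans ?_
  refine (Finset.sum_le_card_nsmul _ _ d fun j _ => hf j).trans ?_
  simp

theorem Lg_totalDegree (hf : ∀ j, (f j).totalDegree ≤ d) : (Lg f a).totalDegree ≤ s * d := by
  unfold Lg
  refine totalDegree_finsetSum_le fun j _ => ?_
  refine (totalDegree_mul _ _).trans ?_
  have h1 : ((a j : JR κ V) * jd κ V (f j)).totalDegree ≤ d := by
    refine (totalDegree_mul _ _).trans ?_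
    have h2 : ((a j : JR κ V)).totalDegree = 0 := by
      rw [← map_natCast (MvPolynomial.C : κ →+* JR κ V) (a j), totalDegree_C]
    rw [h2, zero_add]
    exact (jd_totalDegree _).trans (hf j)
  have h2 : (∏ l ∈ Finset.univ.erase j, f l).totalDegree ≤ (s - 1) * d := by
    refine (totalDegree_finsetProd _ _).trans ?_
    refine (Finset.sum_le_card_nsmul _ _ d fun j _ => hf j).trans ?_
    rw [Finset.card_erase_of_mem (Finset.mem_univ _), Finset.card_univ, Fintype.card_fin,
      smul_eq_mul]
  have hs : 1 ≤ s := Nat.one_le_iff_ne_zero.2 (by rintro rfl; exact j.elim0)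
  have h3 : s * d = d + (s - 1) * d := by
    obtain ⟨u, rfl⟩ : ∃ u, s = u + 1 := ⟨s - 1, by omega⟩
    rw [Nat.add_sub_cancel]
    ring
  rw [h3]
  exact Nat.add_le_add h1 h2

theorem pp_totalDegree (hf : ∀ j, (f j).totalDegree ≤ d) (c : ℕ) :
    (pp f a c).totalDegree ≤ c * (s * d) := by
  induction c with
  | zero => simp [pp]
  | succ c ih =>
    have h1 := phi_totalDegree hf
    have h2 := Lg_totalDegree (a := a) hf
    have h3 : (c + 1) * (s * d) = s * d + c * (s * d) := by ring
    rw [h3]
    unfold pp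
    refine (totalDegree_sub _ _).trans (max_le ((totalDegree_add _ _).trans (max_le ?_ ?_)) ?_)
    · exact (totalDegree_mul _ _).trans (Nat.add_le_add h1 ((jd_totalDegree _).trans ih))
    · exact (totalDegree_mul _ _).trans (Nat.add_le_add h2 ih)
    · refine (totalDegree_mul _ _).trans (Nat.add_le_add ?_ ih)
      refine (totalDegree_mul _ _).trans ?_
      have h4 : ((c : JR κ V)).totalDegree = 0 := by
        rw [← map_natCast (MvPolynomial.C : κ →+* JR κ V) c, totalDegree_C]
      rw [h4, zero_add]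
      exact (jd_totalDegree _).trans h1

theorem phi_ordLE (hf : ∀ j, f j ∈ ordLE κ V 0) : phi f ∈ ordLE κ V 0 :=
  Subalgebra.prod_mem _ fun j _ => hf j

theorem Lg_ordLE (hf : ∀ j, f j ∈ ordLE κ V 0) : Lg f a ∈ ordLE κ V 1 :=
  Subalgebra.sum_mem _ fun j _ => Subalgebra.mul_mem _
    (Subalgebra.mul_mem _ (Subalgebra.natCast_mem _ _) (jd_ordLE (hf j)))
    (Subalgebra.prod_mem _ fun l _ => ordLE_mono (Nat.zero_le _) (hf l))

theorem pp_ordLE (hf : ∀ j, f j ∈ ordLE κ V 0) (c : ℕ) : pp f a c ∈ ordLE κ V c := by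
  induction c with
  | zero => exact Subalgebra.one_mem _
  | succ c ih =>
    have h1 : ∀ {c : ℕ}, phi f ∈ ordLE κ V c := ordLE_mono (Nat.zero_le _) (phi_ordLE hf)
    unfold pp
    refine Subalgebra.sub_mem _ (Subalgebra.add_mem _ (Subalgebra.mul_mem _ h1 (jd_ordLE ih))
      (Subalgebra.mul_mem _ (ordLE_mono (by omega) (Lg_ordLE hf)) (ordLE_mono (by omega) ih))) ?_
    exact Subalgebra.mul_mem _ (Subalgebra.mul_mem _ (Subalgebra.natCast_mem _ _)
      (ordLE_mono (by omega) (jd_ordLE (phi_ordLE hf)))) (ordLE_mono (by omega) ih)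

end Bounds

section Terms

variable {κ C : Type*} [Field κ] [Field C] [Algebra κ C] {V : Type*} {s k : ℕ}

/-- the matrix of the cleared derivatives -/
noncomputable def QM (f : Fin k → Fin s → JR κ V) (a : Fin k → Fin s → ℕ) :
    Matrix (Fin k) (Fin k) (JR κ V) :=
  Matrix.of fun i c => phi (f i) ^ (k - (c : ℕ)) * pp (f i) (a i) c

/-- the differential polynomial -/
noncomputable def FF (f : Fin k → Fin s → JR κ V) (a : Fin k → Fin s → ℕ) : JR κ V :=
  (QM f a).det * ∏ i, phi (f i)

theorem FF_totalDegree (f : Fin k → Fin s → JR κ V) (a : Fin k → Fin s → ℕ) (d : ℕ)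
    (hf : ∀ i j, (f i j).totalDegree ≤ d) :
    (FF f a).totalDegree ≤ k * (k * (s * d)) + k * (s * d) := by
  unfold FF
  refine (totalDegree_mul _ _).trans (Nat.add_le_add ?_ ?_)
  · rw [Matrix.det_apply']
    refine totalDegree_finsetSum_le fun σ _ => ?_
    refine (totalDegree_mul _ _).trans ?_
    have h0 : (((Equiv.Perm.sign σ : ℤˣ) : ℤ) : JR κ V).totalDegree = 0 := by
      rw [← map_intCast (MvPolynomial.C : κ →+* JR κ V), totalDegree_C]
    rw [h0, zero_add]
    refine (totalDegree_finsetProd _ _).trans ?_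
    refine (Finset.sum_le_card_nsmul _ _ (k * (s * d)) fun i _ => ?_).trans ?_
    · unfold QM
      rw [Matrix.of_apply]
      refine (totalDegree_mul _ _).trans ?_
      have h1 : (phi (f (σ i)) ^ (k - (i : ℕ))).totalDegree ≤ (k - (i : ℕ)) * (s * d) :=
        (totalDegree_pow _ _).trans (Nat.mul_le_mul_left _ (phi_totalDegree (hf _)))
      have h2 : (pp (f (σ i)) (a (σ i)) i).totalDegree ≤ (i : ℕ) * (s * d) :=
        pp_totalDegree (hf _) _
      refine (Nat.add_le_add h1 h2).trans ?_
      rw [← Nat.add_mul, Nat.sub_add_cancel i.2.le]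
    · simp
  · refine (totalDegree_finsetProd _ _).trans ?_
    refine (Finset.sum_le_card_nsmul _ _ (s * d) fun i _ => phi_totalDegree (hf i)).trans ?_
    simp

theorem FF_ordLE (f : Fin k → Fin s → JR κ V) (a : Fin k → Fin s → ℕ)
    (hf : ∀ i j, f i j ∈ ordLE κ V 0) : FF f a ∈ ordLE κ V k := by
  unfold FF
  refine Subalgebra.mul_mem _ ?_ (Subalgebra.prod_mem _ fun i _ =>
    ordLE_mono (Nat.zero_le _) (phi_ordLE (hf i)))
  rw [Matrix.det_apply']
  refine Subalgebra.sum_mem _ fun σ _ => Subalgebra.mul_mem _ (Subalgebra.intCast_mem _ _) ?_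
  refine Subalgebra.prod_mem _ fun i _ => ?_
  unfold QM
  rw [Matrix.of_apply]
  exact Subalgebra.mul_mem _ (Subalgebra.pow_mem _ (ordLE_mono (Nat.zero_le _)
    (phi_ordLE (hf _))) _) (ordLE_mono i.2.le (pp_ordLE (hf _) _))

theorem jev_iter (D : Derivation κ C C) (P : V → C) (c : ℕ) (r : JR κ V) :
    jev D P ((fun y => jd κ V y)^[c] r) = dit D c (jev D P r) := by
  induction c with
  | zero => rfl
  | succ c ih => rw [Function.iterate_succ_apply', jev_jd, ih, dit_succ]

theorem key_mul (D : Derivation κ C C) (P : V → C) (f : Fin k → Fin s → JR κ V)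
    (a : Fin k → Fin s → ℕ) (i c : Fin k) :
    jev D P (gg (f i) (a i)) * jev D P (QM f a i c) =
      jev D P (phi (f i)) ^ k * dit D c (jev D P (gg (f i) (a i))) := by
  have h := congrArg (jev D P) (pp_spec (f i) (a i) c)
  rw [map_mul, map_pow, jev_iter, map_mul] at h
  have h1 : jev D P (phi (f i)) ^ k =
      jev D P (phi (f i)) ^ (k - (c : ℕ)) * jev D P (phi (f i)) ^ (c : ℕ) := by
    rw [← pow_add, Nat.sub_add_cancel c.2.le]
  unfold QM
  rw [Matrix.of_apply, map_mul, map_pow, h1]
  linear_combination (-(jev D P (phi (f i)) ^ (k - (c : ℕ)))) * h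

theorem det_id (D : Derivation κ C C) (P : V → C) (f : Fin k → Fin s → JR κ V)
    (a : Fin k → Fin s → ℕ) :
    (∏ i, jev D P (gg (f i) (a i))) * jev D P (QM f a).det =
      (∏ i, jev D P (phi (f i)) ^ k) *
        (Matrix.of fun i c : Fin k => dit D c (jev D P (gg (f i) (a i)))).det := by
  rw [← Matrix.det_mul_column, ← AlgHom.coe_toRingHom, RingHom.map_det, ← Matrix.det_mul_column]
  congr 1
  ext i c
  simp only [Matrix.of_apply, RingHom.mapMatrix_apply, Matrix.map_apply]
  exact key_mul D P f a i c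

theorem FF_zero (D : Derivation κ C C) (P : V → C) (f : Fin k → Fin s → JR κ V)
    (a : Fin k → Fin s → ℕ) (β : Fin k → κ) (hβ : β ≠ 0)
    (h : ∑ i, β i • jev D P (gg (f i) (a i)) = 0) : jev D P (FF f a) = 0 := by
  have h1 := det_id D P f a
  rw [wronskian_eq_zero D k _ β hβ h, mul_zero, mul_eq_zero, Finset.prod_eq_zero_iff] at h1
  unfold FF
  rw [map_mul, map_prod]
  rcases h1 with ⟨i, _, hi⟩ | h1
  · have h2 : jev D P (phi (f i)) = 0 := by
      unfold gg at hi
      rw [map_prod, Finset.prod_eq_zero_iff] at hi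
      obtain ⟨j, _, hj⟩ := hi
      rw [map_pow] at hj
      unfold phi
      rw [map_prod]
      refine Finset.prod_eq_zero (Finset.mem_univ j) ?_
      by_contra hne
      exact pow_ne_zero _ hne hj
    rw [Finset.prod_eq_zero (Finset.mem_univ i) h2, mul_zero]
  · rw [h1, zero_mul]

theorem FF_ne_zero (D : Derivation κ C C) (hD : ∀ z, D z = 0 → ∃ a : κ, algebraMap κ C a = z)
    (P : V → C) (f : Fin k → Fin s → JR κ V) (a : Fin k → Fin s → ℕ)
    (h : LinearIndependent κ (fun i => jev D P (gg (f i) (a i))))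
    (hphi : ∀ i, jev D P (phi (f i)) ≠ 0) : jev D P (FF f a) ≠ 0 := by
  have h1 := det_id D P f a
  unfold FF
  rw [map_mul, map_prod]
  refine mul_ne_zero ?_ (Finset.prod_ne_zero_iff.2 fun i _ => hphi i)
  intro h0
  rw [h0, mul_zero] at h1
  exact mul_ne_zero (Finset.prod_ne_zero_iff.2 fun i _ => pow_ne_zero _ (hphi i))
    (wronskian_ne_zero D hD k _ h) h1.symm

end Terms

section Expand

open Pool.Agent.Y918.SC (Ex monE)

variable {κ C : Type*} [Field κ] [Field C] [Algebra κ C] {T : Type} [Fintype T]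

/-- the space of the monomials in the jets of the parameters -/
noncomputable def Wj (D : Derivation κ C C) (t : T → C) (k N : ℕ) : Submodule κ C :=
  Submodule.span κ (Set.range fun h : T × Fin (k + 1) → Fin (N + 1) =>
    ∏ v, dit D v.2 (t v.1) ^ (h v : ℕ))

theorem Wj_finite (D : Derivation κ C C) (t : T → C) (k N : ℕ) :
    Module.Finite κ (Wj D t k N) ∧
      finrank κ (Wj D t k N) ≤ (N + 1) ^ (Fintype.card T * (k + 1)) := by
  classical
  refine ⟨FiniteDimensional.span_of_finite κ (Set.finite_range _), ?_⟩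
  refine (finrank_range_le_card _).trans ?_
  simp

open Classical in
/-- the coefficients -/
noncomputable def cof (D : Derivation κ C C) (t : T → C) (k N : ℕ) (F : JR κ (Option T))
    (e : Ex (Fin (k + 1)) Empty N) : C :=
  ∑ m ∈ F.support, if (∀ c : Fin (k + 1), m (none, (c : ℕ)) = (e (Sum.inl c) : ℕ)) then
    algebraMap κ C (F.coeff m) * ∏ v : T × Fin (k + 1), dit D v.2 (t v.1) ^ m (some v.1, (v.2 : ℕ))
    else 0

theorem coord_le {V : Type*} {F : MvPolynomial V κ} {N : ℕ} (hF : F.totalDegree ≤ N)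
    {m : V →₀ ℕ} (hm : m ∈ F.support) (v : V) : m v ≤ N := by
  by_cases hv : v ∈ m.support
  · refine (Finset.single_le_sum (f := fun i => m i) (fun _ _ => Nat.zero_le _) hv).trans ?_
    exact (le_totalDegree hm).trans hF
  · rw [Finsupp.notMem_support_iff.1 hv]
    exact Nat.zero_le _

theorem cof_mem (D : Derivation κ C C) (t : T → C) (k N : ℕ) (F : JR κ (Option T))
    (hF : F.totalDegree ≤ N) (e : Ex (Fin (k + 1)) Empty N) : cof D t k N F e ∈ Wj D t k N := by
  classical
  unfold cof
  refine Submodule.sum_mem _ fun m hm => ?_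
  split_ifs with h
  · rw [← Algebra.smul_def]
    refine Submodule.smul_mem _ _ (Submodule.subset_span ?_)
    refine ⟨fun v => ⟨m (some v.1, (v.2 : ℕ)), Nat.lt_succ_of_le (coord_le hF hm _)⟩, rfl⟩
  · exact Submodule.zero_mem _

theorem jev_expand (D : Derivation κ C C) (t : T → C) (y : C) (k N : ℕ) (F : JR κ (Option T))
    (hF : F.totalDegree ≤ N) (hF' : F ∈ ordLE κ (Option T) k) :
    jev D (fun o => o.elim y t) F = ∑ e : Ex (Fin (k + 1)) Empty N,
      cof D t k N F e * monE (D := N) (fun c : Fin (k + 1) => dit D c y) (fun l : Empty => l.elim) e := by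
  classical
  have hvars : ∀ m ∈ F.support, ∀ v ∈ m.support, v.2 ≤ k := by
    intro m hm v hv
    have h1 : (F.vars : Set (Option T × ℕ)) ⊆ {v | v.2 ≤ k} := mem_supported.1 hF'
    exact h1 (Finset.mem_coe.2 ((mem_vars_iff_mem_support v).2 ⟨m, hm, hv⟩))
  unfold cof
  simp only [Finset.sum_mul]
  rw [Finset.sum_comm]
  unfold jev
  rw [aeval_def, eval₂_eq]
  refine Finset.sum_congr rfl fun m hm => ?_
  set e₀ : Ex (Fin (k + 1)) Empty N := Sum.elim
    (fun c => ⟨m (none, (c : ℕ)), Nat.lt_succ_of_le (coord_le hF hm _)⟩) (fun l => l.elim) with he₀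
  rw [Finset.sum_eq_single e₀]
  · have hc : ∀ c : Fin (k + 1), m (none, (c : ℕ)) = (e₀ (Sum.inl c) : ℕ) := fun c => rfl
    rw [if_pos hc]
    unfold monE
    have hemp : ∏ l : Empty, (l.elim : C) ^ (e₀ (Sum.inr l) : ℕ) = 1 := Fintype.prod_empty _
    rw [hemp, mul_one, mul_assoc]
    congr 1
    let φ : Option T × Fin (k + 1) ↪ Option T × ℕ :=
      ⟨fun p => (p.1, (p.2 : ℕ)), fun p q h => by
        rw [Prod.mk.injEq] at h
        exact Prod.ext h.1 (Fin.ext h.2)⟩
    rw [Finset.prod_subset (s₂ := Finset.univ.map φ)]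
    · rw [Finset.prod_map, Fintype.prod_prod_type, Fintype.prod_option, mul_comm]
      congr 1
      rw [Fintype.prod_prod_type]
      rfl
    · intro v hv
      rw [Finset.mem_map]
      exact ⟨(v.1, ⟨v.2, Nat.lt_succ_of_le (hvars m hm v hv)⟩), Finset.mem_univ _, rfl⟩
    · intro v _ hv
      rw [Finsupp.notMem_support_iff.1 hv, pow_zero]
  · intro e _ he
    rw [if_neg, zero_mul]
    intro h
    apply he
    funext x
    rcases x with c | l
    · exact Fin.ext (h c).symm
    · exact l.elim
  · intro h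
    exact absurd (Finset.mem_univ _) h

end Expand

end Pool.Agent.R351
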