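import Mathlib
import Pool.Agent.R351.Der
import Pool.Agent.R351.Jet

/-!
# Points which satisfy no relation of bounded complexity
-/

set_option autoImplicit false

namespace Pool.Agent.R351

open Module Polynomial

section One

variable {κ C : Type*} [Field κ] [Field C] [Algebra κ C]

/-- the point `y` satisfies no polynomial relation which is a sum of `k` products of powers of `s`
polynomials of degree at most `D` with coefficients in `W` -/
def Gn1 (W : Submodule κ C) (D k s : ℕ) (y : C) : Prop :=
  ∀ (f : Fin k → Fin s → C[X]) (a : Fin k → Fin s → ℕ),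
    (∀ i j, (f i j).natDegree ≤ D ∧ ∀ n, (f i j).coeff n ∈ W) →
    (∑ i, ∏ j, f i j ^ a i j).eval y = 0 → ∑ i, ∏ j, f i j ^ a i j = 0

/-- the degree of the differential polynomial -/
def dg (D k s : ℕ) : ℕ := k * (k * (s * (D + 1))) + k * (s * (D + 1))

theorem dg_mono (D s : ℕ) {r k : ℕ} (h : r ≤ k) : dg D r s ≤ dg D k s := by
  unfold dg
  gcongr

variable {T : Type} [Fintype T]

open Classical in
/-- the base polynomials in the ring of differential polynomials -/
noncomputable def bs (D : ℕ) (u : ℕ → T → κ) (a : ℕ) : JR κ (Option T) :=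
  if a = 0 then 1 else ∑ n ∈ Finset.range (D + 1), ∑ o, MvPolynomial.C (u n o) *
    MvPolynomial.X (some o, 0) * MvPolynomial.X (none, 0) ^ n

theorem bs_totalDegree (D : ℕ) (u : ℕ → T → κ) (a : ℕ) : (bs D u a).totalDegree ≤ D + 1 := by
  unfold bs
  split_ifs with h
  · simp
  · refine MvPolynomial.totalDegree_finsetSum_le fun n hn => ?_
    refine MvPolynomial.totalDegree_finsetSum_le fun o _ => ?_
    refine (MvPolynomial.totalDegree_mul _ _).trans ?_
    have h1 : (MvPolynomial.C (u n o) * MvPolynomial.X (some o, 0) : JR κ (Option T)).totalDegree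
        ≤ 1 := by
      refine (MvPolynomial.totalDegree_mul _ _).trans ?_
      rw [MvPolynomial.totalDegree_C, MvPolynomial.totalDegree_X]
    have h2 : ((MvPolynomial.X (none, 0) : JR κ (Option T)) ^ n).totalDegree ≤ n := by
      rw [MvPolynomial.totalDegree_X_pow]
    have h3 := Finset.mem_range.1 hn
    omega

theorem bs_ordLE (D : ℕ) (u : ℕ → T → κ) (a : ℕ) : bs D u a ∈ ordLE κ (Option T) 0 := by
  unfold bs
  split_ifs with h
  · exact Subalgebra.one_mem _
  · refine Subalgebra.sum_mem _ fun n _ => Subalgebra.sum_mem _ fun o _ => ?_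
    have hX : ∀ o : Option T, (MvPolynomial.X (o, 0) : JR κ (Option T)) ∈ ordLE κ (Option T) 0 :=
      fun o => Algebra.subset_adjoin ⟨(o, 0), le_refl 0, rfl⟩
    exact Subalgebra.mul_mem _ (Subalgebra.mul_mem _ (Subalgebra.algebraMap_mem _ _) (hX _))
      (Subalgebra.pow_mem _ (hX _) _)

theorem jev_bs (Δ : Derivation κ C C) (t : T → C) (z : C) (D : ℕ) (u : ℕ → T → κ) (a : ℕ)
    (f : C[X]) (hf : f.natDegree ≤ D) (hu : ∀ n, ∑ o, u n o • t o = f.coeff n) :
    jev Δ (fun o : Option T => o.elim z t) (bs D u a) ^ a = f.eval z ^ a := by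
  rcases Nat.eq_zero_or_pos a with h0 | h0
  · rw [h0, pow_zero, pow_zero]
  · congr 1
    unfold bs
    rw [if_neg (by omega), map_sum, Polynomial.eval_eq_sum_range' (Nat.lt_succ_of_le hf)]
    refine Finset.sum_congr rfl fun n _ => ?_
    rw [map_sum, ← hu n, Finset.sum_mul]
    refine Finset.sum_congr rfl fun o _ => ?_
    rw [map_mul, map_mul, map_pow, jev_X, jev_X, ← MvPolynomial.algebraMap_eq, AlgHom.commutes,
      Algebra.smul_def]
    rfl

theorem bs_ne_zero (Δ : Derivation κ C C) (t : T → C) (z : C) (D : ℕ) (u : ℕ → T → κ) (a : ℕ)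
    (f : C[X]) (hf : f.natDegree ≤ D) (hu : ∀ n, ∑ o, u n o • t o = f.coeff n)
    (h : f.eval z ^ a ≠ 0) :
    jev Δ (fun o : Option T => o.elim z t) (bs D u a) ≠ 0 := by
  intro h0
  apply h
  rw [← jev_bs Δ t z D u a f hf hu, h0]
  rcases Nat.eq_zero_or_pos a with h1 | h1
  · exfalso
    unfold bs at h0
    rw [if_pos h1, map_one] at h0
    exact one_ne_zero h0
  · exact zero_pow (by omega)

open Pool.Agent.Y918.SC (Ex monE)
open Pool.Agent.W245 (IndepOver)

/-- **Independence of the jets gives genericity.** -/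
theorem gn1_of_indep (hinf : ∀ (s : Set C), s.Finite →
    ¬ Algebra.IsAlgebraic (Algebra.adjoin κ s) C)
    (Δ : Derivation κ C C) (hΔ : ∀ z, Δ z = 0 → ∃ a : κ, algebraMap κ C a = z)
    (W : Submodule κ C) (D k s : ℕ) (t : T → C) (hW : W ≤ Submodule.span κ (Set.range t)) (y : C)
    (h : IndepOver (Wj Δ t k (dg D k s))
      (monE (D := dg D k s) (fun c : Fin (k + 1) => dit Δ c y) (fun l : Empty => l.elim))) :
    Gn1 W D k s y := by
  classical
  intro f a hf h0
  by_contra hP
  set G : Fin k → C[X] := fun i => ∏ j, f i j ^ a i j with hG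
  -- coefficients
  have hu0 : ∀ i j n, ∃ u : T → κ, ∑ o, u o • t o = (f i j).coeff n := fun i j n =>
    (Submodule.mem_span_range_iff_exists_fun κ).1 (hW ((hf i j).2 n))
  choose u hu using hu0
  -- a maximal independent subfamily
  have hGfin : Module.Finite κ (Submodule.span κ (Set.range G)) :=
    FiniteDimensional.span_of_finite κ (Set.finite_range _)
  obtain ⟨r, hrk, g, hg1, hg2, hg3⟩ : ∃ r : ℕ, r ≤ k ∧ ∃ g : Fin r → C[X],
      (∀ i, g i ∈ Set.range G) ∧
      Submodule.span κ (Set.range g) = Submodule.span κ (Set.range G) ∧ LinearIndependent κ g := by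
    refine ⟨_, ?_, Submodule.exists_fun_fin_finrank_span_eq κ (Set.range G)⟩
    have := finrank_range_le_card (R := κ) G
    rwa [Fintype.card_fin] at this
  choose σ hσ using hg1
  have hsum : ∑ i, G i ∈ Submodule.span κ (Set.range g) := by
    rw [hg2]
    exact Submodule.sum_mem _ fun i _ => Submodule.subset_span ⟨i, rfl⟩
  obtain ⟨β, hβ⟩ := (Submodule.mem_span_range_iff_exists_fun κ).1 hsum
  have hβ0 : β ≠ 0 := by
    rintro rfl
    apply hP
    rw [← hβ]
    simp
  -- the differential polynomials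
  set F : Fin r → Fin s → JR κ (Option T) := fun l j => bs D (u (σ l) j) (a (σ l) j) with hF
  have hFd : ∀ l j, (F l j).totalDegree ≤ D + 1 := fun l j => bs_totalDegree _ _ _
  have hFo : ∀ l j, F l j ∈ ordLE κ (Option T) 0 := fun l j => bs_ordLE _ _ _
  have hgg : ∀ z l, jev Δ (fun o : Option T => o.elim z t) (gg (F l) (a (σ l))) =
      (g l).eval z := by
    intro z l
    rw [← hσ l, hG]
    unfold gg
    simp only
    rw [map_prod, Polynomial.eval_prod]
    refine Finset.prod_congr rfl fun j _ => ?_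
    rw [map_pow, Polynomial.eval_pow]
    exact jev_bs Δ t z D _ _ _ (hf _ _).1 (hu _ _)
  have hdeg : (FF F (fun l => a (σ l))).totalDegree ≤ dg D k s :=
    (FF_totalDegree F _ (D + 1) hFd).trans (dg_mono D s hrk)
  have hord : FF F (fun l => a (σ l)) ∈ ordLE κ (Option T) k :=
    ordLE_mono hrk (FF_ordLE F _ hFo)
  -- vanishing at `y`
  have hy : jev Δ (fun o : Option T => o.elim y t) (FF F (fun l => a (σ l))) = 0 := by
    refine FF_zero Δ _ F _ β hβ0 ?_
    simp only [hgg]
    have h1 := congrArg (Polynomial.eval y) hβ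
    rw [h0, Polynomial.eval_finsetSum] at h1
    rw [← h1]
    refine Finset.sum_congr rfl fun l _ => ?_
    rw [Polynomial.eval_smul]
  rw [jev_expand Δ t y k (dg D k s) _ hdeg hord] at hy
  have hcof := h _ (fun e => cof_mem Δ t k (dg D k s) _ hdeg e) hy
  -- a transcendental point
  set A0 := Algebra.adjoin κ (Set.range t) with hA0
  have hna : ¬ Algebra.IsAlgebraic A0 C := hinf _ (Set.finite_range t)
  obtain ⟨z, hz⟩ : ∃ z : C, Transcendental A0 z := by
    by_contra hcon
    apply hna
    push Not at hcon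
    exact ⟨fun z => by
      have := hcon z
      unfold Transcendental at this
      exact not_not.1 this⟩
  have hWA : ∀ x ∈ W, x ∈ A0 := by
    intro x hx
    have h1 := hW hx
    have h2 : Submodule.span κ (Set.range t) ≤ Subalgebra.toSubmodule A0 :=
      Submodule.span_le.2 Algebra.subset_adjoin
    exact h2 h1
  have hlift : ∀ i j, f i j ∈ Polynomial.lifts (algebraMap A0 C) := by
    intro i j
    rw [Polynomial.lifts_iff_coeff_lifts]
    intro n
    exact ⟨⟨_, hWA _ ((hf i j).2 n)⟩, rfl⟩
  have hne : ∀ q : C[X], q ∈ Polynomial.lifts (algebraMap A0 C) → q ≠ 0 → q.eval z ≠ 0 := by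
    intro q hq hq0 h1
    obtain ⟨p, rfl⟩ := (Polynomial.mem_lifts _).1 hq
    rw [Polynomial.eval_map, ← Polynomial.aeval_def] at h1
    apply hq0
    have h2 : p = 0 := by
      by_contra hp
      exact hz ⟨p, hp, h1⟩
    rw [h2, Polynomial.map_zero]
  have hGl : ∀ i, G i ∈ Polynomial.lifts (algebraMap A0 C) := fun i =>
    Subsemiring.prod_mem _ fun j _ => Subsemiring.pow_mem _ (hlift i j) _
  have hg0 : ∀ l, g l ≠ 0 := fun l => hg3.ne_zero l
  have hzi : jev Δ (fun o : Option T => o.elim z t) (FF F (fun l => a (σ l))) ≠ 0 := by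
    refine FF_ne_zero Δ hΔ _ F _ ?_ ?_
    · simp only [hgg]
      rw [Fintype.linearIndependent_iff]
      intro b hb
      apply Fintype.linearIndependent_iff.1 hg3
      by_contra hcon
      apply hne _ _ hcon
      · rw [Polynomial.eval_finsetSum, ← hb]
        refine Finset.sum_congr rfl fun l _ => ?_
        rw [Polynomial.eval_smul]
      · refine Subsemiring.sum_mem _ fun l _ => ?_
        rw [← hσ l, Algebra.smul_def]
        refine Subsemiring.mul_mem _ ?_ (hGl _)
        rw [Polynomial.mem_lifts]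
        exact ⟨Polynomial.C (algebraMap κ A0 (b l)), by
          rw [Polynomial.map_C]
          rfl⟩
    · intro l
      unfold phi
      rw [map_prod, Finset.prod_ne_zero_iff]
      intro j _
      refine bs_ne_zero Δ t z D _ _ (f (σ l) j) (hf _ _).1 (hu _ _) ?_
      have h1 := hne _ (hGl (σ l)) (by rw [hσ l]; exact hg0 l)
      rw [hG] at h1
      simp only at h1
      rw [Polynomial.eval_prod, Finset.prod_ne_zero_iff] at h1
      have h2 := h1 j (Finset.mem_univ j)
      rwa [Polynomial.eval_pow] at h2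
  apply hzi
  rw [jev_expand Δ t z k (dg D k s) _ hdeg hord]
  exact Finset.sum_eq_zero fun e _ => by rw [hcof e, zero_mul]

end One

end Pool.Agent.R351
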