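import Mathlib
import Pool.Agent.R351.Gen

/-!
# Cubes contain generic points
-/

set_option autoImplicit false

namespace Pool.Agent.R351

open Module Finset
open Pool.Agent.Y918.SC (Ex monE nGr nRk cubeE)
open Pool.Agent.W245 (IndepOver)

/-- `C` has infinite transcendence degree over `κ` -/
def InfTr (κ C : Type*) [Field κ] [Field C] [Algebra κ C] : Prop :=
  ∀ (s : Set C), s.Finite → ¬ Algebra.IsAlgebraic (Algebra.adjoin κ s) C

/-- the size of a cube -/
noncomputable def cs (N k d : ℕ) : ℕ :=
  nGr (Fin d) (Fin (k + 1)) Empty N * (nRk (Fin d) (Fin (k + 1)) Empty N + (k + 1))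

/-- **A cube of bounded dimension contains a generic point.** -/
theorem cube_gen (M D k s : ℕ) : ∃ R : ℕ, ∀ (κ C : Type) [Field κ] [IsAlgClosed κ] [CharZero κ]
    [Field C] [CharZero C] [Algebra κ C], InfTr κ C → ∀ W : Submodule κ C, Module.Finite κ W →
    finrank κ W ≤ M → ∀ (y₀ : C) (w : Fin R → C), LinearIndependent κ w →
    ∃ S : Finset (Fin R), Gn1 W D k s (y₀ + ∑ i ∈ S, w i) := by
  classical
  set N := dg D k s with hN
  set B : ℕ := (N + 1) ^ (M * (k + 1)) with hB
  obtain ⟨R, hR⟩ : ∃ R, R = ∑ d ∈ Finset.range (B + 1), cs N k d := ⟨_, rfl⟩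
  refine ⟨R, fun κ C _ _ _ _ _ _ hinf W hWf hWM y₀ w hw => ?_⟩
  obtain ⟨Δ, hΔ⟩ := exists_der_const (κ := κ) (C := C) hinf
  -- a basis of the coefficients
  let b := Module.finBasis κ W
  let t : Fin (finrank κ W) → C := fun i => (b i : C)
  have hspan : Submodule.span κ (Set.range t) = W := by
    have h1 : Set.range t = W.subtype '' Set.range b := by
      rw [← Set.range_comp]
      rfl
    rw [h1, Submodule.span_image, b.span_eq, Submodule.map_subtype_top]
  -- a basis of the space of the coefficients of the differential polynomial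
  obtain ⟨hfin, hle⟩ := Wj_finite Δ t k N
  let b' := Module.finBasis κ (Wj Δ t k N)
  set d := finrank κ (Wj Δ t k N) with hd
  have hdB : d ≤ B := by
    refine hle.trans ?_
    rw [hB]
    apply Nat.pow_le_pow_right (Nat.succ_pos _)
    rw [Fintype.card_fin]
    exact Nat.mul_le_mul_right _ hWM
  let t' : Fin d → C := fun i => (b' i : C)
  have ht' : LinearIndependent κ t' :=
    b'.linearIndependent.map' (Wj Δ t k N).subtype (Submodule.ker_subtype _)
  have hspan' : Submodule.span κ (Set.range t') = Wj Δ t k N := by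
    have h1 : Set.range t' = (Wj Δ t k N).subtype '' Set.range b' := by
      rw [← Set.range_comp]
      rfl
    rw [h1, Submodule.span_image, b'.span_eq, Submodule.map_subtype_top]
  -- the blocks
  set nG := nGr (Fin d) (Fin (k + 1)) Empty N with hnG
  set nI := nRk (Fin d) (Fin (k + 1)) Empty N + (k + 1) with hnI
  have hcs : nG * nI ≤ R := by
    rw [hR]
    refine Finset.single_le_sum (f := fun d => cs N k d) (fun _ _ => Nat.zero_le _)
      (Finset.mem_range.2 (Nat.lt_succ_of_le hdB))
  let e : Fin nG × Fin nI ↪ Fin R := finProdFinEquiv.toEmbedding.trans (Fin.castLEEmb hcs)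
  have hne : Nonempty (Fin nI) := ⟨⟨0, by omega⟩⟩
  obtain ⟨η, hη⟩ := cubeE κ C (Fin d) (Fin (k + 1)) Empty N (Fin nI) t' ht'
    (fun c => dit Δ c y₀) (fun l => l.elim) (fun l => l.elim)
    (fun g i c => dit Δ c (w (e (g, i)))) (fun g i l => l.elim) (by
      intro g γ hγ
      have h1 := rank_operator Δ hΔ (fun i : Fin nI => w (e (g, i)))
        (hw.comp (fun i : Fin nI => e (g, i))
          (fun i i' h => (Prod.mk.inj (e.injective h)).2)) (k + 1) γ hγ
      rw [Fintype.card_fin] at h1
      omega) (fun g i l => l.elim) (fun g i e e' hee => absurd (Subsingleton.elim e e') hee)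
  refine ⟨(univ.filter (fun p : Fin nG × Fin nI => η p.1 = some p.2)).map e, ?_⟩
  refine gn1_of_indep hinf Δ hΔ W D k s t (by rw [hspan]) _ ?_
  rw [hspan'] at hη
  have hu : (fun c : Fin (k + 1) => dit Δ c (y₀ + ∑ i ∈ (univ.filter
      (fun p : Fin nG × Fin nI => η p.1 = some p.2)).map e, w i)) =
      fun a : Fin (k + 1) => dit Δ a y₀ + ∑ g, (η g).elim 0 (fun i => dit Δ a (w (e (g, i)))) := by
    funext c
    rw [dit_add, dit_sum, Finset.sum_map, Finset.sum_filter, Fintype.sum_prod_type]
    congr 1
    refine Finset.sum_congr rfl fun g _ => ?_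
    cases hg : η g with
    | none => simp [hg]
    | some i =>
      rw [Finset.sum_eq_single i]
      · simp [hg]
      · intro i' _ hi'
        rw [if_neg]
        simpa [hg] using Ne.symm hi'
      · intro h; exact absurd (Finset.mem_univ _) h
  have hv : (fun l : Empty => (l.elim : C)) =
      fun l : Empty => (l.elim : C) * ∏ g, (η g).elim 1 (fun i => (l.elim : C)) := by
    funext l
    exact l.elim
  rw [hu, hv]
  exact hη

end Pool.Agent.R351
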