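import Mathlib
import Pool.Agent.R351.Wron

/-!
# Computations with few additions: the universal differential ring
-/

set_option autoImplicit false

namespace Pool.Agent.R351

open MvPolynomial Finset

/-- the variables which do not depend on the parameters: the values `G`, their inverses, the terms,
the exponents of the parameters, the exponents of the earlier values -/
abbrev S0 (g L : ℕ) := Fin (L + 1) ⊕ Fin (L + 1) ⊕ (Fin (L + 1) × Bool) ⊕
  (Fin (L + 1) × Bool × Fin g) ⊕ (Fin (L + 1) × Bool × Fin (L + 1))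

/-- the universal ring -/
abbrev AR (g L : ℕ) (Θ : Type) := MvPolynomial (S0 g L ⊕ Θ) ℤ

section Formal

variable {g L : ℕ} {Θ : Type}

/-- the value `G l` -/
noncomputable def vG (l : ℕ) : AR g L Θ :=
  if h : l < L + 1 then X (Sum.inl (Sum.inl ⟨l, h⟩)) else 0

/-- the inverse of `G l` -/
noncomputable def vI (l : ℕ) : AR g L Θ :=
  if h : l < L + 1 then X (Sum.inl (Sum.inr (Sum.inl ⟨l, h⟩))) else 0

/-- the terms -/
noncomputable def vM (l : ℕ) (b : Bool) : AR g L Θ :=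
  if h : l < L + 1 then X (Sum.inl (Sum.inr (Sum.inr (Sum.inl (⟨l, h⟩, b))))) else 0

/-- the exponents of the parameters -/
noncomputable def vE (l : ℕ) (b : Bool) (o : Fin g) : AR g L Θ :=
  if h : l < L + 1 then X (Sum.inl (Sum.inr (Sum.inr (Sum.inr (Sum.inl (⟨l, h⟩, b, o)))))) else 0

/-- the exponents of the earlier values -/
noncomputable def vH (l : ℕ) (b : Bool) (l' : ℕ) : AR g L Θ :=
  if h : l < L + 1 ∧ l' < L + 1 then
    X (Sum.inl (Sum.inr (Sum.inr (Sum.inr (Sum.inr (⟨l, h.1⟩, b, ⟨l', h.2⟩)))))) else 0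

/-- the initial values of a derivation: the value at `G 0`, the logarithmic derivatives of the
parameters, the values at the further variables -/
structure Seed (g L : ℕ) (Θ : Type) where
  a : AR g L Θ
  p : Fin g → AR g L Θ
  u : Θ → AR g L Θ

/-- the logarithmic derivatives of the values -/
noncomputable def Lam (σ : Seed g L Θ) : ℕ → AR g L Θ
  | 0 => vI 0 * σ.a
  | l + 1 => vI (l + 1) * ∑ b : Bool, vM l b *
      (∑ o, vE l b o * σ.p o + ∑ l' : Fin (l + 1), vH l b l' * Lam σ l')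
termination_by l => l
decreasing_by exact l'.2

/-- the logarithmic derivatives of the terms -/
noncomputable def Sg (σ : Seed g L Θ) (l : ℕ) (b : Bool) : AR g L Θ :=
  ∑ o, vE l b o * σ.p o + ∑ l' ∈ range (l + 1), vH l b l' * Lam σ l'

theorem Lam_zero (σ : Seed g L Θ) : Lam σ 0 = vI 0 * σ.a := by
  rw [Lam]

theorem Lam_succ (σ : Seed g L Θ) (l : ℕ) :
    Lam σ (l + 1) = vI (l + 1) * ∑ b : Bool, vM l b * Sg σ l b := by
  rw [Lam]
  congr 1
  refine Finset.sum_congr rfl fun b _ => ?_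
  unfold Sg
  rw [Finset.sum_range]

/-- the derivation -/
noncomputable def dd (σ : Seed g L Θ) : Derivation ℤ (AR g L Θ) (AR g L Θ) :=
  mkDerivation ℤ (fun v => match v with
    | Sum.inl (Sum.inl l) => if (l : ℕ) = 0 then σ.a else
        ∑ b : Bool, vM ((l : ℕ) - 1) b * Sg σ ((l : ℕ) - 1) b
    | Sum.inl (Sum.inr (Sum.inl l)) => -(vI l * Lam σ l)
    | Sum.inl (Sum.inr (Sum.inr (Sum.inl (l, b)))) => vM l b * Sg σ l b
    | Sum.inl (Sum.inr (Sum.inr (Sum.inr _))) => 0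
    | Sum.inr v => σ.u v)

end Formal

/-- A computation in a differential ring. -/
structure Mdl (κ R : Type*) [Field κ] [CommRing R] [Algebra κ R] (g L : ℕ) where
  G : ℕ → R
  Gi : ℕ → R
  T : Fin g → R
  Ti : Fin g → R
  c : ℕ → Bool → κ
  e : ℕ → Bool → Fin g → ℕ
  h : ℕ → Bool → ℕ → ℕ
  inv : ∀ l ≤ L, Gi l * G l = 1
  invT : ∀ o, Ti o * T o = 1
  step : ∀ l ≤ L, G (l + 1) = ∑ b, c l b • ((∏ o, T o ^ e l b o) *
    ∏ l' ∈ range (l + 1), G l' ^ h l b l')

section Chain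

variable {κ R : Type*} [Field κ] [CommRing R] [Algebra κ R] {g L : ℕ} {Θ : Type}

/-- the terms -/
def Mdl.M (μ : Mdl κ R g L) (l : ℕ) (b : Bool) : R :=
  μ.c l b • ((∏ o, μ.T o ^ μ.e l b o) * ∏ l' ∈ range (l + 1), μ.G l' ^ μ.h l b l')

/-- the evaluation -/
noncomputable def Mdl.ev (μ : Mdl κ R g L) (ϑ : Θ → R) : AR g L Θ →+* R :=
  eval₂Hom (Int.castRingHom R) (fun v => match v with
    | Sum.inl (Sum.inl l) => μ.G l
    | Sum.inl (Sum.inr (Sum.inl l)) => μ.Gi l
    | Sum.inl (Sum.inr (Sum.inr (Sum.inl (l, b)))) => μ.M l b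
    | Sum.inl (Sum.inr (Sum.inr (Sum.inr (Sum.inl (l, b, o))))) => (μ.e l b o : R)
    | Sum.inl (Sum.inr (Sum.inr (Sum.inr (Sum.inr (l, b, l'))))) => (μ.h l b l' : R)
    | Sum.inr v => ϑ v)

variable (μ : Mdl κ R g L) (ϑ : Θ → R)

theorem ev_vG {l : ℕ} (h : l ≤ L) : μ.ev ϑ (vG l) = μ.G l := by
  unfold vG Mdl.ev
  rw [dif_pos (Nat.lt_succ_of_le h)]
  simp

theorem ev_vI {l : ℕ} (h : l ≤ L) : μ.ev ϑ (vI l) = μ.Gi l := by
  unfold vI Mdl.ev
  rw [dif_pos (Nat.lt_succ_of_le h)]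
  simp

theorem ev_vM {l : ℕ} (h : l ≤ L) (b : Bool) : μ.ev ϑ (vM l b) = μ.M l b := by
  unfold vM Mdl.ev
  rw [dif_pos (Nat.lt_succ_of_le h)]
  simp

theorem ev_vE {l : ℕ} (h : l ≤ L) (b : Bool) (o : Fin g) : μ.ev ϑ (vE l b o) = (μ.e l b o : R) := by
  unfold vE Mdl.ev
  rw [dif_pos (Nat.lt_succ_of_le h)]
  simp

theorem ev_vH {l l' : ℕ} (h : l ≤ L) (h' : l' ≤ L) (b : Bool) :
    μ.ev ϑ (vH l b l') = (μ.h l b l' : R) := by
  unfold vH Mdl.ev
  rw [dif_pos ⟨Nat.lt_succ_of_le h, Nat.lt_succ_of_le h'⟩]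
  simp

theorem ev_theta (v : Θ) : μ.ev ϑ (X (Sum.inr v)) = ϑ v := by
  unfold Mdl.ev
  simp

theorem der_prod_pow_inv (D : Derivation κ R R) {ι : Type*} (s : Finset ι) (a b : ι → R)
    (n : ι → ℕ) (h : ∀ i ∈ s, b i * a i = 1) :
    D (∏ i ∈ s, a i ^ n i) = (∏ i ∈ s, a i ^ n i) * ∑ i ∈ s, (n i : R) * (b i * D (a i)) := by
  classical
  induction s using Finset.induction_on with
  | empty => simp
  | insert i s hi ih =>
    rw [Finset.prod_insert hi, Finset.sum_insert hi, Derivation.leibniz,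
      ih (fun j hj => h j (Finset.mem_insert_of_mem hj)), Derivation.leibniz_pow]
    have h1 := h i (Finset.mem_insert_self _ _)
    simp only [smul_eq_mul, nsmul_eq_mul]
    rcases Nat.eq_zero_or_pos (n i) with h0 | h0
    · rw [h0]
      simp
    · obtain ⟨k, hk⟩ : ∃ k, n i = k + 1 := ⟨n i - 1, by omega⟩
      rw [hk]
      simp only [Nat.add_sub_cancel, pow_succ]
      linear_combination (-((∏ x ∈ s, a x ^ n x) * (((k + 1 : ℕ) : R) * (a i ^ k * D (a i))))) * h1

theorem der_M (D : Derivation κ R R) {l : ℕ} (hl : l ≤ L) (b : Bool) :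
    D (μ.M l b) = μ.M l b * (∑ o, (μ.e l b o : R) * (μ.Ti o * D (μ.T o)) +
      ∑ l' ∈ range (l + 1), (μ.h l b l' : R) * (μ.Gi l' * D (μ.G l'))) := by
  unfold Mdl.M
  rw [D.map_smul, Derivation.leibniz, der_prod_pow_inv D univ μ.T μ.Ti _ (fun o _ => μ.invT o),
    der_prod_pow_inv D (range (l + 1)) μ.G μ.Gi _ (fun l' hl' => μ.inv l' (by
      have := Finset.mem_range.1 hl'; omega))]
  simp only [smul_eq_mul, Algebra.smul_def]
  ring

variable (D : Derivation κ R R) (s₁ s₂ : Seed g L Θ) (σ₁ σ₂ : R)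
  (ha : D (μ.G 0) = σ₁ * μ.ev ϑ s₁.a + σ₂ * μ.ev ϑ s₂.a)
  (hp : ∀ o, μ.Ti o * D (μ.T o) = σ₁ * μ.ev ϑ (s₁.p o) + σ₂ * μ.ev ϑ (s₂.p o))
  (hu : ∀ v, D (ϑ v) = σ₁ * μ.ev ϑ (s₁.u v) + σ₂ * μ.ev ϑ (s₂.u v))

include ha hp

theorem chain_Lam (l : ℕ) (hl : l ≤ L) : μ.Gi l * D (μ.G l) =
    σ₁ * μ.ev ϑ (Lam s₁ l) + σ₂ * μ.ev ϑ (Lam s₂ l) := by
  induction l using Nat.strong_induction_on with
  | _ l ih =>
    rcases l with _ | l
    · rw [Lam_zero, Lam_zero, map_mul, map_mul, ev_vI μ ϑ (Nat.zero_le _), ha]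
      ring
    · rw [Lam_succ, Lam_succ, map_mul, map_mul, ev_vI μ ϑ hl, map_sum, map_sum,
        μ.step l (by omega), map_sum]
      have h1 : ∀ b : Bool, D (μ.c l b • ((∏ o, μ.T o ^ μ.e l b o) *
          ∏ l' ∈ range (l + 1), μ.G l' ^ μ.h l b l')) =
          σ₁ * μ.ev ϑ (vM l b * Sg s₁ l b) + σ₂ * μ.ev ϑ (vM l b * Sg s₂ l b) := by
        intro b
        have h2 := der_M μ D (by omega : l ≤ L) b
        unfold Mdl.M at h2
        rw [h2, map_mul, map_mul, ev_vM μ ϑ (by omega)]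
        unfold Sg Mdl.M
        simp only [map_add, map_sum, map_mul]
        have h3 : ∀ o, μ.ev ϑ (vE l b o) = (μ.e l b o : R) := fun o => ev_vE μ ϑ (by omega) b o
        have h4 : ∑ l' ∈ range (l + 1), (μ.h l b l' : R) * (μ.Gi l' * D (μ.G l')) =
            ∑ l' ∈ range (l + 1), μ.ev ϑ (vH l b l') *
              (σ₁ * μ.ev ϑ (Lam s₁ l') + σ₂ * μ.ev ϑ (Lam s₂ l')) := by
          refine Finset.sum_congr rfl fun l' hl' => ?_
          have hl'' := Finset.mem_range.1 hl'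
          rw [ih l' (by omega) (by omega), ev_vH μ ϑ (by omega) (by omega)]
        rw [h4]
        simp only [h3, hp]
        simp only [mul_add, Finset.sum_add_distrib, Finset.mul_sum]
        have e1 : ∀ (f : Fin g → R) (x y : R), ∑ o, y * (f o * (x * 1)) = ∑ o, x * (y * (f o)) :=
          fun f x y => Finset.sum_congr rfl fun o _ => by ring
        have e2 : ∀ (z w : R) (F : Fin g → R) (F' : Fin g → R),
            ∑ o, z * (F o * (w * F' o)) = ∑ o, w * (z * (F o * F' o)) :=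
          fun z w F F' => Finset.sum_congr rfl fun o _ => by ring
        have e3 : ∀ (z w : R) (F : ℕ → R) (F' : ℕ → R),
            ∑ o ∈ range (l + 1), z * (F o * (w * F' o)) =
              ∑ o ∈ range (l + 1), w * (z * (F o * F' o)) :=
          fun z w F F' => Finset.sum_congr rfl fun o _ => by ring
        rw [e2, e2, e3, e3]
        ring
      simp only [h1, Finset.sum_add_distrib, ← Finset.mul_sum]
      ring

theorem chain_Sg (l : ℕ) (hl : l ≤ L) (b : Bool) : D (μ.M l b) =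
    σ₁ * μ.ev ϑ (vM l b * Sg s₁ l b) + σ₂ * μ.ev ϑ (vM l b * Sg s₂ l b) := by
  rw [der_M μ D hl b, map_mul, map_mul, ev_vM μ ϑ hl]
  unfold Sg
  simp only [map_add, map_sum, map_mul]
  have h3 : ∀ o, μ.ev ϑ (vE l b o) = (μ.e l b o : R) := fun o => ev_vE μ ϑ hl b o
  have h4 : ∑ l' ∈ range (l + 1), (μ.h l b l' : R) * (μ.Gi l' * D (μ.G l')) =
      ∑ l' ∈ range (l + 1), μ.ev ϑ (vH l b l') *
        (σ₁ * μ.ev ϑ (Lam s₁ l') + σ₂ * μ.ev ϑ (Lam s₂ l')) := by
    refine Finset.sum_congr rfl fun l' hl' => ?_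
    have hl'' := Finset.mem_range.1 hl'
    rw [chain_Lam μ ϑ D s₁ s₂ σ₁ σ₂ ha hp l' (by omega), ev_vH μ ϑ hl (by omega)]
  rw [h4]
  simp only [h3, hp]
  simp only [mul_add, Finset.sum_add_distrib, Finset.mul_sum]
  have e2 : ∀ (z w : R) (F : Fin g → R) (F' : Fin g → R),
      ∑ o, z * (F o * (w * F' o)) = ∑ o, w * (z * (F o * F' o)) :=
    fun z w F F' => Finset.sum_congr rfl fun o _ => by ring
  have e3 : ∀ (z w : R) (F : ℕ → R) (F' : ℕ → R),
      ∑ o ∈ range (l + 1), z * (F o * (w * F' o)) =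
        ∑ o ∈ range (l + 1), w * (z * (F o * F' o)) :=
    fun z w F F' => Finset.sum_congr rfl fun o _ => by ring
  rw [e2, e2, e3, e3]
  ring

include hu

/-- **The chain rule.** -/
theorem chain (b : AR g L Θ) : D (μ.ev ϑ b) =
    σ₁ * μ.ev ϑ (dd s₁ b) + σ₂ * μ.ev ϑ (dd s₂ b) := by
  induction b using MvPolynomial.induction_on with
  | C n =>
    have h1 : μ.ev ϑ (C n : AR g L Θ) = (n : R) := by
      unfold Mdl.ev
      simp
    have h2 : ∀ s : Seed g L Θ, dd s (C n) = 0 := fun s => derivation_C _ _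
    rw [h1, h2, h2, map_zero, mul_zero, mul_zero, add_zero, Derivation.map_intCast]
  | add p q hp' hq =>
    simp only [map_add, hp', hq]
    ring
  | mul_X p v ih =>
    have hgen : D (μ.ev ϑ (X v)) = σ₁ * μ.ev ϑ (dd s₁ (X v)) + σ₂ * μ.ev ϑ (dd s₂ (X v)) := by
      have hdd : ∀ s : Seed g L Θ, dd s (X v) = (fun v => match v with
        | Sum.inl (Sum.inl l) => if (l : ℕ) = 0 then s.a else
            ∑ b : Bool, vM ((l : ℕ) - 1) b * Sg s ((l : ℕ) - 1) b
        | Sum.inl (Sum.inr (Sum.inl l)) => -(vI l * Lam s l)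
        | Sum.inl (Sum.inr (Sum.inr (Sum.inl (l, b)))) => vM l b * Sg s l b
        | Sum.inl (Sum.inr (Sum.inr (Sum.inr _))) => 0
        | Sum.inr v => s.u v) v := fun s => by
        unfold dd
        exact mkDerivation_X _ _ _
      rw [hdd, hdd]
      rcases v with (l | l | ⟨l, b⟩ | ⟨l, b, o⟩ | ⟨l, b, l'⟩) | v
      · have h1 : μ.ev ϑ (X (Sum.inl (Sum.inl l))) = μ.G l := by
          unfold Mdl.ev
          simp
        rw [h1]
        simp only
        split_ifs with h0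
        · rw [h0, ha]
        · obtain ⟨k, hk⟩ : ∃ k, (l : ℕ) = k + 1 := ⟨(l : ℕ) - 1, by omega⟩
          have hkL : k ≤ L := by have := l.2; omega
          rw [hk, Nat.add_sub_cancel, μ.step k hkL, map_sum, map_sum, map_sum, Finset.mul_sum,
            Finset.mul_sum, ← Finset.sum_add_distrib]
          refine Finset.sum_congr rfl fun b _ => ?_
          exact chain_Sg μ ϑ D s₁ s₂ σ₁ σ₂ ha hp k hkL b
      · have hl : (l : ℕ) ≤ L := Nat.lt_succ_iff.1 l.2
        have h1 : μ.ev ϑ (X (Sum.inl (Sum.inr (Sum.inl l)))) = μ.Gi l := by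
          unfold Mdl.ev
          simp
        rw [h1]
        simp only [map_neg, map_mul]
        rw [ev_vI μ ϑ hl]
        have h2 := chain_Lam μ ϑ D s₁ s₂ σ₁ σ₂ ha hp l hl
        have h3 := congrArg D (μ.inv l hl)
        rw [Derivation.leibniz, Derivation.map_one_eq_zero, smul_eq_mul, smul_eq_mul] at h3
        have h4 := μ.inv l hl
        linear_combination (-(D (μ.Gi l))) * h4 + μ.Gi l * h3 - μ.Gi l * h2
      · have hl : (l : ℕ) ≤ L := Nat.lt_succ_iff.1 l.2
        have h1 : μ.ev ϑ (X (Sum.inl (Sum.inr (Sum.inr (Sum.inl (l, b)))))) = μ.M l b := by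
          unfold Mdl.ev
          simp
        rw [h1]
        exact chain_Sg μ ϑ D s₁ s₂ σ₁ σ₂ ha hp l hl b
      · have h1 : μ.ev ϑ (X (Sum.inl (Sum.inr (Sum.inr (Sum.inr (Sum.inl (l, b, o))))))) =
            (μ.e l b o : R) := by
          unfold Mdl.ev
          simp
        rw [h1]
        simp
      · have h1 : μ.ev ϑ (X (Sum.inl (Sum.inr (Sum.inr (Sum.inr (Sum.inr (l, b, l'))))))) =
            (μ.h l b l' : R) := by
          unfold Mdl.ev
          simp
        rw [h1]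
        simp
      · rw [ev_theta]
        exact hu v
    rw [Derivation.leibniz, Derivation.leibniz]
    simp only [map_mul, Derivation.leibniz, map_add, smul_eq_mul, ih, hgen]
    ring

end Chain

end Pool.Agent.R351
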