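import Mathlib
import Pool.Agent.R351.Slp

/-!
# The multiplicity of the zeros of polynomials computed with few additions
-/

set_option autoImplicit false

namespace Pool.Agent.R351

open Finset

/-- A computation of polynomials in one variable, with nonzero values at `y`. -/
structure PS (κ C : Type*) [Field κ] [Field C] [Algebra κ C] (g L : ℕ) where
  t : Fin g → C
  ht : ∀ o, t o ≠ 0
  y : C
  G : ℕ → Polynomial C
  c : ℕ → Bool → κ
  e : ℕ → Bool → Fin g → ℕ
  h : ℕ → Bool → ℕ → ℕ
  G0 : G 0 = Polynomial.X
  step : ∀ l ≤ L, G (l + 1) = ∑ b, c l b • ((∏ o, Polynomial.C (t o) ^ e l b o) *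
    ∏ l' ∈ range (l + 1), G l' ^ h l b l')
  ne : ∀ l ≤ L, (G l).eval y ≠ 0

section

variable {κ C : Type*} [Field κ] [Field C] [Algebra κ C] {g L : ℕ} {Θ : Type}

/-- The values. -/
noncomputable def PS.mc (π : PS κ C g L) : Mdl κ C g L where
  G l := (π.G l).eval π.y
  Gi l := ((π.G l).eval π.y)⁻¹
  T := π.t
  Ti o := (π.t o)⁻¹
  c := π.c
  e := π.e
  h := π.h
  inv l hl := inv_mul_cancel₀ (π.ne l hl)
  invT o := inv_mul_cancel₀ (π.ht o)
  step l hl := by
    rw [π.step l hl, Polynomial.eval_finsetSum]
    refine Finset.sum_congr rfl fun b _ => ?_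
    rw [Polynomial.eval_smul, Polynomial.eval_mul, Polynomial.eval_prod, Polynomial.eval_prod]
    simp only [Polynomial.eval_pow, Polynomial.eval_C]

/-- the Taylor expansion at `y` -/
noncomputable def tay (y : C) : Polynomial C →+* PowerSeries C :=
  (Polynomial.coeToPowerSeries.ringHom).comp (Polynomial.compRingHom (Polynomial.X + Polynomial.C y))

theorem tay_C (y a : C) : tay y (Polynomial.C a) = PowerSeries.C a := by
  unfold tay
  simp

theorem tay_const (y : C) (p : Polynomial C) : PowerSeries.constantCoeff (tay y p) = p.eval y := by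
  unfold tay
  rw [RingHom.comp_apply, Polynomial.coe_compRingHom_apply, Polynomial.coeToPowerSeries.ringHom_apply,
    ← PowerSeries.coeff_zero_eq_constantCoeff_apply, Polynomial.coeff_coe, Polynomial.coeff_zero_eq_eval_zero,
    Polynomial.eval_comp]
  simp

theorem tay_der (y : C) (p : Polynomial C) :
    PowerSeries.derivative C (tay y p) = tay y (Polynomial.derivative p) := by
  unfold tay
  rw [RingHom.comp_apply, Polynomial.coe_compRingHom_apply, Polynomial.coeToPowerSeries.ringHom_apply,
    PowerSeries.derivative_coe, Polynomial.derivative_comp]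
  simp

theorem tay_smul (y : C) (a : κ) (p : Polynomial C) : tay y (a • p) = a • tay y p := by
  rw [Algebra.smul_def, Algebra.smul_def, map_mul]
  congr 1
  rw [IsScalarTower.algebraMap_apply κ C (Polynomial C), IsScalarTower.algebraMap_apply κ C
    (PowerSeries C), Polynomial.algebraMap_eq, tay_C]
  rfl

/-- The Taylor expansions. -/
noncomputable def PS.mt (π : PS κ C g L) : Mdl κ (PowerSeries C) g L where
  G l := tay π.y (π.G l)
  Gi l := (tay π.y (π.G l))⁻¹
  T o := PowerSeries.C (π.t o)
  Ti o := PowerSeries.C (π.t o)⁻¹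
  c := π.c
  e := π.e
  h := π.h
  inv l hl := PowerSeries.inv_mul_cancel _ (by
    rw [tay_const]
    exact π.ne l hl)
  invT o := by rw [← map_mul, inv_mul_cancel₀ (π.ht o), map_one]
  step l hl := by
    rw [π.step l hl, map_sum]
    refine Finset.sum_congr rfl fun b _ => ?_
    rw [tay_smul, map_mul, map_prod, map_prod]
    simp only [map_pow, tay_C]

/-- the partial derivative with respect to the variable -/
noncomputable def sp (g L : ℕ) (Θ : Type) : Seed g L Θ := ⟨1, 0, 0⟩

/-- the polynomial computed in the last step -/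
noncomputable def vQ (g L : ℕ) (Θ : Type) : AR g L Θ := ∑ b, vM L b

theorem chain_tay (π : PS κ C g L) (ϑ : Θ → C) (b : AR g L Θ) :
    PowerSeries.derivative C (π.mt.ev (fun v => PowerSeries.C (ϑ v)) b) =
      π.mt.ev (fun v => PowerSeries.C (ϑ v)) (dd (sp g L Θ) b) := by
  have h := chain π.mt (fun v => PowerSeries.C (ϑ v))
    ((PowerSeries.derivative C).restrictScalars κ) (sp g L Θ) (sp g L Θ) 0 1 (by
      show PowerSeries.derivative C (tay π.y (π.G 0)) = _
      rw [tay_der, π.G0, Polynomial.derivative_X, map_one]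
      unfold sp
      simp) (by
      intro o
      show PowerSeries.C (π.t o)⁻¹ * PowerSeries.derivative C (PowerSeries.C (π.t o)) = _
      rw [PowerSeries.derivative_C]
      unfold sp
      simp) (by
      intro v
      show PowerSeries.derivative C (PowerSeries.C (ϑ v)) = _
      rw [PowerSeries.derivative_C]
      unfold sp
      simp) b
  rw [zero_mul, one_mul, zero_add] at h
  exact h

theorem ev_const (π : PS κ C g L) (ϑ : Θ → C) (b : AR g L Θ) :
    PowerSeries.constantCoeff (π.mt.ev (fun v => PowerSeries.C (ϑ v)) b) = π.mc.ev ϑ b := by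
  have h : (PowerSeries.constantCoeff (R := C)).comp (π.mt.ev (fun v => PowerSeries.C (ϑ v))) =
      π.mc.ev ϑ := by
    apply MvPolynomial.ringHom_ext
    · intro n
      simp
    · intro v
      rw [RingHom.comp_apply]
      rcases v with (l | l | ⟨l, b⟩ | ⟨l, b, o⟩ | ⟨l, b, l'⟩) | v
      · unfold Mdl.ev
        simp only [MvPolynomial.eval₂Hom_X']
        exact tay_const _ _
      · unfold Mdl.ev
        simp only [MvPolynomial.eval₂Hom_X']
        show PowerSeries.constantCoeff (tay π.y (π.G l))⁻¹ = _
        rw [PowerSeries.constantCoeff_inv, tay_const]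
        rfl
      · unfold Mdl.ev
        simp only [MvPolynomial.eval₂Hom_X']
        unfold Mdl.M
        have hs : ∀ (a : κ) (f : PowerSeries C), PowerSeries.constantCoeff (a • f) =
            a • PowerSeries.constantCoeff f := by
          intro a f
          rw [← PowerSeries.coeff_zero_eq_constantCoeff_apply,
            ← PowerSeries.coeff_zero_eq_constantCoeff_apply]
          rfl
        rw [hs, map_mul, map_prod, map_prod]
        simp only [map_pow]
        have h1 : ∀ o, PowerSeries.constantCoeff (π.mt.T o) = π.mc.T o := fun o =>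
          PowerSeries.constantCoeff_C _
        have h2 : ∀ l', PowerSeries.constantCoeff (π.mt.G l') = π.mc.G l' := fun l' =>
          tay_const _ _
        simp only [h1, h2]
        rfl
      · unfold Mdl.ev
        simp only [MvPolynomial.eval₂Hom_X']
        exact map_natCast _ _
      · unfold Mdl.ev
        simp only [MvPolynomial.eval₂Hom_X']
        exact map_natCast _ _
      · rw [ev_theta, ev_theta]
        exact PowerSeries.constantCoeff_C _
  exact RingHom.congr_fun h b

theorem ev_vQ (π : PS κ C g L) (ϑ : Θ → PowerSeries C) :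
    π.mt.ev ϑ (vQ g L Θ) = tay π.y (π.G (L + 1)) := by
  unfold vQ
  rw [map_sum]
  simp only [ev_vM π.mt ϑ (le_refl L)]
  exact (π.mt.step L le_rfl).symm

/-- **The formal derivatives have the right values.** -/
theorem ev_iter (π : PS κ C g L) (ϑ : Θ → C) (j : ℕ) :
    π.mc.ev ϑ ((fun b => dd (sp g L Θ) b)^[j] (vQ g L Θ)) =
      (Polynomial.derivative^[j] (π.G (L + 1))).eval π.y := by
  rw [← ev_const, ← tay_const]
  congr 1
  induction j with
  | zero => exact ev_vQ π _
  | succ j ih =>
    rw [Function.iterate_succ_apply', Function.iterate_succ_apply', ← chain_tay, ih, tay_der]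

end

/-- **A bound for the multiplicity.** -/
theorem mult_bound (g L : ℕ) : ∃ μ : ℕ, ∀ (κ C : Type) [Field κ] [Field C] [CharZero C]
    [Algebra κ C] (π : PS κ C g L), π.G (L + 1) ≠ 0 →
    ∃ j ≤ μ, (Polynomial.derivative^[j] (π.G (L + 1))).eval π.y ≠ 0 := by
  set Q := vQ g L Empty with hQ
  let I : ℕ →o Submodule (AR g L Empty) (AR g L Empty) :=
    { toFun := fun k => Submodule.span _ {b | ∃ j ≤ k, b = (fun b => dd (sp g L Empty) b)^[j] Q}
      monotone' := by
        intro k k' hk
        apply Submodule.span_mono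
        rintro b ⟨j, hj, hb⟩
        exact ⟨j, hj.trans hk, hb⟩ }
  have hN : IsNoetherianRing (AR g L Empty) := by infer_instance
  obtain ⟨μ, hμ⟩ := monotone_stabilizes_iff_noetherian.2 hN I
  refine ⟨μ, fun κ C _ _ _ _ π hP => ?_⟩
  by_contra hcon
  push Not at hcon
  apply hP
  have hker : ∀ b ∈ I μ, π.mc.ev (fun v : Empty => v.elim) b = 0 := by
    intro b hb
    have hb' : b ∈ Submodule.span (AR g L Empty)
      {b | ∃ j ≤ μ, b = (fun b => dd (sp g L Empty) b)^[j] Q} := hb
    induction hb' using Submodule.span_induction with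
    | mem x hx =>
      obtain ⟨j, hj, rfl⟩ := hx
      rw [hQ, ev_iter]
      exact hcon j hj
    | zero => exact map_zero _
    | add x y hx hy ihx ihy => rw [map_add, ihx hx, ihy hy, add_zero]
    | smul a x hx ih => rw [smul_eq_mul, map_mul, ih hx, mul_zero]
  have hall : ∀ j, (Polynomial.derivative^[j] (π.G (L + 1))).eval π.y = 0 := by
    intro j
    rw [← ev_iter (Θ := Empty) π (fun v => v.elim)]
    apply hker
    have h1 : (fun b => dd (sp g L Empty) b)^[j] Q ∈ I j :=
      Submodule.subset_span ⟨j, le_rfl, rfl⟩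
    rcases le_total μ j with h | h
    · rw [hμ j h]
      exact h1
    · exact I.monotone h h1
  apply Polynomial.eq_zero_of_hasseDeriv_eq_zero _ π.y
  intro k
  have h1 := hall k
  rw [← Polynomial.factorial_smul_hasseDeriv] at h1
  have h2 : ((k.factorial • Polynomial.hasseDeriv k) (π.G (L + 1))).eval π.y =
      (k.factorial : C) * ((Polynomial.hasseDeriv k) (π.G (L + 1))).eval π.y := by
    rw [LinearMap.smul_apply, nsmul_eq_mul, Polynomial.eval_mul, Polynomial.eval_natCast]
  rw [h2] at h1
  rcases mul_eq_zero.1 h1 with h3 | h3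
  · exact absurd h3 (by exact_mod_cast k.factorial_ne_zero)
  · exact h3

end Pool.Agent.R351
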