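import Mathlib
import Pool.Agent.R351.Mult
import Pool.Agent.R351.Jet

/-!
# Elimination: the jets of a zero of a polynomial computed with few additions
-/

set_option autoImplicit false

namespace Pool.Agent.R351

open Finset Module
open Pool.Agent.Y918.SC (Ex monE)
open Pool.Agent.W245 (IndepOver)

/-! ### Fraction-free elimination -/

/-- the degree of the solution -/
def fd : ℕ → ℕ → ℕ
  | 0, _ => 0
  | n + 1, δ => max (fd n δ) (fd n (2 * δ) + δ)

theorem fd_elim {κ F : Type*} [Field κ] [Field F] [Algebra κ F] (S : ℕ → Submodule κ F)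
    (h1 : (1 : F) ∈ S 0) (hmono : Monotone S)
    (hmul : ∀ i j a b, a ∈ S i → b ∈ S j → a * b ∈ S (i + j)) (n : ℕ) :
    ∀ (δ : ℕ) (ι : Type) [Fintype ι] (_ : n < Fintype.card ι) (A : ι → Fin n → F)
      (_ : ∀ e d, A e d ∈ S δ), ∃ c : ι → F, c ≠ 0 ∧ (∀ e, c e ∈ S (fd n δ)) ∧
        ∀ d, ∑ e, c e * A e d = 0 := by
  classical
  induction n with
  | zero =>
    intro δ ι _ hn A hA
    obtain ⟨r⟩ := Fintype.card_pos_iff.1 hn
    refine ⟨fun _ => 1, ?_, fun e => h1, fun d => d.elim0⟩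
    intro h
    exact one_ne_zero (congrFun h r)
  | succ n ih =>
    intro δ ι _ hn A hA
    by_cases h0 : ∀ e, A e (Fin.last n) = 0
    · obtain ⟨c, hc0, hc, hc'⟩ := ih δ ι (by omega) (fun e d => A e d.castSucc) (fun e d => hA _ _)
      refine ⟨c, hc0, fun e => hmono (le_max_left _ _) (hc e), fun d => ?_⟩
      refine Fin.lastCases ?_ (fun d => hc' d) d
      exact Finset.sum_eq_zero fun e _ => by rw [h0, mul_zero]
    · push Not at h0
      obtain ⟨r, hr⟩ := h0
      have hcard : n < Fintype.card {e // e ≠ r} := by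
        rw [Fintype.card_subtype_compl, Fintype.card_subtype_eq]
        omega
      obtain ⟨c, hc0, hc, hc'⟩ := ih (2 * δ) {e // e ≠ r} hcard
        (fun e d => A r (Fin.last n) * A e d.castSucc - A e (Fin.last n) * A r d.castSucc) (by
          intro e d
          refine Submodule.sub_mem _ ?_ ?_
          · rw [two_mul]
            exact hmul _ _ _ _ (hA _ _) (hA _ _)
          · rw [two_mul]
            exact hmul _ _ _ _ (hA _ _) (hA _ _))
      obtain ⟨cc, hcc1, hcc2⟩ : ∃ cc : ι → F, (∀ e : {e // e ≠ r}, cc e = c e * A r (Fin.last n)) ∧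
          cc r = -∑ e' : {e // e ≠ r}, c e' * A e' (Fin.last n) := by
        refine ⟨fun e => if h : e ≠ r then c ⟨e, h⟩ * A r (Fin.last n) else
          -∑ e' : {e // e ≠ r}, c e' * A e' (Fin.last n), fun e => ?_, ?_⟩
        · beta_reduce
          rw [dif_pos e.2]
        · beta_reduce
          rw [dif_neg (not_not.2 rfl)]
      refine ⟨cc, ?_, ?_, ?_⟩
      · intro hz
        apply hc0
        funext e
        have h2 := congrFun hz e
        rw [hcc1, Pi.zero_apply] at h2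
        exact (mul_eq_zero.1 h2).resolve_right hr
      · intro e
        refine hmono (le_max_right _ _) ?_
        by_cases h : e = r
        · rw [h, hcc2]
          refine Submodule.neg_mem _ (Submodule.sum_mem _ fun e' _ => ?_)
          exact hmul _ _ _ _ (hc _) (hA _ _)
        · have h2 := hcc1 ⟨e, h⟩
          simp only at h2
          rw [h2]
          exact hmul _ _ _ _ (hc _) (hA _ _)
      · intro d
        rw [Fintype.sum_eq_add_sum_subtype_ne _ r, hcc2]
        simp only [hcc1]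
        refine Fin.lastCases ?_ (fun d => ?_) d
        · rw [neg_mul, Finset.sum_mul, neg_add_eq_zero]
          exact Finset.sum_congr rfl fun e _ => by ring
        · rw [neg_mul, Finset.sum_mul, neg_add_eq_sub, ← Finset.sum_sub_distrib, ← hc' d]
          exact Finset.sum_congr rfl fun e _ => by ring

/-! ### The space of the coefficients -/

section Space

variable {κ C : Type*} [Field κ] [Field C] [Algebra κ C] {g : ℕ}

/-- the space of the monomials of degree at most `n` in each of the numbers `ϑ (o, c)`, `c < K'` -/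
noncomputable def Sθ (κ : Type*) {C : Type*} [Field κ] [Field C] [Algebra κ C] {g : ℕ}
    (ϑ : Fin g × ℕ → C) (K' n : ℕ) : Submodule κ C :=
  Submodule.span κ (Set.range fun h : Fin g × Fin K' → Fin (n + 1) =>
    ∏ w, ϑ (w.1, (w.2 : ℕ)) ^ (h w : ℕ))

theorem Sθ_finite (ϑ : Fin g × ℕ → C) (K' n : ℕ) :
    Module.Finite κ (Sθ κ ϑ K' n) ∧ finrank κ (Sθ κ ϑ K' n) ≤ (n + 1) ^ (g * K') := by
  classical
  refine ⟨FiniteDimensional.span_of_finite κ (Set.finite_range _), ?_⟩
  refine (finrank_range_le_card _).trans ?_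
  simp

theorem Sθ_gen (ϑ : Fin g × ℕ → C) (K' n : ℕ) (h : Fin g × Fin K' → ℕ) (hh : ∀ w, h w ≤ n) :
    ∏ w, ϑ (w.1, (w.2 : ℕ)) ^ (h w) ∈ Sθ κ ϑ K' n :=
  Submodule.subset_span ⟨fun w => ⟨h w, Nat.lt_succ_of_le (hh w)⟩, rfl⟩

theorem Sθ_one (ϑ : Fin g × ℕ → C) (K' n : ℕ) : (1 : C) ∈ Sθ κ ϑ K' n := by
  have h := Sθ_gen (κ := κ) ϑ K' n (fun _ => 0) (fun _ => Nat.zero_le _)
  simpa using h

theorem Sθ_mono (ϑ : Fin g × ℕ → C) (K' : ℕ) : Monotone (Sθ κ ϑ K') := by
  intro n n' hn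
  refine Submodule.span_le.2 ?_
  rintro _ ⟨h, rfl⟩
  exact Sθ_gen ϑ K' n' (fun w => (h w : ℕ)) (fun w => (Nat.lt_succ_iff.1 (h w).2).trans hn)

theorem Sθ_mul (ϑ : Fin g × ℕ → C) (K' i j : ℕ) (a b : C) (ha : a ∈ Sθ κ ϑ K' i)
    (hb : b ∈ Sθ κ ϑ K' j) : a * b ∈ Sθ κ ϑ K' (i + j) := by
  have h1 : Sθ κ ϑ K' i * Sθ κ ϑ K' j ≤ Sθ κ ϑ K' (i + j) := by
    unfold Sθ
    rw [Submodule.span_mul_span, Submodule.span_le]
    rintro _ ⟨_, ⟨h, rfl⟩, _, ⟨h', rfl⟩, rfl⟩
    beta_reduce
    rw [← Finset.prod_mul_distrib]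
    simp only [← pow_add]
    exact Sθ_gen ϑ K' (i + j) (fun w => (h w : ℕ) + (h' w : ℕ))
      (fun w => Nat.add_le_add (Nat.lt_succ_iff.1 (h w).2) (Nat.lt_succ_iff.1 (h' w).2))
  exact h1 (Submodule.mul_mem_mul ha hb)

/-! ### Partial evaluation -/

variable {L : ℕ}

/-- the partial evaluation -/
noncomputable def pv (ϑ : Fin g × ℕ → C) :
    AR g L (Fin g × ℕ) →+* MvPolynomial (S0 g L) C :=
  MvPolynomial.eval₂Hom (Int.castRingHom _)
    (Sum.elim (fun v => MvPolynomial.X v) (fun w => MvPolynomial.C (ϑ w)))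

theorem eval_pv (μ : Mdl κ C g L) (ϑ : Fin g × ℕ → C) (b : AR g L (Fin g × ℕ)) :
    MvPolynomial.eval (fun v => μ.ev ϑ (MvPolynomial.X (Sum.inl v))) (pv ϑ b) = μ.ev ϑ b := by
  have h : (MvPolynomial.eval (fun v => μ.ev ϑ (MvPolynomial.X (Sum.inl v)))).comp
      (pv (L := L) ϑ) = μ.ev ϑ := by
    apply MvPolynomial.ringHom_ext
    · intro n
      simp
    · rintro (v | w)
      · rw [RingHom.comp_apply, pv, MvPolynomial.eval₂Hom_X', Sum.elim_inl, MvPolynomial.eval_X]
      · rw [RingHom.comp_apply, pv, MvPolynomial.eval₂Hom_X', Sum.elim_inr, MvPolynomial.eval_C,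
          ev_theta]
  exact RingHom.congr_fun h b

/-- the polynomials in which the parameters have order less than `K'` -/
noncomputable def ordA (g L K' : ℕ) : Subalgebra ℤ (AR g L (Fin g × ℕ)) :=
  MvPolynomial.supported ℤ {v | ∀ w : Fin g × ℕ, v = Sum.inr w → w.2 < K'}

theorem ordA_mono {K' K'' : ℕ} (h : K' ≤ K'') : ordA g L K' ≤ ordA g L K'' :=
  MvPolynomial.supported_mono fun _ hv w hw => lt_of_lt_of_le (hv w hw) h

theorem exists_ordA (b : AR g L (Fin g × ℕ)) : ∃ K', b ∈ ordA g L K' := by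
  classical
  refine ⟨b.vars.sup (fun v => Sum.elim (fun _ => 0) (fun w => w.2 + 1) v), ?_⟩
  unfold ordA
  rw [MvPolynomial.mem_supported]
  intro v hv w hw
  have h1 := Finset.le_sup (f := fun v : S0 g L ⊕ (Fin g × ℕ) =>
    Sum.elim (fun _ => 0) (fun w => w.2 + 1) v) (Finset.mem_coe.1 hv)
  subst hw
  exact h1

theorem coord_le' {R V : Type*} [CommSemiring R] {F : MvPolynomial V R} {N : ℕ}
    (hF : F.totalDegree ≤ N) {m : V →₀ ℕ} (hm : m ∈ F.support) (v : V) : m v ≤ N := by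
  by_cases hv : v ∈ m.support
  · refine (Finset.single_le_sum (f := fun i => m i) (fun _ _ => Nat.zero_le _) hv).trans ?_
    exact (MvPolynomial.le_totalDegree hm).trans hF
  · rw [Finsupp.notMem_support_iff.1 hv]
    exact Nat.zero_le _

/-- the coefficients of the partial evaluation -/
theorem pv_coeff (ϑ : Fin g × ℕ → C) (K' n : ℕ) (b : AR g L (Fin g × ℕ)) (hb : b ∈ ordA g L K')
    (hn : b.totalDegree ≤ n) (d : S0 g L →₀ ℕ) :
    (pv ϑ b).coeff d ∈ Sθ κ ϑ K' n ∧ ((¬ ∀ v, d v ≤ n) → (pv ϑ b).coeff d = 0) := by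
  classical
  have hsupp : ∀ m ∈ b.support, ∀ w : Fin g × ℕ, m (Sum.inr w) ≠ 0 → w.2 < K' := by
    intro m hm w hw
    have h1 : (b.vars : Set (S0 g L ⊕ (Fin g × ℕ))) ⊆ _ := MvPolynomial.mem_supported.1 hb
    exact h1 (Finset.mem_coe.2 ((MvPolynomial.mem_vars_iff_mem_support _).2
      ⟨m, hm, Finsupp.mem_support_iff.2 hw⟩)) w rfl
  -- the monomials
  have hmon : ∀ m ∈ b.support, pv ϑ (MvPolynomial.monomial m (b.coeff m)) =
      MvPolynomial.monomial (m.comapDomain Sum.inl Sum.inl_injective.injOn)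
        ((b.coeff m : ℤ) * ∏ w : Fin g × Fin K', ϑ (w.1, (w.2 : ℕ)) ^ m (Sum.inr (w.1, (w.2 : ℕ)))) := by
    intro m hm
    unfold pv
    rw [MvPolynomial.coe_eval₂Hom, MvPolynomial.eval₂_monomial]
    let φ : S0 g L ⊕ (Fin g × Fin K') ↪ S0 g L ⊕ (Fin g × ℕ) :=
      ⟨Sum.map id (fun w => (w.1, (w.2 : ℕ))), Sum.map_injective.2 ⟨Function.injective_id,
        fun w w' h => by
          rw [Prod.mk.injEq] at h
          exact Prod.ext h.1 (Fin.ext h.2)⟩⟩
    rw [Finsupp.prod, Finset.prod_subset (s₂ := Finset.univ.map φ)]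
    · rw [Finset.prod_map, Fintype.prod_sum_type]
      have e1 : ∀ v : S0 g L, φ (Sum.inl v) = Sum.inl v := fun v => rfl
      have e2 : ∀ w : Fin g × Fin K', φ (Sum.inr w) = Sum.inr (w.1, (w.2 : ℕ)) := fun w => rfl
      simp only [e1, e2, Sum.elim_inl, Sum.elim_inr]
      have e3 : ∏ v, (MvPolynomial.X v : MvPolynomial (S0 g L) C) ^ m (Sum.inl v) =
          MvPolynomial.monomial (m.comapDomain Sum.inl Sum.inl_injective.injOn) 1 := by
        rw [MvPolynomial.monomial_eq, MvPolynomial.C_1, one_mul, Finsupp.prod_fintype _ _ (by simp)]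
        rfl
      rw [e3]
      simp only [← map_pow]
      rw [← map_prod, mul_comm (MvPolynomial.monomial _ _), ← mul_assoc, MvPolynomial.monomial_eq,
        MvPolynomial.monomial_eq, map_mul, MvPolynomial.C_1, one_mul]
      congr 2
    · intro v hv
      rw [Finset.mem_map]
      rcases v with v | w
      · exact ⟨Sum.inl v, Finset.mem_univ _, rfl⟩
      · exact ⟨Sum.inr (w.1, ⟨w.2, hsupp m hm w (Finsupp.mem_support_iff.1 hv)⟩),
          Finset.mem_univ _, rfl⟩
    · intro v _ hv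
      rw [Finsupp.notMem_support_iff.1 hv, pow_zero]
  have hsum : pv ϑ b = ∑ m ∈ b.support, MvPolynomial.monomial
      (m.comapDomain Sum.inl Sum.inl_injective.injOn)
        ((b.coeff m : ℤ) * ∏ w : Fin g × Fin K',
          ϑ (w.1, (w.2 : ℕ)) ^ m (Sum.inr (w.1, (w.2 : ℕ))) : C) := by
    conv_lhs => rw [b.as_sum, map_sum]
    exact Finset.sum_congr rfl hmon
  rw [hsum, MvPolynomial.coeff_sum]
  constructor
  · refine Submodule.sum_mem _ fun m hm => ?_
    rw [MvPolynomial.coeff_monomial]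
    split_ifs
    · have h1 : ((b.coeff m : ℤ) : C) * ∏ w : Fin g × Fin K',
          ϑ (w.1, (w.2 : ℕ)) ^ m (Sum.inr (w.1, (w.2 : ℕ))) = ((b.coeff m : ℤ) : κ) •
          ∏ w : Fin g × Fin K', ϑ (w.1, (w.2 : ℕ)) ^ m (Sum.inr (w.1, (w.2 : ℕ))) := by
        rw [Algebra.smul_def, map_intCast]
      rw [h1]
      refine Submodule.smul_mem _ _ (Sθ_gen ϑ K' n
        (fun w => m (Sum.inr (w.1, (w.2 : ℕ)))) (fun w => ?_))
      exact coord_le' hn hm (Sum.inr (w.1, (w.2 : ℕ)))
    · exact Submodule.zero_mem _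
  · intro hd
    refine Finset.sum_eq_zero fun m hm => ?_
    rw [MvPolynomial.coeff_monomial, if_neg]
    rintro rfl
    apply hd
    intro v
    show m (Sum.inl v) ≤ n
    exact coord_le' hn hm (Sum.inl v)

end Space

end Pool.Agent.R351
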