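import Mathlib
import Pool.Agent.R351.Elim

/-!
# Elimination, continued
-/

set_option autoImplicit false

namespace Pool.Agent.R351

open Finset Module
open Pool.Agent.Y918.SC (Ex monE)
open Pool.Agent.W245 (IndepOver)

section Formal

variable (g L : ℕ)

/-- the derivation of the parameters -/
noncomputable def st : Seed g L (Fin g × ℕ) :=
  ⟨0, fun o => MvPolynomial.X (Sum.inr (o, 0)), fun w => MvPolynomial.X (Sum.inr (w.1, w.2 + 1))⟩

/-- the `j`-th derivative of the polynomial computed -/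
noncomputable def qj (j : ℕ) : AR g L (Fin g × ℕ) :=
  (fun b => dd (sp g L (Fin g × ℕ)) b)^[j] (vQ g L (Fin g × ℕ))

/-- `qj (j + 1)` times the total derivation, when `qj j` vanishes -/
noncomputable def wj (j : ℕ) : Derivation ℤ (AR g L (Fin g × ℕ)) (AR g L (Fin g × ℕ)) :=
  qj g L (j + 1) • dd (st g L) - dd (st g L) (qj g L j) • dd (sp g L (Fin g × ℕ))

/-- the numerators of the derivatives of the variable -/
noncomputable def rj (j : ℕ) : ℕ → AR g L (Fin g × ℕ)
  | 0 => vG 0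
  | c + 1 => qj g L (j + 1) * wj g L j (rj j c) -
      ((2 * c : ℕ) : AR g L (Fin g × ℕ)) * (wj g L j (qj g L (j + 1)) * rj j c)

theorem wj_apply (j : ℕ) (b : AR g L (Fin g × ℕ)) : wj g L j b =
    qj g L (j + 1) * dd (st g L) b - dd (st g L) (qj g L j) * dd (sp g L (Fin g × ℕ)) b := by
  unfold wj
  rw [Derivation.sub_apply, Derivation.smul_apply, Derivation.smul_apply, smul_eq_mul, smul_eq_mul]

end Formal

section Eval

variable {κ C : Type*} [Field κ] [Field C] [Algebra κ C] {g L : ℕ}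

/-- the jets of the logarithmic derivatives of the parameters -/
noncomputable def lt (Δ : Derivation κ C C) (t : Fin g → C) (w : Fin g × ℕ) : C :=
  dit Δ w.2 ((t w.1)⁻¹ * Δ (t w.1))

theorem chain_C (Δ : Derivation κ C C) (π : PS κ C g L) (b : AR g L (Fin g × ℕ)) :
    Δ (π.mc.ev (lt Δ π.t) b) = π.mc.ev (lt Δ π.t) (dd (st g L) b) +
      Δ π.y * π.mc.ev (lt Δ π.t) (dd (sp g L (Fin g × ℕ)) b) := by
  have h := chain π.mc (lt Δ π.t) Δ (st g L) (sp g L (Fin g × ℕ)) 1 (Δ π.y) (by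
      show Δ ((π.G 0).eval π.y) = _
      rw [π.G0, Polynomial.eval_X]
      unfold sp st
      simp) (by
      intro o
      show (π.t o)⁻¹ * Δ (π.t o) = _
      unfold sp st
      simp only [ev_theta]
      unfold lt dit
      simp) (by
      intro w
      unfold sp st
      simp only [ev_theta]
      unfold lt
      simp [dit_succ]) b
  rw [one_mul] at h
  exact h

theorem ev_r (Δ : Derivation κ C C) (π : PS κ C g L) (j : ℕ)
    (h0 : π.mc.ev (lt Δ π.t) (qj g L j) = 0) :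
    π.mc.ev (lt Δ π.t) (qj g L (j + 1)) * Δ π.y =
      -π.mc.ev (lt Δ π.t) (dd (st g L) (qj g L j)) := by
  have h := chain_C Δ π (qj g L j)
  rw [h0, map_zero] at h
  have h1 : qj g L (j + 1) = dd (sp g L (Fin g × ℕ)) (qj g L j) := by
    unfold qj
    rw [Function.iterate_succ_apply']
  rw [h1]
  linear_combination (-1 : C) * h

theorem ev_wj (Δ : Derivation κ C C) (π : PS κ C g L) (j : ℕ)
    (h0 : π.mc.ev (lt Δ π.t) (qj g L j) = 0) (b : AR g L (Fin g × ℕ)) :
    π.mc.ev (lt Δ π.t) (wj g L j b) =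
      π.mc.ev (lt Δ π.t) (qj g L (j + 1)) * Δ (π.mc.ev (lt Δ π.t) b) := by
  rw [wj_apply, map_sub, map_mul, map_mul, chain_C Δ π b]
  linear_combination (-(π.mc.ev (lt Δ π.t) (dd (sp g L (Fin g × ℕ)) b))) * ev_r Δ π j h0

/-- **The derivatives of the variable.** -/
theorem ev_rj (Δ : Derivation κ C C) (π : PS κ C g L) (j : ℕ)
    (h0 : π.mc.ev (lt Δ π.t) (qj g L j) = 0) (c : ℕ) :
    π.mc.ev (lt Δ π.t) (qj g L (j + 1)) ^ (2 * c) * dit Δ c π.y =
      π.mc.ev (lt Δ π.t) (rj g L j c) := by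
  induction c with
  | zero =>
    unfold rj
    rw [ev_vG _ _ (Nat.zero_le _)]
    show _ = (π.G 0).eval π.y
    rw [π.G0, Polynomial.eval_X, mul_zero, pow_zero, one_mul]
    rfl
  | succ c ih =>
    unfold rj
    rw [map_sub, map_mul, map_mul, map_mul, ev_wj Δ π j h0, ev_wj Δ π j h0, ← ih,
      Derivation.leibniz, Derivation.leibniz_pow, dit_succ, map_natCast]
    simp only [smul_eq_mul, nsmul_eq_mul]
    set S := π.mc.ev (lt Δ π.t) (qj g L (j + 1)) with hS
    rcases Nat.eq_zero_or_pos c with h1 | h1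
    · subst h1
      simp
      ring
    · obtain ⟨k, hk⟩ : ∃ k, 2 * c = k + 1 := ⟨2 * c - 1, by omega⟩
      have hk2 : 2 * (c + 1) = k + 1 + 2 := by omega
      rw [hk, hk2, Nat.add_sub_cancel]
      ring

end Eval

/-- **The relation between the jets.** -/
theorem slp_one (g L : ℕ) : ∃ K₀, ∀ K ≥ K₀, ∃ N₀, ∀ N ≥ N₀, ∃ K' N' : ℕ,
    ∀ (κ C : Type) [Field κ] [Field C]
    [CharZero C] [Algebra κ C] (Δ : Derivation κ C C) (π : PS κ C g L), π.G (L + 1) ≠ 0 →
    (π.G (L + 1)).eval π.y = 0 →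
    ¬ IndepOver (Sθ κ (lt Δ π.t) K' N')
      (monE (D := N) (fun c : Fin K => dit Δ c π.y) (fun l : Empty => l.elim)) := by
  classical
  obtain ⟨μ, hμ⟩ := mult_bound g L
  set q : ℕ := Fintype.card (S0 g L) with hq
  refine ⟨q + 1, fun K hKq => ?_⟩
  -- bounds for the degrees and the orders
  obtain ⟨δ, hδ⟩ : ∃ δ : ℕ, ∀ j < μ, (qj g L (j + 1)).totalDegree ≤ δ ∧
      ∀ c < K, (rj g L j c).totalDegree ≤ δ := by
    refine ⟨∑ j ∈ range μ, ((qj g L (j + 1)).totalDegree +
      ∑ c ∈ range K, (rj g L j c).totalDegree), fun j hj => ?_⟩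
    have h1 := Finset.single_le_sum (f := fun j => (qj g L (j + 1)).totalDegree +
      ∑ c ∈ range K, (rj g L j c).totalDegree) (fun _ _ => Nat.zero_le _)
      (Finset.mem_range.2 hj)
    refine ⟨le_trans (Nat.le_add_right _ _) h1, fun c hc => ?_⟩
    have h2 := Finset.single_le_sum (f := fun c => (rj g L j c).totalDegree)
      (fun _ _ => Nat.zero_le _) (Finset.mem_range.2 hc)
    exact h2.trans (le_trans (Nat.le_add_left _ _) h1)
  choose k1 hk1 using fun j : ℕ => exists_ordA (qj g L (j + 1))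
  choose k2 hk2 using fun p : ℕ × ℕ => exists_ordA (rj g L p.1 p.2)
  obtain ⟨K', hK'⟩ : ∃ K' : ℕ, ∀ j < μ, qj g L (j + 1) ∈ ordA g L K' ∧
      ∀ c < K, rj g L j c ∈ ordA g L K' := by
    refine ⟨∑ j ∈ range μ, (k1 j + ∑ c ∈ range K, k2 (j, c)), fun j hj => ?_⟩
    have h1 := Finset.single_le_sum (f := fun j => (k1 j + ∑ c ∈ range K, k2 (j, c)))
      (fun _ _ => Nat.zero_le _) (Finset.mem_range.2 hj)
    refine ⟨ordA_mono (le_trans (Nat.le_add_right _ _) h1) (hk1 j), fun c hc => ?_⟩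
    have h2 := Finset.single_le_sum (f := fun c => k2 (j, c))
      (fun _ _ => Nat.zero_le _) (Finset.mem_range.2 hc)
    exact ordA_mono (h2.trans (le_trans (Nat.le_add_left _ _) h1)) (hk2 (j, c))
  set δ' : ℕ := 2 * K * K * δ + K * δ with hδ'
  refine ⟨(δ' + 1) ^ q + 1, fun N hN => ?_⟩
  set n : ℕ := N * δ' with hn
  set ncol : ℕ := Fintype.card (S0 g L → Fin (n + 1)) with hncol
  refine ⟨K', fd ncol n, fun κ C _ _ _ _ Δ π hP hy hind => ?_⟩
  -- the multiplicity
  obtain ⟨j₁, hj₁, hj₁'⟩ := hμ κ C π hP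
  have hex : ∃ j, (Polynomial.derivative^[j] (π.G (L + 1))).eval π.y ≠ 0 := ⟨j₁, hj₁'⟩
  set j₀ := Nat.find hex with hj₀
  have hj₀' := Nat.find_spec hex
  have hj₀μ : j₀ ≤ μ := (Nat.find_min' hex hj₁').trans hj₁
  have hj₀0 : j₀ ≠ 0 := by
    intro h0
    rw [← hj₀, h0] at hj₀'
    exact hj₀' hy
  obtain ⟨j, hj⟩ : ∃ j, j₀ = j + 1 := ⟨j₀ - 1, by omega⟩
  have hjμ : j < μ := by omega
  have h0 : π.mc.ev (lt Δ π.t) (qj g L j) = 0 := by
    unfold qj
    rw [ev_iter]
    by_contra hcon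
    exact Nat.find_min hex (m := j) (by omega) hcon
  have h1 : π.mc.ev (lt Δ π.t) (qj g L (j + 1)) ≠ 0 := by
    unfold qj
    rw [ev_iter, ← hj]
    exact hj₀'
  set S := π.mc.ev (lt Δ π.t) (qj g L (j + 1)) with hS
  obtain ⟨hδ1, hδ2⟩ := hδ j hjμ
  obtain ⟨hK1, hK2⟩ := hK' j hjμ
  -- the polynomials
  set E : ℕ := 2 * K * K * N with hE
  let w : (Fin K → Fin (N + 1)) → ℕ := fun e => ∑ c : Fin K, 2 * (c : ℕ) * (e c : ℕ)
  have hw : ∀ e, w e ≤ E := by
    intro e
    refine (Finset.sum_le_card_nsmul _ _ (2 * K * N) fun c _ => ?_).trans ?_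
    · have h2 := c.2
      have h3 := (e c).2
      gcongr
      · omega
    · rw [Finset.card_univ, Fintype.card_fin, smul_eq_mul, hE]
      apply le_of_eq
      ring
  let B : (Fin K → Fin (N + 1)) → AR g L (Fin g × ℕ) := fun e =>
    qj g L (j + 1) ^ (E - w e) * ∏ c : Fin K, rj g L j c ^ (e c : ℕ)
  have hBev : ∀ e, π.mc.ev (lt Δ π.t) (B e) = S ^ E * ∏ c : Fin K, dit Δ c π.y ^ (e c : ℕ) := by
    intro e
    simp only [B]
    rw [map_mul, map_pow, map_prod]
    simp only [map_pow, ← ev_rj Δ π j h0]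
    rw [← hS]
    simp only [mul_pow, Finset.prod_mul_distrib, ← pow_mul]
    rw [Finset.prod_pow_eq_pow_sum, ← mul_assoc, ← pow_add, Nat.sub_add_cancel (hw e)]
  have hBdeg : ∀ e, (B e).totalDegree ≤ n := by
    intro e
    simp only [B]
    refine (MvPolynomial.totalDegree_mul _ _).trans ?_
    have h2 : (qj g L (j + 1) ^ (E - w e)).totalDegree ≤ E * δ :=
      (MvPolynomial.totalDegree_pow _ _).trans (Nat.mul_le_mul (Nat.sub_le _ _) hδ1)
    have h3 : (∏ c : Fin K, rj g L j c ^ (e c : ℕ)).totalDegree ≤ K * (N * δ) := by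
      refine (MvPolynomial.totalDegree_finsetProd _ _).trans ?_
      refine (Finset.sum_le_card_nsmul _ _ (N * δ) fun c _ => ?_).trans ?_
      · refine (MvPolynomial.totalDegree_pow _ _).trans (Nat.mul_le_mul ?_ (hδ2 c c.2))
        have := (e c).2
        omega
      · simp
    refine (Nat.add_le_add h2 h3).trans ?_
    rw [hn, hδ', hE]
    apply le_of_eq
    ring
  have hBord : ∀ e, B e ∈ ordA g L K' := by
    intro e
    exact Subalgebra.mul_mem _ (Subalgebra.pow_mem _ hK1 _)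
      (Subalgebra.prod_mem _ fun c _ => Subalgebra.pow_mem _ (hK2 c c.2) _)
  -- the linear relation
  let col : Fin ncol ≃ (S0 g L → Fin (n + 1)) := (Fintype.equivFin _).symm
  let dc : Fin ncol → (S0 g L →₀ ℕ) := fun d =>
    Finsupp.equivFunOnFinite.symm (fun v => ((col d v : Fin (n + 1)) : ℕ))
  have hcard : ncol < Fintype.card (Fin K → Fin (N + 1)) := by
    rw [hncol, Fintype.card_fun, Fintype.card_fun, Fintype.card_fin, Fintype.card_fin,
      Fintype.card_fin, ← hq]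
    have h2 : (n + 1) ^ q ≤ ((N + 1) * (δ' + 1)) ^ q := by
      apply Nat.pow_le_pow_left
      rw [hn]
      nlinarith
    have h3 : (δ' + 1) ^ q < N + 1 := by omega
    calc (n + 1) ^ q ≤ ((N + 1) * (δ' + 1)) ^ q := h2
      _ = (N + 1) ^ q * (δ' + 1) ^ q := mul_pow _ _ _
      _ < (N + 1) ^ q * (N + 1) := (Nat.mul_lt_mul_left (pow_pos (Nat.succ_pos _) _)).2 h3
      _ = (N + 1) ^ (q + 1) := by rw [pow_succ]
      _ ≤ (N + 1) ^ K := Nat.pow_le_pow_right (Nat.succ_pos _) hKq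
  obtain ⟨c, hc0, hcS, hcrel⟩ := fd_elim (Sθ κ (lt Δ π.t) K') (Sθ_one _ _ _) (Sθ_mono _ _)
    (Sθ_mul _ _) ncol n (Fin K → Fin (N + 1)) hcard
    (fun e d => (pv (lt Δ π.t) (B e)).coeff (dc d))
    (fun e d => (pv_coeff (lt Δ π.t) K' n (B e) (hBord e) (hBdeg e) (dc d)).1)
  have hpoly : ∑ e, MvPolynomial.C (c e) * pv (lt Δ π.t) (B e) = 0 := by
    ext d
    rw [MvPolynomial.coeff_sum, MvPolynomial.coeff_zero]
    simp only [MvPolynomial.coeff_C_mul]
    by_cases hd : ∀ v, d v ≤ n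
    · have h2 := hcrel (col.symm (fun v => ⟨d v, Nat.lt_succ_of_le (hd v)⟩))
      have h3 : dc (col.symm (fun v => ⟨d v, Nat.lt_succ_of_le (hd v)⟩)) = d := by
        ext v
        simp [dc]
      rw [h3] at h2
      exact h2
    · exact Finset.sum_eq_zero fun e _ => by
        rw [(pv_coeff (κ := κ) (lt Δ π.t) K' n (B e) (hBord e) (hBdeg e) d).2 hd, mul_zero]
  have hrel : ∑ e, c e * ∏ i : Fin K, dit Δ i π.y ^ (e i : ℕ) = 0 := by
    have h2 := congrArg (MvPolynomial.eval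
      (fun v => π.mc.ev (lt Δ π.t) (MvPolynomial.X (Sum.inl v)))) hpoly
    rw [map_sum, map_zero] at h2
    simp only [map_mul, MvPolynomial.eval_C, eval_pv, hBev] at h2
    have h3 : S ^ E * ∑ e, c e * ∏ i : Fin K, dit Δ i π.y ^ (e i : ℕ) = 0 := by
      rw [← h2, Finset.mul_sum]
      exact Finset.sum_congr rfl fun e _ => by ring
    exact (mul_eq_zero.1 h3).resolve_left (pow_ne_zero _ h1)
  -- contradiction with the independence
  apply hc0
  let φ : Ex (Fin K) Empty N ≃ (Fin K → Fin (N + 1)) :=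
    { toFun := fun e i => e (Sum.inl i)
      invFun := fun e => Sum.elim e (fun l => l.elim)
      left_inv := by
        intro e
        funext x
        rcases x with x | x
        · rfl
        · exact x.elim
      right_inv := fun e => rfl }
  have h2 := hind (fun e => c (φ e)) (fun e => hcS _) (by
    rw [← hrel, ← φ.sum_comp]
    refine Finset.sum_congr rfl fun e _ => ?_
    congr 1
    unfold monE
    have hemp : ∏ l : Empty, (l.elim : C) ^ (e (Sum.inr l) : ℕ) = 1 := Fintype.prod_empty _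
    rw [hemp, mul_one]
    rfl)
  funext e
  have h3 := h2 (φ.symm e)
  simpa using h3

end Pool.Agent.R351
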