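import Mathlib
import Pool.Agent.R351.Cube
import Pool.Agent.W245.MixedTuples
import Pool.Agent.TH681.QC.Rate
import Pool.Agent.W245.PB.CLog

/-!
# Density: sums of products of powers at the logarithms of almost all tuples of integers
-/

set_option autoImplicit false

namespace Pool.Agent.R351

open Module Finset
open Pool.Agent.H301R2.SSE (QB)
open Pool.Agent.W245 (IndepOver famExt famExt_finite)
open Pool.Agent.W245.PB (LogLike count_cons logLike_complex)
open Pool.Agent.TH681.QC (er er_pos er_half er_nonneg cubes_er HasCube)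

/-- `ℂ` has infinite transcendence degree over the algebraic numbers. -/
theorem infTr_complex : InfTr QB ℂ := by
  intro s hs halg
  have hc : (Set.univ : Set ℂ).Countable := by
    have h1 : Countable QB := by
      have hac : IsAlgClosure ℚ QB := algebraicClosure.isAlgClosure ℚ ℂ
      have h2 : Algebra.IsAlgebraic ℚ QB := hac.isAlgebraic
      have h3 : Cardinal.mk QB ≤ max (Cardinal.mk ℚ) Cardinal.aleph0 :=
        Algebra.IsAlgebraic.cardinalMk_le_max ℚ QB
      rw [← Cardinal.mk_le_aleph0_iff]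
      refine h3.trans (max_le ?_ le_rfl)
      exact Cardinal.mk_le_aleph0
    have h4 : Countable (Algebra.adjoin QB s) := by
      have h5 : Countable s := hs.countable.to_subtype
      have h6 : Cardinal.mk (Algebra.adjoin QB s) ≤
          max (max (Cardinal.mk QB) (Cardinal.mk s)) Cardinal.aleph0 := by
        have h7 : Function.Surjective (MvPolynomial.aeval (R := QB) (fun x : s => (x : ℂ))).rangeRestrict :=
          AlgHom.rangeRestrict_surjective _
        have h8 := Cardinal.mk_le_of_surjective h7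
        have h9 : Algebra.adjoin QB s = (MvPolynomial.aeval (R := QB) (fun x : s => (x : ℂ))).range := by
          rw [← Algebra.adjoin_range_eq_range_aeval, Subtype.range_coe]
        rw [h9]
        exact h8.trans MvPolynomial.cardinalMk_le_max
      rw [← Cardinal.mk_le_aleph0_iff]
      refine h6.trans (max_le (max_le ?_ ?_) le_rfl)
      · exact Cardinal.mk_le_aleph0
      · exact Cardinal.mk_le_aleph0
    have h10 : Cardinal.mk ℂ ≤ max (Cardinal.mk (Algebra.adjoin QB s)) Cardinal.aleph0 :=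
      Algebra.IsAlgebraic.cardinalMk_le_max (Algebra.adjoin QB s) ℂ
    rw [Set.countable_univ_iff, ← Cardinal.mk_le_aleph0_iff]
    refine h10.trans (max_le ?_ le_rfl)
    exact Cardinal.mk_le_aleph0
  exact not_countable_complex hc

section Gen

variable {κ C : Type} [Field κ] [Field C] [Algebra κ C]

/-- polynomial functions of degree at most `D` in each variable with coefficients in `W` -/
def PF (W : Submodule κ C) (D : ℕ) {m : ℕ} (f : (Fin m → C) → C) : Prop :=
  ∃ c : (Fin m → Fin (D + 1)) → C, (∀ e, c e ∈ W) ∧ ∀ y, f y = ∑ e, c e * ∏ i, y i ^ (e i : ℕ)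

/-- generic tuples -/
def Gn (W : Submodule κ C) (D k s : ℕ) {m : ℕ} (y : Fin m → C) : Prop :=
  ∀ (f : Fin k → Fin s → (Fin m → C) → C) (a : Fin k → Fin s → ℕ), (∀ i j, PF W D (f i j)) →
    ∑ i, ∏ j, f i j y ^ a i j = 0 → ∀ c : Fin m → κ,
      ∑ i, ∏ j, f i j (fun l => algebraMap κ C (c l)) ^ a i j = 0

theorem gn_zero (W : Submodule κ C) (D k s : ℕ) (y : Fin 0 → C) : Gn W D k s y := by
  intro f a _ h c
  rw [← h]
  refine Finset.sum_congr rfl fun i _ => Finset.prod_congr rfl fun j _ => ?_
  rw [Subsingleton.elim (fun l => algebraMap κ C (c l)) y]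

/-- the powers -/
def pw (D : ℕ) (y : C) (e : Fin (D + 1)) : C := y ^ (e : ℕ)

theorem gn_cons {W : Submodule κ C} {D k s m : ℕ} {y₀ : C} {y : Fin m → C}
    (h₀ : Gn1 W D k s y₀) (h : Gn (famExt W (pw D y₀)) D k s y) :
    Gn W D k s (Fin.cons y₀ y : Fin (m + 1) → C) := by
  classical
  intro f a hf h0 c
  choose u hu hu' using hf
  have hexp : ∀ i j (z₀ : C) (z : Fin m → C), f i j (Fin.cons z₀ z : Fin (m + 1) → C) =
      ∑ e : Fin m → Fin (D + 1), (∑ e₀ : Fin (D + 1), u i j (Fin.cons e₀ e) * z₀ ^ (e₀ : ℕ)) *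
        ∏ l, z l ^ (e l : ℕ) := by
    intro i j z₀ z
    rw [hu', ← (Fin.consEquiv (fun _ : Fin (m + 1) => Fin (D + 1))).sum_comp,
      Fintype.sum_prod_type_right]
    refine Finset.sum_congr rfl fun e _ => ?_
    rw [Finset.sum_mul]
    refine Finset.sum_congr rfl fun e₀ _ => ?_
    rw [Fin.prod_univ_succ]
    simp only [Fin.consEquiv, Equiv.coe_fn_mk, Fin.cons_zero, Fin.cons_succ]
    ring
  -- the last variables
  have h1 := h (fun i j z => f i j (Fin.cons y₀ z : Fin (m + 1) → C)) a (by
    intro i j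
    refine ⟨fun e => ∑ e₀ : Fin (D + 1), u i j (Fin.cons e₀ e) * y₀ ^ (e₀ : ℕ), ?_, ?_⟩
    · intro e
      refine Submodule.sum_mem _ fun e₀ _ => ?_
      exact Submodule.mul_mem_mul (hu i j _) (Submodule.subset_span ⟨e₀, rfl⟩)
    · intro z
      exact hexp i j y₀ z) h0 (Fin.tail c)
  -- the first variable
  set g : Fin k → Fin s → Polynomial C := fun i j =>
    ∑ e₀ : Fin (D + 1), Polynomial.monomial (e₀ : ℕ) (∑ e : Fin m → Fin (D + 1),
      u i j (Fin.cons e₀ e) * ∏ l, (algebraMap κ C (c l.succ)) ^ (e l : ℕ)) with hg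
  have hgev : ∀ i j (z₀ : C), (g i j).eval z₀ =
      f i j (Fin.cons z₀ (fun l => algebraMap κ C (c l.succ)) : Fin (m + 1) → C) := by
    intro i j z₀
    rw [hexp, hg]
    simp only
    rw [Polynomial.eval_finsetSum]
    simp only [Polynomial.eval_monomial, Finset.sum_mul]
    rw [Finset.sum_comm]
    refine Finset.sum_congr rfl fun e _ => Finset.sum_congr rfl fun e₀ _ => ?_
    ring
  have h2 := h₀ g a (by
    intro i j
    constructor
    · refine Polynomial.natDegree_sum_le_of_forall_le _ _ fun e₀ _ => ?_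
      exact (Polynomial.natDegree_monomial_le _).trans (by have := e₀.2; omega)
    · intro n
      rw [hg]
      simp only
      rw [Polynomial.finsetSum_coeff]
      refine Submodule.sum_mem _ fun e₀ _ => ?_
      rw [Polynomial.coeff_monomial]
      split_ifs
      · refine Submodule.sum_mem _ fun e _ => ?_
        have h3 : u i j (Fin.cons e₀ e) * ∏ l, (algebraMap κ C (c l.succ)) ^ (e l : ℕ) =
            (∏ l, c l.succ ^ (e l : ℕ)) • u i j (Fin.cons e₀ e) := by
          rw [Algebra.smul_def, map_prod, mul_comm]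
          simp only [map_pow]
        rw [h3]
        exact Submodule.smul_mem _ _ (hu i j _)
      · exact Submodule.zero_mem _) (by
    rw [Polynomial.eval_finsetSum, ← h1]
    refine Finset.sum_congr rfl fun i _ => ?_
    rw [Polynomial.eval_prod]
    refine Finset.prod_congr rfl fun j _ => ?_
    rw [Polynomial.eval_pow, hgev]
    rfl)
  have h4 := congrArg (Polynomial.eval (algebraMap κ C (c 0))) h2
  rw [Polynomial.eval_zero, Polynomial.eval_finsetSum] at h4
  rw [← h4]
  refine Finset.sum_congr rfl fun i _ => ?_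
  rw [Polynomial.eval_prod]
  refine Finset.prod_congr rfl fun j _ => ?_
  rw [Polynomial.eval_pow, hgev]
  congr 2
  funext l
  refine Fin.cases ?_ (fun l => ?_) l
  · rfl
  · rfl

end Gen

/-- The one-variable theorem with its rate. -/
theorem rate_gen1 (M D k s : ℕ) : ∃ c : ℕ, ∀ x ≥ 16, ∀ W : Submodule QB ℂ, Module.Finite QB W →
    finrank QB W ≤ M → ∀ A : Finset ℕ, A ⊆ Ioc 0 x →
    (∀ a ∈ A, ¬ Gn1 W D k s (Real.log a : ℂ)) → (A.card : ℝ) ≤ er c x * x := by
  classical
  have hac : IsAlgClosure ℚ QB := algebraicClosure.isAlgClosure ℚ ℂ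
  have hacl : IsAlgClosed QB := IsAlgClosure.isAlgClosed ℚ
  obtain ⟨r, hr⟩ := cube_gen M D k s
  obtain ⟨c, hc⟩ := cubes_er r 0
  refine ⟨c, fun x hx W hWf hWM A hA hbad => ?_⟩
  by_contra hcon
  push Not at hcon
  obtain ⟨a, p, q, ha, hp, hq, hinj, hcube⟩ := hc x hx A hA hcon
  obtain ⟨S, hS⟩ := hr QB ℂ infTr_complex W hWf hWM (Real.log (a * ∏ i, p i : ℕ) : ℂ)
    (fun i => (Real.log (q i) : ℂ) - (Real.log (p i) : ℂ))
    (logLike_complex.indep r p q (fun i => (hp i).1) (fun i => (hq i).1) hinj)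
  apply hbad _ (hcube S)
  have h1 := logLike_complex.cube a p q ha (fun i => (hp i).1.pos) (fun i => (hq i).1.pos) S
  rw [h1]
  exact hS

/-- **The theorem for tuples.** -/
theorem rate_gen (D k s m : ℕ) : ∀ M : ℕ, ∃ c : ℕ, ∀ x : ℕ, x ≥ 16 →
    ∀ W : Submodule QB ℂ, Module.Finite QB W → finrank QB W ≤ M →
    ∀ B : Finset (Fin m → ℕ), B ⊆ (Fintype.piFinset fun _ : Fin m => Ioc 0 x) →
      (∀ n ∈ B, ¬ Gn W D k s (fun i => (Real.log (n i) : ℂ))) → (B.card : ℝ) ≤ er c x * x ^ m := by
  induction m with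
  | zero =>
    intro M
    refine ⟨0, fun x hx W hWf hWM B hB hbad => ?_⟩
    have hB0 : B = ∅ := by
      rw [Finset.eq_empty_iff_forall_notMem]
      intro a ha
      exact hbad a ha (gn_zero _ _ _ _ _)
    rw [hB0]
    simp [er_nonneg 0 hx]
  | succ m ih =>
    intro M
    obtain ⟨c₁, hc₁⟩ := rate_gen1 M D k s
    obtain ⟨c₂, hc₂⟩ := ih (M * (D + 1))
    classical
    refine ⟨2 * (c₁ + c₂ + 1), fun x hx W hWf hWM B hB hbad => ?_⟩
    refine count_cons m x _ (er_pos _ (by omega) hx)
      (fun n => ¬ Gn W D k s (fun i => (Real.log (n i) : ℂ)))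
      ((Ioc 0 x).filter (fun a : ℕ => ¬ Gn1 W D k s (Real.log a : ℂ)))
      (Finset.filter_subset _ _) ?_ ?_ B hB hbad
    · refine (hc₁ x hx W hWf hWM _ (Finset.filter_subset _ _)
        (fun a ha => (Finset.mem_filter.1 ha).2)).trans ?_
      have := er_half (c := c₁) (d := c₁ + c₂ + 1) (by omega) hx
      gcongr
    · intro a ha haA B' hB' hbad'
      have h₀ : Gn1 W D k s (Real.log a : ℂ) := by
        by_contra hcon
        exact haA (Finset.mem_filter.2 ⟨ha, hcon⟩)
      obtain ⟨hfin, hrk⟩ := famExt_finite W M hWM (pw D (Real.log a : ℂ))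
      rw [Fintype.card_fin] at hrk
      have h1 := hc₂ x hx _ hfin hrk B' hB' (by
        intro n hn hgood
        apply hbad' n hn
        have h2 := gn_cons h₀ hgood
        convert h2 using 1
        funext i
        refine Fin.cases ?_ (fun j => ?_) i
        · simp
        · simp)
      refine h1.trans ?_
      have := er_half (c := c₂) (d := c₁ + c₂ + 1) (by omega) hx
      gcongr

end Pool.Agent.R351
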