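import Mathlib
import Pool.Agent.R351.Tup

/-!
# All branches of the logarithms
-/

set_option autoImplicit false

namespace Pool.Agent.R351

open Module Finset
open Pool.Agent.H301R2.SSE (QB)
open Pool.Agent.W245 (famExt famExt_finite)
open Pool.Agent.TH681.QC (er)

section Shift

variable {κ C : Type} [Field κ] [Field C] [Algebra κ C]

theorem add_pow_fin (D n : ℕ) (hn : n ≤ D) (y r : C) :
    (y + r) ^ n = ∑ j : Fin (D + 1), ((n.choose j : ℕ) : C) * r ^ (n - (j : ℕ)) * y ^ (j : ℕ) := by
  rw [add_pow, Fin.sum_univ_eq_sum_range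
    (fun j => ((n.choose j : ℕ) : C) * r ^ (n - j) * y ^ j) (D + 1)]
  have h1 : Finset.range (n + 1) ⊆ Finset.range (D + 1) := by
    intro j hj
    rw [Finset.mem_range] at hj ⊢
    omega
  rw [Finset.sum_subset h1]
  · exact Finset.sum_congr rfl fun j _ => by ring
  · intro j _ hj
    rw [Finset.mem_range, not_lt] at hj
    rw [Nat.choose_eq_zero_of_lt (by omega), Nat.cast_zero, mul_zero]

/-- Shifts of polynomial functions. -/
theorem PF.shift {W : Submodule κ C} {D m : ℕ} {f : (Fin m → C) → C} (hf : PF W D f) (T : C)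
    (b : Fin m → κ) : PF (famExt W (pw (m * D) T)) D
      (fun y => f (fun i => y i + algebraMap κ C (b i) * T)) := by
  classical
  obtain ⟨c, hc, hc'⟩ := hf
  refine ⟨fun g => ∑ e : Fin m → Fin (D + 1), c e * ∏ i, (((e i : ℕ).choose (g i) : ℕ) : C) *
    (algebraMap κ C (b i) * T) ^ ((e i : ℕ) - (g i : ℕ)), ?_, ?_⟩
  · intro g
    refine Submodule.sum_mem _ fun e _ => ?_
    set d : ℕ := ∑ i, ((e i : ℕ) - (g i : ℕ)) with hd
    have hdle : d ≤ m * D := by
      refine (Finset.sum_le_card_nsmul _ _ D fun i _ => ?_).trans ?_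
      · have := (e i).2
        omega
      · simp
    have h1 : c e * ∏ i, (((e i : ℕ).choose (g i) : ℕ) : C) *
        (algebraMap κ C (b i) * T) ^ ((e i : ℕ) - (g i : ℕ)) =
        (∏ i, (((e i : ℕ).choose (g i) : ℕ) : κ) * b i ^ ((e i : ℕ) - (g i : ℕ))) •
          (c e * pw (m * D) T ⟨d, Nat.lt_succ_of_le hdle⟩) := by
      have h2 : ∏ i, (((e i : ℕ).choose (g i) : ℕ) : C) *
          (algebraMap κ C (b i) * T) ^ ((e i : ℕ) - (g i : ℕ)) =
          (∏ i, ((((e i : ℕ).choose (g i) : ℕ) : C) *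
            (algebraMap κ C (b i)) ^ ((e i : ℕ) - (g i : ℕ)))) *
              ∏ i, T ^ ((e i : ℕ) - (g i : ℕ)) := by
        rw [← Finset.prod_mul_distrib]
        exact Finset.prod_congr rfl fun i _ => by rw [mul_pow, mul_assoc]
      rw [h2, Finset.prod_pow_eq_pow_sum, Algebra.smul_def, map_prod]
      simp only [map_mul, map_pow, map_natCast]
      unfold pw
      ring
    rw [h1]
    exact Submodule.smul_mem _ _ (Submodule.mul_mem_mul (hc e) (Submodule.subset_span ⟨_, rfl⟩))
  · intro y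
    beta_reduce
    rw [hc']
    have h1 : ∀ e : Fin m → Fin (D + 1),
        ∏ i, (y i + algebraMap κ C (b i) * T) ^ (e i : ℕ) =
        ∑ g : Fin m → Fin (D + 1), ∏ i, ((((e i : ℕ).choose (g i) : ℕ) : C) *
          (algebraMap κ C (b i) * T) ^ ((e i : ℕ) - (g i : ℕ)) * y i ^ (g i : ℕ)) := by
      intro e
      rw [Finset.prod_congr rfl fun i _ =>
        add_pow_fin D (e i) (Nat.lt_succ_iff.1 (e i).2) (y i) (algebraMap κ C (b i) * T)]
      rw [Finset.prod_univ_sum, Fintype.piFinset_univ]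
    simp only [h1, Finset.mul_sum, Finset.sum_mul]
    rw [Finset.sum_comm]
    refine Finset.sum_congr rfl fun g _ => Finset.sum_congr rfl fun e _ => ?_
    rw [Finset.prod_mul_distrib, mul_assoc]

theorem PF.of_poly {W : Submodule κ C} {D m : ℕ} (f : MvPolynomial (Fin m) C)
    (hf : f.totalDegree ≤ D) (hW : ∀ e, f.coeff e ∈ W) :
    PF W D (fun y => MvPolynomial.eval y f) := by
  classical
  let φ : (Fin m → Fin (D + 1)) → (Fin m →₀ ℕ) := fun e =>
    Finsupp.equivFunOnFinite.symm (fun i => (e i : ℕ))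
  have hφ : Function.Injective φ := by
    intro e e' h
    funext i
    exact Fin.ext (DFunLike.congr_fun h i)
  refine ⟨fun e => f.coeff (φ e), fun e => hW _, fun y => ?_⟩
  beta_reduce
  rw [MvPolynomial.eval_eq']
  have h1 : f.support ⊆ univ.image φ := by
    intro d hd
    rw [Finset.mem_image]
    refine ⟨fun i => ⟨d i, Nat.lt_succ_of_le (coord_le hf hd i)⟩, Finset.mem_univ _, ?_⟩
    ext i
    rfl
  rw [Finset.sum_subset h1 (by
    intro d _ hd
    rw [MvPolynomial.notMem_support_iff.1 hd, zero_mul]),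
    Finset.sum_image (fun a _ b _ h => hφ h)]
  rfl

end Shift

/-- Generic tuples and polynomials. -/
theorem Gn.poly {W : Submodule QB ℂ} {D k s m : ℕ} {y : Fin m → ℂ} (b : Fin m → ℤ) (T : ℂ)
    (h : Gn (famExt W (pw (m * D) T)) D k s y)
    (f : Fin k → Fin s → MvPolynomial (Fin m) ℂ) (a : Fin k → Fin s → ℕ)
    (hf : ∀ i j, (f i j).totalDegree ≤ D ∧ ∀ e, (f i j).coeff e ∈ W)
    (h0 : MvPolynomial.eval (fun i => y i + (b i : ℂ) * T) (∑ i, ∏ j, f i j ^ a i j) = 0) :
    ∑ i, ∏ j, f i j ^ a i j = 0 := by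
  classical
  have hb : ∀ i, algebraMap QB ℂ ((b i : ℤ) : QB) = (b i : ℂ) := fun i => map_intCast _ _
  have h1 := h (fun i j y => MvPolynomial.eval (fun l => y l + (b l : ℂ) * T) (f i j)) a (by
    intro i j
    have h2 := (PF.of_poly (f i j) (hf i j).1 (hf i j).2).shift T (fun l => ((b l : ℤ) : QB))
    simpa only [hb] using h2) (by
    rw [← h0, map_sum]
    refine Finset.sum_congr rfl fun i _ => ?_
    rw [map_prod]
    exact Finset.prod_congr rfl fun j _ => by rw [map_pow])
  apply MvPolynomial.funext_set (fun l : Fin m => Set.range fun c : QB =>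
    algebraMap QB ℂ c + (b l : ℂ) * T)
  · intro l
    apply Set.infinite_range_of_injective
    intro c c' hcc
    have := add_right_cancel hcc
    exact (algebraMap QB ℂ).injective this
  · intro z hz
    have h3 : ∀ l, ∃ c : QB, algebraMap QB ℂ c + (b l : ℂ) * T = z l := fun l =>
      hz l (Set.mem_univ _)
    choose c hc using h3
    have h4 := h1 c
    rw [map_zero, ← h4, map_sum]
    refine Finset.sum_congr rfl fun i _ => ?_
    rw [map_prod]
    refine Finset.prod_congr rfl fun j _ => ?_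
    rw [map_pow]
    congr 3
    funext l
    exact (hc l).symm

end Pool.Agent.R351
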