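import Mathlib
import Pool.Agent.R351.Der
import Pool.Agent.R351.Elim2

/-!
# Cubes and computations with few additions
-/

set_option autoImplicit false

namespace Pool.Agent.R351

open Module Finset
open Pool.Agent.Y918.SC (Ex monE nGr nRk cubeE)
open Pool.Agent.W245 (IndepOver)

/-- `C` has infinite transcendence degree over `κ` -/
def InfTrd (κ C : Type*) [Field κ] [Field C] [Algebra κ C] : Prop :=
  ∀ (s : Set C), s.Finite → ¬ Algebra.IsAlgebraic (Algebra.adjoin κ s) C

/-- the size of a cube -/
noncomputable def csj (N K d : ℕ) : ℕ :=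
  nGr (Fin d) (Fin K) Empty N * (nRk (Fin d) (Fin K) Empty N + K + 1)

/-- **A cube of bounded dimension contains a point with independent jets.** -/
theorem cube_jet (M K N : ℕ) : ∃ R : ℕ, ∀ (κ C : Type) [Field κ] [IsAlgClosed κ] [CharZero κ]
    [Field C] [CharZero C] [Algebra κ C] (Δ : Derivation κ C C),
    (∀ z, Δ z = 0 → ∃ a : κ, algebraMap κ C a = z) → ∀ W : Submodule κ C, Module.Finite κ W →
    finrank κ W ≤ M → ∀ (y₀ : C) (w : Fin R → C), LinearIndependent κ w →
    ∃ S : Finset (Fin R), IndepOver W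
      (monE (D := N) (fun c : Fin K => dit Δ c (y₀ + ∑ i ∈ S, w i)) (fun l : Empty => l.elim)) := by
  classical
  obtain ⟨R, hR⟩ : ∃ R, R = ∑ d ∈ Finset.range (M + 1), csj N K d := ⟨_, rfl⟩
  refine ⟨R, fun κ C _ _ _ _ _ _ Δ hΔ W hWf hWM y₀ w hw => ?_⟩
  -- a basis of the coefficients
  let b := Module.finBasis κ W
  set d := finrank κ W with hd
  let t : Fin d → C := fun i => (b i : C)
  have ht : LinearIndependent κ t :=
    b.linearIndependent.map' W.subtype (Submodule.ker_subtype _)
  have hspan : Submodule.span κ (Set.range t) = W := by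
    have h1 : Set.range t = W.subtype '' Set.range b := by
      rw [← Set.range_comp]
      rfl
    rw [h1, Submodule.span_image, b.span_eq, Submodule.map_subtype_top]
  -- the blocks
  set nG := nGr (Fin d) (Fin K) Empty N with hnG
  set nI := nRk (Fin d) (Fin K) Empty N + K + 1 with hnI
  have hcs : nG * nI ≤ R := by
    rw [hR]
    refine Finset.single_le_sum (f := fun d => csj N K d) (fun _ _ => Nat.zero_le _)
      (Finset.mem_range.2 (Nat.lt_succ_of_le hWM))
  let e : Fin nG × Fin nI ↪ Fin R := finProdFinEquiv.toEmbedding.trans (Fin.castLEEmb hcs)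
  have hne : Nonempty (Fin nI) := ⟨⟨0, by omega⟩⟩
  obtain ⟨η, hη⟩ := cubeE κ C (Fin d) (Fin K) Empty N (Fin nI) t ht
    (fun c => dit Δ c y₀) (fun l => l.elim) (fun l => l.elim)
    (fun g i c => dit Δ c (w (e (g, i)))) (fun g i l => l.elim) (by
      intro g γ hγ
      have h1 := rank_operator Δ hΔ (fun i : Fin nI => w (e (g, i)))
        (hw.comp (fun i : Fin nI => e (g, i))
          (fun i i' h => (Prod.mk.inj (e.injective h)).2)) K γ hγ
      rw [Fintype.card_fin] at h1
      omega) (fun g i l => l.elim) (fun g i e e' hee => absurd (Subsingleton.elim e e') hee)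
  refine ⟨(univ.filter (fun p : Fin nG × Fin nI => η p.1 = some p.2)).map e, ?_⟩
  rw [hspan] at hη
  have hu : (fun c : Fin K => dit Δ c (y₀ + ∑ i ∈ (univ.filter
      (fun p : Fin nG × Fin nI => η p.1 = some p.2)).map e, w i)) =
      fun a : Fin K => dit Δ a y₀ + ∑ g, (η g).elim 0 (fun i => dit Δ a (w (e (g, i)))) := by
    funext c
    rw [dit_add, dit_sum, Finset.sum_map, Finset.sum_filter, Fintype.sum_prod_type]
    congr 1
    refine Finset.sum_congr rfl fun g _ => ?_
    cases hg : η g with
    | none => simp [hg]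
    | some i =>
      rw [Finset.sum_eq_single i]
      · simp [hg]
      · intro i' _ hi'
        rw [if_neg]
        simpa [hg] using Ne.symm hi'
      · intro h; exact absurd (Finset.mem_univ _) h
  have hv : (fun l : Empty => (l.elim : C)) =
      fun l : Empty => (l.elim : C) * ∏ g, (η g).elim 1 (fun i => (l.elim : C)) := by
    funext l
    exact l.elim
  rw [hu, hv]
  exact hη

/-! ### Computations -/

/-- The elements `G 0, …, G (L - 1)` are computed from the elements `β j` and the constants, each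
with one addition and arbitrarily many multiplications. -/
def Cmp (κ : Type*) {R ι : Type*} [Field κ] [CommRing R] [Algebra κ R] [Fintype ι] (β : ι → R)
    (L : ℕ) (G : ℕ → R) : Prop :=
  ∃ (c : ℕ → Bool → κ) (e : ℕ → Bool → ι → ℕ) (h : ℕ → Bool → ℕ → ℕ), ∀ l < L,
    G l = ∑ b, c l b • ((∏ j, β j ^ e l b j) * ∏ l' ∈ range l, G l' ^ h l b l')

section Cmp

variable {κ R R' ι ι' : Type*} [Field κ] [CommRing R] [Algebra κ R] [CommRing R'] [Algebra κ R']
  [Fintype ι] [Fintype ι'] {β : ι → R} {L : ℕ} {G : ℕ → R}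

theorem Cmp.map (h : Cmp κ β L G) (f : R →ₐ[κ] R') :
    Cmp κ (fun j => f (β j)) L (fun l => f (G l)) := by
  obtain ⟨c, e, u, h⟩ := h
  refine ⟨c, e, u, fun l hl => ?_⟩
  beta_reduce
  rw [h l hl, map_sum]
  refine Finset.sum_congr rfl fun b _ => ?_
  rw [map_smul, map_mul, map_prod, map_prod]
  simp only [map_pow]

theorem Cmp.subst (h : Cmp κ β L G) (β' : ι' → R) (a : ι → κ) (v : ι → ι' → ℕ)
    (hβ : ∀ j, β j = a j • ∏ j', β' j' ^ v j j') : Cmp κ β' L G := by
  obtain ⟨c, e, u, h⟩ := h
  refine ⟨fun l b => c l b * ∏ j, a j ^ e l b j, fun l b j' => ∑ j, v j j' * e l b j, u,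
    fun l hl => ?_⟩
  rw [h l hl]
  refine Finset.sum_congr rfl fun b _ => ?_
  have h1 : ∏ j, β j ^ e l b j = (∏ j, a j ^ e l b j) • ∏ j', β' j' ^ ∑ j, v j j' * e l b j := by
    have h2 : ∀ j, β j ^ e l b j = algebraMap κ R (a j ^ e l b j) *
        ∏ j', β' j' ^ (v j j' * e l b j) := by
      intro j
      rw [hβ j, Algebra.smul_def, mul_pow, ← map_pow, ← Finset.prod_pow]
      simp only [pow_mul]
    simp only [h2]
    rw [Finset.prod_mul_distrib, ← map_prod, Algebra.smul_def, Finset.prod_comm]
    congr 1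
    exact Finset.prod_congr rfl fun j' _ => Finset.prod_pow_eq_pow_sum _ _ _
  rw [h1, smul_mul_assoc, smul_smul]

end Cmp

section Good

variable {κ C : Type} [Field κ] [Field C] [Algebra κ C] {g : ℕ}

/-- the variable and the parameters -/
noncomputable def bt1 (t : Fin g → C) (o : Option (Fin g)) : Polynomial C :=
  o.elim Polynomial.X (fun o => Polynomial.C (t o))

/-- The number `y` is not a zero of a nonzero polynomial which is computed from `X`, the numbers
`t o` and constants with `L` additions. -/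
def Good1 (κ : Type) {C : Type} [Field κ] [Field C] [Algebra κ C] {g : ℕ} (t : Fin g → C) (L : ℕ)
    (y : C) : Prop :=
  ∀ G : ℕ → Polynomial C, Cmp κ (bt1 t) L G → ∀ l < L, (G l).eval y = 0 → G l = 0

open Classical in
/-- the parameters, zeros replaced by ones -/
noncomputable def th (t : Fin g → C) (o : Fin g) : C := if t o = 0 then 1 else t o

theorem th_ne (t : Fin g → C) (o : Fin g) : th t o ≠ 0 := by
  unfold th
  split_ifs with h
  · exact one_ne_zero
  · exact h

/-- **Normalisation.** -/
theorem normalise (t : Fin g → C) (y : C) (hy : y ≠ 0) (L : ℕ) (G : ℕ → Polynomial C)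
    (h : Cmp κ (bt1 t) (L + 1) G) (hne : ∀ l < L, (G l).eval y = 0 → G l = 0) (hG : G L ≠ 0) :
    ∃ π : PS κ C g L, π.t = th t ∧ π.y = y ∧ π.G (L + 1) = G L := by
  classical
  obtain ⟨c, e, u, h⟩ := h
  -- the modified elements
  set Gh : ℕ → Polynomial C := fun l => if G l = 0 then 1 else G l with hGh
  set ch : ℕ → Bool → κ := fun l b =>
    if (∃ o, t o = 0 ∧ e l b (some o) ≠ 0) ∨ (∃ l' < l, G l' = 0 ∧ u l b l' ≠ 0) then 0 else c l b
    with hch
  have hterm : ∀ l b, c l b • ((∏ j, bt1 t j ^ e l b j) * ∏ l' ∈ range l, G l' ^ u l b l') =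
      ch l b • ((∏ o, Polynomial.C (th t o) ^ e l b (some o)) *
        (Polynomial.X ^ e l b none * ∏ l' ∈ range l, Gh l' ^ u l b l')) := by
    intro l b
    rw [Fintype.prod_option]
    by_cases hz : (∃ o, t o = 0 ∧ e l b (some o) ≠ 0) ∨ (∃ l' < l, G l' = 0 ∧ u l b l' ≠ 0)
    · have h1 : ch l b = 0 := by
        rw [hch]
        exact if_pos hz
      rw [h1, zero_smul]
      rcases hz with ⟨o, ho, ho'⟩ | ⟨l', hl', h2, h3⟩
      · have h4 : ∏ o, bt1 t (some o) ^ e l b (some o) = 0 :=
          Finset.prod_eq_zero (Finset.mem_univ o) (by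
            unfold bt1
            rw [Option.elim_some, ho, map_zero, zero_pow ho'])
        rw [h4]
        simp
      · have h4 : ∏ l' ∈ range l, G l' ^ u l b l' = 0 :=
          Finset.prod_eq_zero (Finset.mem_range.2 hl') (by rw [h2, zero_pow h3])
        rw [h4]
        simp
    · have h1 : ch l b = c l b := by
        rw [hch]
        exact if_neg hz
      rw [h1]
      push Not at hz
      congr 1
      have h2 : ∀ o, bt1 t (some o) ^ e l b (some o) =
          Polynomial.C (th t o) ^ e l b (some o) := by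
        intro o
        by_cases ho : t o = 0
        · rw [hz.1 o ho, pow_zero, pow_zero]
        · unfold th bt1
          rw [if_neg ho]
          rfl
      have h3 : ∏ l' ∈ range l, G l' ^ u l b l' = ∏ l' ∈ range l, Gh l' ^ u l b l' := by
        refine Finset.prod_congr rfl fun l' hl' => ?_
        by_cases h0 : G l' = 0
        · rw [hz.2 l' (Finset.mem_range.1 hl') h0, pow_zero, pow_zero]
        · rw [hGh]
          beta_reduce
          rw [if_neg h0]
      simp only [h2, h3]
      have h4 : bt1 t none = Polynomial.X := rfl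
      rw [h4]
      ring
  refine ⟨⟨th t, th_ne t, y, fun l => Nat.casesOn l Polynomial.X Gh,
    fun l b => if G l = 0 then (if b then 1 else 0) else ch l b,
    fun l b o => if G l = 0 then 0 else e l b (some o),
    fun l b l' => if G l = 0 then 0 else Nat.casesOn l' (e l b none) (fun l'' => u l b l''),
    rfl, ?_, ?_⟩, rfl, rfl, ?_⟩
  · intro l hl
    show Gh l = _
    by_cases h0 : G l = 0
    · simp [h0, hGh]
    · simp only [if_neg h0]
      have h1 : Gh l = G l := by
        rw [hGh]
        exact if_neg h0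
      rw [h1, h l (by omega)]
      refine Finset.sum_congr rfl fun b _ => ?_
      rw [hterm, Finset.prod_range_succ']
      congr 2
      exact mul_comm _ _
  · intro l hl
    rcases l with _ | l
    · show (Polynomial.X : Polynomial C).eval y ≠ 0
      rw [Polynomial.eval_X]
      exact hy
    · show (Gh l).eval y ≠ 0
      rw [hGh]
      beta_reduce
      split_ifs with h0
      · simp
      · intro h1
        exact h0 (hne l (by omega) h1)
  · show Gh L = G L
    rw [hGh]
    exact if_neg hG

end Good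

theorem finrank_sup_le {κ C ι : Type*} [Field κ] [Field C] [Algebra κ C] (s : Finset ι)
    (V : ι → Submodule κ C) (hV : ∀ i, Module.Finite κ (V i)) :
    finrank κ (s.sup V : Submodule κ C) ≤ ∑ i ∈ s, finrank κ (V i) := by
  classical
  induction s using Finset.induction_on with
  | empty => rw [Finset.sup_empty, finrank_bot]; exact Nat.zero_le _
  | insert i s hi ih =>
    rw [Finset.sup_insert, Finset.sum_insert hi]
    exact (Submodule.finrank_add_le_finrank_add_finrank _ _).trans (Nat.add_le_add_left ih _)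

/-- **A cube of bounded dimension contains a good point.** -/
theorem cube_good (g L : ℕ) : ∃ R : ℕ, ∀ (κ C : Type) [Field κ] [IsAlgClosed κ] [CharZero κ]
    [Field C] [CharZero C] [Algebra κ C], InfTrd κ C → ∀ (t : Fin g → C) (y₀ : C) (w : Fin R → C),
    LinearIndependent κ w → ∃ S : Finset (Fin R), Good1 κ t L (y₀ + ∑ i ∈ S, w i) := by
  classical
  choose K₀ hK₀ using fun l : ℕ => slp_one g l
  set K : ℕ := ∑ l ∈ range L, K₀ l + 1 with hK
  have hKl : ∀ l < L, K₀ l ≤ K := fun l hl => by
    have := Finset.single_le_sum (f := K₀) (fun _ _ => Nat.zero_le _) (Finset.mem_range.2 hl)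
    omega
  choose N₀ hN₀ using fun l : ℕ => fun hl : l < L => hK₀ l K (hKl l hl)
  set N : ℕ := ∑ l : Fin L, N₀ l l.2 + 1 with hN
  have hNl : ∀ l (hl : l < L), N₀ l hl ≤ N := fun l hl => by
    have := Finset.single_le_sum (f := fun l : Fin L => N₀ l l.2) (fun _ _ => Nat.zero_le _)
      (Finset.mem_univ (⟨l, hl⟩ : Fin L))
    simp only at this
    omega
  choose K' N' hKN using fun l : ℕ => fun hl : l < L => hN₀ l hl N (hNl l hl)
  -- one space for every length
  obtain ⟨M, hM⟩ : ∃ M : ℕ, M = ∑ l : Fin L, (N' l l.2 + 1) ^ (g * K' l l.2) + 1 := ⟨_, rfl⟩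
  obtain ⟨R, hR⟩ := cube_jet M K N
  refine ⟨R, fun κ C _ _ _ _ _ _ hinf t y₀ w hw => ?_⟩
  obtain ⟨Δ, hΔ⟩ := exists_der_const (κ := κ) (C := C) hinf
  set W : Submodule κ C := ((univ : Finset (Fin L)).sup fun l =>
    Sθ κ (lt Δ (th t)) (K' l l.2) (N' l l.2)) ⊔ Submodule.span κ {1} with hW
  have hfin : ∀ l : Fin L, Module.Finite κ (Sθ κ (lt Δ (th t)) (K' l l.2) (N' l l.2)) :=
    fun l => (Sθ_finite _ _ _).1
  have hWfin : Module.Finite κ W := by infer_instance
  have hWrank : finrank κ W ≤ M := by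
    have h1 : finrank κ ((univ : Finset (Fin L)).sup (fun l =>
        Sθ κ (lt Δ (th t)) (K' l l.2) (N' l l.2)) : Submodule κ C) ≤
        ∑ l : Fin L, (N' l l.2 + 1) ^ (g * K' l l.2) := by
      refine (finrank_sup_le _ _ hfin).trans ?_
      exact Finset.sum_le_sum fun l _ => (Sθ_finite _ _ _).2
    have h2 : finrank κ (Submodule.span κ {(1 : C)}) ≤ 1 := by
      refine (finrank_span_le_card _).trans ?_
      simp
    rw [hW, hM]
    exact (Submodule.finrank_add_le_finrank_add_finrank _ _).trans (Nat.add_le_add h1 h2)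
  obtain ⟨S, hS⟩ := hR κ C Δ hΔ W hWfin hWrank y₀ w hw
  refine ⟨S, ?_⟩
  set y := y₀ + ∑ i ∈ S, w i with hy
  -- `y` is not zero
  have hy0 : y ≠ 0 := by
    intro h0
    have hN1 : 1 < N + 1 := by omega
    have hK1 : 0 < K := by omega
    let e₁ : Ex (Fin K) Empty N := Sum.elim (fun i => if (i : ℕ) = 0 then ⟨1, hN1⟩ else 0)
      (fun l => l.elim)
    have h1 := hS (fun e => if e = e₁ then 1 else 0) (by
      intro e
      split_ifs
      · exact Submodule.mem_sup_right (Submodule.mem_span_singleton_self _)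
      · exact Submodule.zero_mem _) (by
      rw [Finset.sum_eq_single e₁]
      · rw [if_pos rfl, one_mul]
        unfold monE
        have h2 : ∏ a : Fin K, dit Δ a y ^ (e₁ (Sum.inl a) : ℕ) = 0 := by
          refine Finset.prod_eq_zero (Finset.mem_univ ⟨0, hK1⟩) ?_
          simp [e₁, h0, dit_zero]
        rw [h2, zero_mul]
      · intro e _ he
        rw [if_neg he, zero_mul]
      · intro h; exact absurd (Finset.mem_univ _) h) e₁
    rw [if_pos rfl] at h1
    exact one_ne_zero h1
  intro G hG l hl hGl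
  by_contra hGl0
  -- the first bad index
  have hex : ∃ l, l < L ∧ (G l).eval y = 0 ∧ G l ≠ 0 := ⟨l, hl, hGl, hGl0⟩
  set l₀ := Nat.find hex with hl₀
  obtain ⟨h1, h2, h3⟩ := Nat.find_spec hex
  have hmin : ∀ l' < l₀, (G l').eval y = 0 → G l' = 0 := by
    intro l' hl' h4
    by_contra h5
    exact Nat.find_min hex hl' ⟨by omega, h4, h5⟩
  have hcmp : Cmp κ (bt1 t) (l₀ + 1) G := by
    obtain ⟨c, e, u, h⟩ := hG
    exact ⟨c, e, u, fun l' hl' => h l' (by omega)⟩
  obtain ⟨π, hπt, hπy, hπG⟩ := normalise t y hy0 l₀ G hcmp hmin h3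
  refine hKN l₀ h1 κ C Δ π (by rw [hπG]; exact h3) (by rw [hπG, hπy]; exact h2) ?_
  rw [hπt, hπy]
  intro c hc hc0 e
  refine hS c (fun e => ?_) hc0 e
  exact Submodule.mem_sup_left (Finset.le_sup (f := fun l : Fin L =>
    Sθ κ (lt Δ (th t)) (K' l l.2) (N' l l.2)) (Finset.mem_univ (⟨l₀, h1⟩ : Fin L)) (hc e))

end Pool.Agent.R351
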