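import Mathlib
import Pool.Agent.R351.SlpCube

/-!
# Tuples and computations with few additions
-/

set_option autoImplicit false

namespace Pool.Agent.R351

open Module Finset MvPolynomial

section Tuple

variable {κ C : Type} [Field κ] [Field C] [Algebra κ C] {g m L : ℕ}

/-- the parameters and the variables -/
noncomputable def btm (m : ℕ) (t : Fin g → C) (o : Fin g ⊕ Fin m) : MvPolynomial (Fin m) C :=
  Sum.elim (fun o => MvPolynomial.C (t o)) (fun i => X i) o

/-- The tuple `y` is not a zero of a nonzero polynomial which is computed from the variables, the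
numbers `t o` and constants with `L` additions. -/
def GoodT (κ : Type) {C : Type} [Field κ] [Field C] [Algebra κ C] {g m : ℕ} (t : Fin g → C) (L : ℕ)
    (y : Fin m → C) : Prop :=
  ∀ G : ℕ → MvPolynomial (Fin m) C, Cmp κ (btm m t) L G → ∀ l < L, eval y (G l) = 0 → G l = 0

theorem goodT_zero (t : Fin g → C) (y : Fin 0 → C) : GoodT κ t L y := by
  intro G _ l _ h
  rw [MvPolynomial.eq_C_of_isEmpty (G l)] at h ⊢
  rw [eval_C] at h
  rw [h, map_zero]

/-- substitution of the first variable -/
noncomputable def sub0 (y₀ : C) : MvPolynomial (Fin (m + 1)) C →ₐ[C] MvPolynomial (Fin m) C :=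
  aeval (Fin.cons (MvPolynomial.C y₀) (fun i => X i) : Fin (m + 1) → MvPolynomial (Fin m) C)

/-- substitution of the last variables -/
noncomputable def subr (c : Fin m → C) : MvPolynomial (Fin (m + 1)) C →ₐ[C] Polynomial C :=
  aeval (Fin.cons Polynomial.X (fun i => Polynomial.C (c i)) : Fin (m + 1) → Polynomial C)

theorem eval_sub0 (y₀ : C) (y : Fin m → C) (p : MvPolynomial (Fin (m + 1)) C) :
    eval y (sub0 y₀ p) = eval (Fin.cons y₀ y : Fin (m + 1) → C) p := by
  have h : ((aeval y : MvPolynomial (Fin m) C →ₐ[C] C)).comp (sub0 y₀) =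
      (aeval (Fin.cons y₀ y : Fin (m + 1) → C) : MvPolynomial (Fin (m + 1)) C →ₐ[C] C) := by
    apply MvPolynomial.algHom_ext
    intro i
    rw [AlgHom.comp_apply, sub0, aeval_X, aeval_X]
    refine Fin.cases ?_ (fun i => ?_) i
    · simp
    · simp
  exact DFunLike.congr_fun h p

theorem eval_subr (y₀ : C) (c : Fin m → C) (p : MvPolynomial (Fin (m + 1)) C) :
    (subr c p).eval y₀ = eval (Fin.cons y₀ c : Fin (m + 1) → C) p := by
  have h : ((Polynomial.aeval y₀ : Polynomial C →ₐ[C] C)).comp (subr c) =
      (aeval (Fin.cons y₀ c : Fin (m + 1) → C) : MvPolynomial (Fin (m + 1)) C →ₐ[C] C) := by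
    apply MvPolynomial.algHom_ext
    intro i
    rw [AlgHom.comp_apply, subr, aeval_X, aeval_X]
    refine Fin.cases ?_ (fun i => ?_) i
    · simp
    · simp
  exact DFunLike.congr_fun h p

theorem Cmp.sub0 {t : Fin g → C} {G : ℕ → MvPolynomial (Fin (m + 1)) C} (h : Cmp κ (btm (m + 1) t) L G)
    (y₀ : C) : Cmp κ (btm m (Fin.cons y₀ t : Fin (g + 1) → C)) L (fun l => sub0 y₀ (G l)) := by
  classical
  refine (h.map ((Pool.Agent.R351.sub0 y₀).restrictScalars κ)).subst _ (fun _ => 1)
    (fun j j' => if j' = (Sum.elim (fun o => Sum.inl o.succ) (fun i =>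
      (Fin.cons (Sum.inl 0) (fun i => Sum.inr i) : Fin (m + 1) → Fin (g + 1) ⊕ Fin m) i) j) then 1
      else 0) ?_
  intro j
  rw [one_smul]
  simp only [pow_ite, pow_one, pow_zero, Finset.prod_ite_eq', Finset.mem_univ, if_true]
  rcases j with o | i
  · show Pool.Agent.R351.sub0 y₀ (MvPolynomial.C (t o)) = _
    unfold Pool.Agent.R351.sub0 btm
    simp
  · show Pool.Agent.R351.sub0 y₀ (X i) = _
    unfold Pool.Agent.R351.sub0 btm
    refine Fin.cases ?_ (fun i => ?_) i
    · simp
    · simp

theorem Cmp.subr {t : Fin g → C} {G : ℕ → MvPolynomial (Fin (m + 1)) C} (h : Cmp κ (btm (m + 1) t) L G)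
    (c : Fin m → κ) : Cmp κ (bt1 t) L (fun l => subr (fun i => algebraMap κ C (c i)) (G l)) := by
  classical
  refine (h.map ((Pool.Agent.R351.subr (fun i => algebraMap κ C (c i))).restrictScalars κ)).subst _
    (Sum.elim (fun _ => 1) (Fin.cons 1 c : Fin (m + 1) → κ))
    (fun j j' => Sum.elim (fun o => if j' = some o then 1 else 0)
      (fun i => if i = 0 ∧ j' = none then 1 else 0) j) ?_
  rintro (o | i)
  · show Pool.Agent.R351.subr (fun i => algebraMap κ C (c i)) (MvPolynomial.C (t o)) = _
    simp only [Sum.elim_inl, one_smul, pow_ite, pow_one, pow_zero, Finset.prod_ite_eq',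
      Finset.mem_univ, if_true]
    unfold Pool.Agent.R351.subr bt1
    simp
  · show Pool.Agent.R351.subr (fun i => algebraMap κ C (c i)) (X i) = _
    simp only [Sum.elim_inr]
    unfold Pool.Agent.R351.subr bt1
    refine Fin.cases ?_ (fun i => ?_) i
    · simp only [Fin.cons_zero, aeval_X, one_smul, true_and, pow_ite, pow_one, pow_zero,
        Finset.prod_ite_eq', Finset.mem_univ, if_true]
      rfl
    · have h0 : ∀ j' : Option (Fin g), ¬ (i.succ = 0 ∧ j' = none) := fun j' h => Fin.succ_ne_zero _ h.1
      simp only [if_neg (h0 _), pow_zero, Finset.prod_const_one, aeval_X, Fin.cons_succ]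
      rw [Algebra.smul_def, mul_one, IsScalarTower.algebraMap_apply κ C (Polynomial C)]
      rfl

/-- **Induction on the number of variables.** -/
theorem goodT_cons [Infinite κ] {t : Fin g → C} {y₀ : C} {y : Fin m → C} (h₀ : Good1 κ t L y₀)
    (h : GoodT κ (Fin.cons y₀ t : Fin (g + 1) → C) L y) :
    GoodT κ t L (Fin.cons y₀ y : Fin (m + 1) → C) := by
  intro G hG l hl h0
  have h1 : sub0 y₀ (G l) = 0 := h _ (hG.sub0 y₀) l hl (by rw [eval_sub0]; exact h0)
  have h2 : ∀ c : Fin m → κ, subr (fun i => algebraMap κ C (c i)) (G l) = 0 := by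
    intro c
    refine h₀ _ (hG.subr c) l hl ?_
    rw [eval_subr, ← eval_sub0, h1, map_zero]
  apply MvPolynomial.funext_set (fun _ : Fin (m + 1) => Set.range (algebraMap κ C))
  · intro i
    exact Set.infinite_range_of_injective (algebraMap κ C).injective
  · intro z hz
    have h3 : ∀ i, ∃ a : κ, algebraMap κ C a = z i := fun i => hz i (Set.mem_univ _)
    choose a ha using h3
    have h4 : z = (Fin.cons (z 0) (fun i => algebraMap κ C (a i.succ)) : Fin (m + 1) → C) := by
      funext i
      refine Fin.cases ?_ (fun i => ?_) i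
      · simp
      · simp [ha]
    rw [map_zero, h4, ← eval_subr, h2, Polynomial.eval_zero]

/-- Shifts. -/
theorem GoodT.shift {t : Fin g → C} {y : Fin m → C} (T : C) (b : Fin m → κ)
    (h : GoodT κ (Fin.cons T t : Fin (g + 1) → C) (m + L) y) :
    GoodT κ t L (fun i => y i + algebraMap κ C (b i) * T) := by
  classical
  intro G hG l hl h0
  obtain ⟨c, e, u, hG'⟩ := hG
  -- the substitution
  let σ : MvPolynomial (Fin m) C →ₐ[C] MvPolynomial (Fin m) C :=
    aeval (fun i => X i + MvPolynomial.C (algebraMap κ C (b i) * T))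
  have hσinj : Function.Injective σ := by
    let σ' : MvPolynomial (Fin m) C →ₐ[C] MvPolynomial (Fin m) C :=
      aeval (fun i => X i - MvPolynomial.C (algebraMap κ C (b i) * T))
    have h1 : σ'.comp σ = AlgHom.id C _ := by
      apply MvPolynomial.algHom_ext
      intro i
      simp [σ, σ']
    exact Function.LeftInverse.injective (g := σ') (fun p => DFunLike.congr_fun h1 p)
  -- the new computation
  let F : ℕ → MvPolynomial (Fin m) C := fun l =>
    if hl : l < m then X ⟨l, hl⟩ + MvPolynomial.C (algebraMap κ C (b ⟨l, hl⟩) * T) else σ (G (l - m))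
  let c' : ℕ → Bool → κ := fun l s => if hl : l < m then (if s then 1 else b ⟨l, hl⟩) else c (l - m) s
  let e' : ℕ → Bool → Fin (g + 1) ⊕ Fin m → ℕ := fun l s j =>
    if l < m then (if s then Sum.elim (fun _ : Fin (g + 1) => 0)
        (fun i : Fin m => if (i : ℕ) = l then 1 else 0) j
      else Sum.elim (fun o : Fin (g + 1) => if o = 0 then 1 else 0) (fun _ : Fin m => 0) j)
    else Sum.elim (fun o : Fin (g + 1) =>
      (Fin.cons 0 (fun o => e (l - m) s (Sum.inl o)) : Fin (g + 1) → ℕ) o)
      (fun _ : Fin m => 0) j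
  let u' : ℕ → Bool → ℕ → ℕ := fun l s l' =>
    if l < m then 0 else (if hl' : l' < m then e (l - m) s (Sum.inr ⟨l', hl'⟩) else u (l - m) s (l' - m))
  have hF : Cmp κ (btm m (Fin.cons T t : Fin (g + 1) → C)) (m + L) F := by
    refine ⟨c', e', u', fun l hl => ?_⟩
    by_cases hlm : l < m
    · have e1 : F l = X ⟨l, hlm⟩ + MvPolynomial.C (algebraMap κ C (b ⟨l, hlm⟩) * T) := dif_pos hlm
      rw [e1, Fintype.sum_bool]
      have e2 : ∀ s, ∏ l' ∈ range l, F l' ^ u' l s l' = 1 := fun s =>
        Finset.prod_eq_one fun l' _ => by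
          simp only [u']
          rw [if_pos hlm, pow_zero]
      rw [e2, e2, mul_one, mul_one]
      simp only [c', e', dif_pos hlm, if_pos hlm, if_true, Bool.false_eq_true, if_false, one_smul]
      congr 1
      · rw [Fintype.prod_sum_type]
        simp only [Sum.elim_inl, Sum.elim_inr, pow_zero, Finset.prod_const_one, one_mul]
        rw [Finset.prod_eq_single (⟨l, hlm⟩ : Fin m)]
        · simp [btm]
        · intro i _ hi
          rw [if_neg (fun h => hi (Fin.ext h)), pow_zero]
        · intro h; exact absurd (Finset.mem_univ _) h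
      · rw [Fintype.prod_sum_type]
        simp only [Sum.elim_inl, Sum.elim_inr, pow_zero, Finset.prod_const_one, mul_one]
        rw [Finset.prod_eq_single (0 : Fin (g + 1))]
        · simp only [btm, Sum.elim_inl, Fin.cons_zero, if_true, pow_one]
          rw [map_mul, Algebra.smul_def, IsScalarTower.algebraMap_apply κ C (MvPolynomial (Fin m) C)]
          rfl
        · intro i _ hi
          rw [if_neg hi, pow_zero]
        · intro h; exact absurd (Finset.mem_univ _) h
    · have e1 : F l = σ (G (l - m)) := dif_neg hlm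
      rw [e1, hG' (l - m) (by omega), map_sum]
      refine Finset.sum_congr rfl fun s _ => ?_
      have e0 : ∀ (a : κ) (p : MvPolynomial (Fin m) C), σ (a • p) = a • σ p := fun a p =>
        map_smul (σ.restrictScalars κ) a p
      rw [e0, map_mul, map_prod, map_prod]
      have e3 : c' l s = c (l - m) s := dif_neg hlm
      rw [e3]
      congr 1
      -- the product over the earlier values
      have e4 : ∏ l' ∈ range l, F l' ^ u' l s l' =
          (∏ i : Fin m, (X i + MvPolynomial.C (algebraMap κ C (b i) * T)) ^ e (l - m) s (Sum.inr i)) *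
            ∏ l' ∈ range (l - m), σ (G l') ^ u (l - m) s l' := by
        obtain ⟨k, rfl⟩ : ∃ k, l = m + k := ⟨l - m, by omega⟩
        rw [Nat.add_sub_cancel_left, Finset.prod_range_add]
        congr 1
        · rw [Finset.prod_range]
          refine Finset.prod_congr rfl fun i _ => ?_
          simp only [F, u', if_neg hlm, dif_pos i.2, Nat.add_sub_cancel_left]
        · refine Finset.prod_congr rfl fun l' _ => ?_
          have h5 : ¬ m + l' < m := by omega
          simp only [F, u', if_neg hlm, dif_neg h5, Nat.add_sub_cancel_left]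
      rw [e4, ← mul_assoc]
      simp only [map_pow]
      congr 1
      rw [Fintype.prod_sum_type, Fintype.prod_sum_type]
      have e5 : ∏ j : Fin m, btm m (Fin.cons T t : Fin (g + 1) → C) (Sum.inr j) ^ e' l s (Sum.inr j) = 1 :=
        Finset.prod_eq_one fun i _ => by
          simp only [e', if_neg hlm, Sum.elim_inr, pow_zero]
      rw [e5, mul_one]
      congr 1
      · rw [Fin.prod_univ_succ]
        simp only [e', if_neg hlm, Sum.elim_inl, Fin.cons_zero, pow_zero, one_mul, Fin.cons_succ]
        refine Finset.prod_congr rfl fun o _ => ?_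
        simp [btm, σ]
      · refine Finset.prod_congr rfl fun i _ => ?_
        simp [btm, σ]
  have h1 := h F hF (m + l) (by omega) (by
    have h5 : ¬ m + l < m := by omega
    have e1 : F (m + l) = σ (G l) := by
      simp only [F, dif_neg h5, Nat.add_sub_cancel_left]
    rw [e1, ← h0]
    have h6 : ((aeval y : MvPolynomial (Fin m) C →ₐ[C] C)).comp σ =
        (aeval (fun i => y i + algebraMap κ C (b i) * T) : MvPolynomial (Fin m) C →ₐ[C] C) := by
      apply MvPolynomial.algHom_ext
      intro i
      simp [σ]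
    exact DFunLike.congr_fun h6 (G l))
  have h5 : ¬ m + l < m := by omega
  have e1 : F (m + l) = σ (G l) := by
    simp only [F, dif_neg h5, Nat.add_sub_cancel_left]
  rw [e1] at h1
  exact hσinj (h1.trans (map_zero σ).symm)

end Tuple

end Pool.Agent.R351
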