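import Mathlib
import Pool.Agent.R351.SlpTup
import Pool.Agent.TH681.QC.Rate
import Pool.Agent.W245.PB.CLog
import Pool.Agent.H301R2.SSE.Forms

/-!
# Density: computations with few additions at the logarithms of almost all tuples of integers
-/

set_option autoImplicit false

namespace Pool.Agent.R351

open Module Finset
open Pool.Agent.H301R2.SSE (QB)
open Pool.Agent.W245.PB (LogLike count_cons logLike_complex)
open Pool.Agent.TH681.QC (er er_pos er_half er_nonneg cubes_er HasCube)

/-- `ℂ` has infinite transcendence degree over the algebraic numbers. -/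
theorem infTrd_complex : InfTrd QB ℂ := by
  intro s hs halg
  have hc : (Set.univ : Set ℂ).Countable := by
    have h1 : Countable QB := by
      have hac : IsAlgClosure ℚ QB := algebraicClosure.isAlgClosure ℚ ℂ
      have h2 : Algebra.IsAlgebraic ℚ QB := hac.isAlgebraic
      have h3 : Cardinal.mk QB ≤ max (Cardinal.mk ℚ) Cardinal.aleph0 :=
        Algebra.IsAlgebraic.cardinalMk_le_max ℚ QB
      rw [← Cardinal.mk_le_aleph0_iff]
      refine h3.trans (max_le ?_ le_rfl)
      exact Cardinal.mk_le_aleph0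
    have h4 : Countable (Algebra.adjoin QB s) := by
      have h5 : Countable s := hs.countable.to_subtype
      have h6 : Cardinal.mk (Algebra.adjoin QB s) ≤
          max (max (Cardinal.mk QB) (Cardinal.mk s)) Cardinal.aleph0 := by
        have h7 : Function.Surjective (MvPolynomial.aeval (R := QB) (fun x : s => (x : ℂ))).rangeRestrict :=
          AlgHom.rangeRestrict_surjective _
        have h8 := Cardinal.mk_le_of_surjective h7
        have h9 : Algebra.adjoin QB s = (MvPolynomial.aeval (R := QB) (fun x : s => (x : ℂ))).range := by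
          rw [← Algebra.adjoin_range_eq_range_aeval, Subtype.range_coe]
        rw [h9]
        exact h8.trans MvPolynomial.cardinalMk_le_max
      rw [← Cardinal.mk_le_aleph0_iff]
      refine h6.trans (max_le (max_le ?_ ?_) le_rfl)
      · exact Cardinal.mk_le_aleph0
      · exact Cardinal.mk_le_aleph0
    have h10 : Cardinal.mk ℂ ≤ max (Cardinal.mk (Algebra.adjoin QB s)) Cardinal.aleph0 :=
      Algebra.IsAlgebraic.cardinalMk_le_max (Algebra.adjoin QB s) ℂ
    rw [Set.countable_univ_iff, ← Cardinal.mk_le_aleph0_iff]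
    refine h10.trans (max_le ?_ le_rfl)
    exact Cardinal.mk_le_aleph0
  exact not_countable_complex hc

/-- The one-variable theorem with its rate. -/
theorem rate_slp1 (g L : ℕ) : ∃ c : ℕ, ∀ x ≥ 16, ∀ (t : Fin g → ℂ) (A : Finset ℕ), A ⊆ Ioc 0 x →
    (∀ a ∈ A, ¬ Good1 QB t L (Real.log a : ℂ)) → (A.card : ℝ) ≤ er c x * x := by
  classical
  have hac : IsAlgClosure ℚ QB := algebraicClosure.isAlgClosure ℚ ℂ
  have hacl : IsAlgClosed QB := IsAlgClosure.isAlgClosed ℚ
  obtain ⟨r, hr⟩ := cube_good g L
  obtain ⟨c, hc⟩ := cubes_er r 0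
  refine ⟨c, fun x hx t A hA hbad => ?_⟩
  by_contra hcon
  push Not at hcon
  obtain ⟨a, p, q, ha, hp, hq, hinj, hcube⟩ := hc x hx A hA hcon
  obtain ⟨S, hS⟩ := hr QB ℂ infTrd_complex t (Real.log (a * ∏ i, p i : ℕ) : ℂ)
    (fun i => (Real.log (q i) : ℂ) - (Real.log (p i) : ℂ))
    (logLike_complex.indep r p q (fun i => (hp i).1) (fun i => (hq i).1) hinj)
  apply hbad _ (hcube S)
  have h1 := logLike_complex.cube a p q ha (fun i => (hp i).1.pos) (fun i => (hq i).1.pos) S
  rw [h1]
  exact hS

/-- **The theorem for tuples.** -/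
theorem rate_slp (L m : ℕ) : ∀ g : ℕ, ∃ c : ℕ, ∀ x : ℕ, x ≥ 16 → ∀ t : Fin g → ℂ,
    ∀ B : Finset (Fin m → ℕ), B ⊆ (Fintype.piFinset fun _ : Fin m => Ioc 0 x) →
      (∀ n ∈ B, ¬ GoodT QB t L (fun i => (Real.log (n i) : ℂ))) →
      (B.card : ℝ) ≤ er c x * x ^ m := by
  have hinf : Infinite QB := by
    have hac : IsAlgClosure ℚ QB := algebraicClosure.isAlgClosure ℚ ℂ
    have hacl : IsAlgClosed QB := IsAlgClosure.isAlgClosed ℚ
    exact IsAlgClosed.instInfinite
  induction m with
  | zero =>
    intro g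
    refine ⟨0, fun x hx t B hB hbad => ?_⟩
    have hB0 : B = ∅ := by
      rw [Finset.eq_empty_iff_forall_notMem]
      intro a ha
      exact hbad a ha (goodT_zero _ _)
    rw [hB0]
    simp [er_nonneg 0 hx]
  | succ m ih =>
    intro g
    obtain ⟨c₁, hc₁⟩ := rate_slp1 g L
    obtain ⟨c₂, hc₂⟩ := ih (g + 1)
    classical
    refine ⟨2 * (c₁ + c₂ + 1), fun x hx t B hB hbad => ?_⟩
    refine count_cons m x _ (er_pos _ (by omega) hx)
      (fun n => ¬ GoodT QB t L (fun i => (Real.log (n i) : ℂ)))
      ((Ioc 0 x).filter (fun a : ℕ => ¬ Good1 QB t L (Real.log a : ℂ)))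
      (Finset.filter_subset _ _) ?_ ?_ B hB hbad
    · refine (hc₁ x hx t _ (Finset.filter_subset _ _)
        (fun a ha => (Finset.mem_filter.1 ha).2)).trans ?_
      have := er_half (c := c₁) (d := c₁ + c₂ + 1) (by omega) hx
      gcongr
    · intro a ha haA B' hB' hbad'
      have h₀ : Good1 QB t L (Real.log a : ℂ) := by
        by_contra hcon
        exact haA (Finset.mem_filter.2 ⟨ha, hcon⟩)
      have h1 := hc₂ x hx (Fin.cons (Real.log a : ℂ) t : Fin (g + 1) → ℂ) B' hB' (by
        intro n hn hgood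
        apply hbad' n hn
        have h2 := goodT_cons h₀ hgood
        have h3 : (fun i => (Real.log ((Fin.cons a n : Fin (m + 1) → ℕ) i) : ℂ)) =
            (Fin.cons (Real.log a : ℂ) (fun i => (Real.log (n i) : ℂ)) : Fin (m + 1) → ℂ) := by
          funext i
          refine Fin.cases ?_ (fun j => ?_) i
          · simp
          · simp
        rw [h3]
        exact h2)
      refine h1.trans ?_
      have := er_half (c := c₂) (d := c₁ + c₂ + 1) (by omega) hx
      gcongr

end Pool.Agent.R351
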