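import Mathlib
import Pool.Agent.R351.SlpRate
import Pool.Agent.H351R3.Sums.Count

/-!
# Computations with few additions at sums of logarithms
-/

set_option autoImplicit false

namespace Pool.Agent.R351

open Module Finset
open Pool.Agent.H301R2.SSE (QB)
open Pool.Agent.H351R3.Sums (sav sav_nonneg card_le_of_no_box)

/-- The differences of the entries of the rows are linearly independent. -/
def DiffIndep {R N : ℕ} (lam : Fin R → Fin N → ℂ) : Prop :=
  ∀ p q : Fin R → Fin N, (∀ j, p j ≠ q j) →
    LinearIndependent QB (fun j => lam j (q j) - lam j (p j))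

/-- One sum. -/
theorem sums_one (g L : ℕ) : ∃ R₀ : ℕ, 1 ≤ R₀ ∧ ∀ R ≥ R₀, ∀ (N : ℕ) (t : Fin g → ℂ)
    (lam : Fin R → Fin N → ℂ), DiffIndep lam →
    ∀ B : Finset (Fin R → Fin N), (∀ f ∈ B, ¬ Good1 QB t L (∑ j, lam j (f j))) →
    (B.card : ℝ) ≤ 2 * (N : ℝ) ^ R * sav R N := by
  classical
  have hac : IsAlgClosure ℚ QB := algebraicClosure.isAlgClosure ℚ ℂ
  have hacl : IsAlgClosed QB := IsAlgClosure.isAlgClosed ℚ
  obtain ⟨r, hr⟩ := cube_good g L
  refine ⟨r + 1, by omega, fun R hR N t lam hlam B hbad => ?_⟩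
  apply card_le_of_no_box (by omega)
  rintro ⟨p, q, hpq, hcube⟩
  have hrR : r ≤ R := by omega
  obtain ⟨S, hS⟩ := hr QB ℂ infTrd_complex t (∑ j, lam j (p j))
    ((fun j => lam j (q j) - lam j (p j)) ∘ Fin.castLE hrR)
    ((hlam p q hpq).comp _ (Fin.castLE_injective hrR))
  set S' : Finset (Fin R) := S.map (Fin.castLEEmb hrR) with hS'
  apply hbad _ (hcube S')
  have e1 : (∑ j, lam j (if j ∈ S' then q j else p j)) =
      ∑ j, lam j (p j) + ∑ i ∈ S, ((fun j => lam j (q j) - lam j (p j)) ∘ Fin.castLE hrR) i := by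
    have e2 : ∀ j, lam j (if j ∈ S' then q j else p j) = lam j (p j) +
        (if j ∈ S' then lam j (q j) - lam j (p j) else 0) := by
      intro j
      by_cases h : j ∈ S'
      · rw [if_pos h, if_pos h]; ring
      · rw [if_neg h, if_neg h, add_zero]
    simp only [e2]
    rw [Finset.sum_add_distrib, Finset.sum_ite_mem, Finset.univ_inter, hS', Finset.sum_map]
    rfl
  rw [e1]
  exact hS

open Classical in
/-- Several sums. -/
theorem sums_tuples (k L : ℕ) : ∀ g : ℕ, ∃ R₀ : ℕ, 1 ≤ R₀ ∧
    ∀ R ≥ R₀, ∀ (N : ℕ) (t : Fin g → ℂ) (lam : Fin k → Fin R → Fin N → ℂ),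
    (∀ a, DiffIndep (lam a)) →
    (((Finset.univ : Finset (Fin k → Fin R → Fin N)).filter (fun f =>
      ¬ GoodT QB t L (fun a => ∑ j, lam a j (f a j)))).card : ℝ) ≤
      k * (2 * (N : ℝ) ^ (k * R) * sav R N) := by
  have hinf : Infinite QB := by
    have hac : IsAlgClosure ℚ QB := algebraicClosure.isAlgClosure ℚ ℂ
    have hacl : IsAlgClosed QB := IsAlgClosure.isAlgClosed ℚ
    exact IsAlgClosed.instInfinite
  induction k with
  | zero =>
    intro g
    refine ⟨1, le_rfl, fun R _ N t lam _ => ?_⟩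
    rw [Finset.filter_false_of_mem]
    · simp
    · intro n _
      push Not
      exact goodT_zero _ _
  | succ k ih =>
    intro g
    obtain ⟨R₁, hR₁1, hR₁⟩ := sums_one g L
    obtain ⟨R₂, hR₂1, hR₂⟩ := ih (g + 1)
    refine ⟨max R₁ R₂, le_trans hR₁1 (le_max_left _ _), fun R hR N t lam hlam => ?_⟩
    set bad : (Fin (k + 1) → Fin R → Fin N) → Prop := fun f =>
      ¬ GoodT QB t L (fun a => ∑ j, lam a j (f a j)) with hbad
    set B := (Finset.univ : Finset (Fin (k + 1) → Fin R → Fin N)).filter bad with hB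
    set A := (Finset.univ : Finset (Fin R → Fin N)).filter (fun g =>
      ¬ Good1 QB t L (∑ j, lam 0 j (g j))) with hA
    have hAcard : (A.card : ℝ) ≤ 2 * (N : ℝ) ^ R * sav R N := by
      refine hR₁ R (le_trans (le_max_left _ _) hR) N t (lam 0) (hlam 0) A ?_
      intro g hg; rw [hA, Finset.mem_filter] at hg; exact hg.2
    have hfib : B.card = ∑ g : Fin R → Fin N, (B.filter (fun f => f 0 = g)).card :=
      Finset.card_eq_sum_card_fiberwise (fun f _ => Finset.mem_univ _)
    have hle : ∀ g, (B.filter (fun f => f 0 = g)).card ≤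
        ((Finset.univ : Finset (Fin k → Fin R → Fin N)).filter (fun m => bad (Fin.cons g m))).card := by
      intro g
      apply Finset.card_le_card_of_injOn (fun f => Fin.tail f)
      · intro f hf
        have hf' : f ∈ B.filter (fun f => f 0 = g) := hf
        rw [Finset.mem_filter, hB, Finset.mem_filter] at hf'
        have hcons : (Fin.cons g (Fin.tail f) : Fin (k + 1) → Fin R → Fin N) = f := by
          rw [← hf'.2]; exact Fin.cons_self_tail f
        show Fin.tail f ∈ _
        rw [Finset.mem_coe, Finset.mem_filter]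
        refine ⟨Finset.mem_univ _, ?_⟩
        rw [hcons]
        exact hf'.1.2
      · intro n hn m hm h
        have hn' : n ∈ B.filter (fun f => f 0 = g) := hn
        have hm' : m ∈ B.filter (fun f => f 0 = g) := hm
        rw [Finset.mem_filter] at hn' hm'
        rw [← Fin.cons_self_tail n, ← Fin.cons_self_tail m, hn'.2, hm'.2]
        have : Fin.tail n = Fin.tail m := h
        rw [this]
    have hgood : ∀ g, g ∉ A →
        (((Finset.univ : Finset (Fin k → Fin R → Fin N)).filter
          (fun m => bad (Fin.cons g m))).card : ℝ) ≤ k * (2 * (N : ℝ) ^ (k * R) * sav R N) := by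
      intro g hgA
      have hta : Good1 QB t L (∑ j, lam 0 j (g j)) := by
        by_contra hcon
        apply hgA
        rw [hA, Finset.mem_filter]
        exact ⟨Finset.mem_univ _, hcon⟩
      have h1 := hR₂ R (le_trans (le_max_right _ _) hR) N
        (Fin.cons (∑ j, lam 0 j (g j)) t : Fin (_ + 1) → ℂ) (fun a => lam a.succ)
        (fun a => hlam a.succ)
      refine le_trans ?_ h1
      have hsub : (Finset.univ : Finset (Fin k → Fin R → Fin N)).filter
          (fun m => bad (Fin.cons g m)) ⊆ (Finset.univ : Finset (Fin k → Fin R → Fin N)).filter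
          (fun m => ¬ GoodT QB (Fin.cons (∑ j, lam 0 j (g j)) t : Fin (_ + 1) → ℂ) L
            (fun a => ∑ j, lam a.succ j (m a j))) := by
        intro m hm
        rw [Finset.mem_filter] at hm ⊢
        refine ⟨Finset.mem_univ _, fun hgd => hm.2 ?_⟩
        have h2 := goodT_cons hta hgd
        have h3 : (fun a => ∑ j, lam a j ((Fin.cons g m : Fin (k + 1) → Fin R → Fin N) a j)) =
            (Fin.cons (∑ j, lam 0 j (g j)) (fun a => ∑ j, lam a.succ j (m a j)) :
              Fin (k + 1) → ℂ) := by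
          funext a
          refine Fin.cases ?_ (fun a => ?_) a
          · simp
          · simp
        rw [h3]
        exact h2
      exact_mod_cast Finset.card_le_card hsub
    have htriv : ∀ g, (((Finset.univ : Finset (Fin k → Fin R → Fin N)).filter
        (fun m => bad (Fin.cons g m))).card : ℝ) ≤ (N : ℝ) ^ (k * R) := by
      intro g
      have h1 := Finset.card_filter_le (Finset.univ : Finset (Fin k → Fin R → Fin N))
        (fun m => bad (Fin.cons g m))
      rw [Finset.card_univ, Fintype.card_fun, Fintype.card_fun, Fintype.card_fin, Fintype.card_fin,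
        Fintype.card_fin, ← pow_mul] at h1
      have h2 : (((Finset.univ : Finset (Fin k → Fin R → Fin N)).filter
        (fun m => bad (Fin.cons g m))).card : ℝ) ≤ ((N ^ (R * k) : ℕ) : ℝ) := by
        exact_mod_cast h1
      rw [mul_comm k R]
      push_cast at h2
      exact h2
    have hs0 := sav_nonneg R N
    calc (B.card : ℝ) = ∑ g : Fin R → Fin N, ((B.filter (fun f => f 0 = g)).card : ℝ) := by
          rw [hfib]; push_cast; rfl
      _ ≤ ∑ g : Fin R → Fin N, ((if g ∈ A then (N : ℝ) ^ (k * R) else 0) +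
            k * (2 * (N : ℝ) ^ (k * R) * sav R N)) := by
          apply Finset.sum_le_sum
          intro g _
          have h1 : ((B.filter (fun f => f 0 = g)).card : ℝ) ≤
            (((Finset.univ : Finset (Fin k → Fin R → Fin N)).filter
              (fun m => bad (Fin.cons g m))).card : ℝ) := by
            exact_mod_cast hle g
          by_cases hgA : g ∈ A
          · rw [if_pos hgA]
            have h2 := htriv g
            have h3 : (0 : ℝ) ≤ k * (2 * (N : ℝ) ^ (k * R) * sav R N) := by positivity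
            linarith
          · rw [if_neg hgA, zero_add]
            exact h1.trans (hgood g hgA)
      _ = (A.card : ℝ) * (N : ℝ) ^ (k * R) + (N : ℝ) ^ R * (k * (2 * (N : ℝ) ^ (k * R) * sav R N)) := by
          rw [Finset.sum_add_distrib, Finset.sum_ite_mem, Finset.univ_inter, Finset.sum_const,
            Finset.sum_const, Finset.card_univ, Fintype.card_fun, Fintype.card_fin,
            Fintype.card_fin, nsmul_eq_mul, nsmul_eq_mul]
          push_cast
          rfl
      _ ≤ (2 * (N : ℝ) ^ R * sav R N) * (N : ℝ) ^ (k * R) +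
          (N : ℝ) ^ R * (k * (2 * (N : ℝ) ^ (k * R) * sav R N)) := by gcongr
      _ = (k + 1 : ℕ) * (2 * (N : ℝ) ^ ((k + 1) * R) * sav R N) := by
          have e1 : (N : ℝ) ^ ((k + 1) * R) = (N : ℝ) ^ (k * R) * (N : ℝ) ^ R := by
            rw [← pow_add]; congr 1; ring
          rw [e1]
          push_cast
          ring

theorem Cmp.extend {κ R ι : Type*} [Field κ] [CommRing R] [Algebra κ R] [Fintype ι] {β : ι → R}
    {L L' : ℕ} {G : ℕ → R} (h : Cmp κ β L G) :
    Cmp κ β L' (fun l => if l < L then G l else 0) := by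
  obtain ⟨c, e, u, h⟩ := h
  refine ⟨fun l b => if l < L then c l b else 0, e, u, fun l _ => ?_⟩
  dsimp only
  by_cases hl : l < L
  · rw [if_pos hl, h l hl]
    refine Finset.sum_congr rfl fun b _ => ?_
    rw [if_pos hl]
    congr 2
    refine Finset.prod_congr rfl fun l' hl' => ?_
    rw [if_pos (lt_trans (Finset.mem_range.1 hl') hl)]
  · rw [if_neg hl]
    symm
    refine Finset.sum_eq_zero fun b _ => ?_
    rw [if_neg hl, zero_smul]

theorem Good1.mono {κ C : Type} [Field κ] [Field C] [Algebra κ C] {g : ℕ} {t : Fin g → C}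
    {L L' : ℕ} {y : C} (h : Good1 κ t L' y) (hL : L ≤ L') : Good1 κ t L y := by
  intro G hG l hl h0
  have h1 := h _ (hG.extend (L' := L')) l (lt_of_lt_of_le hl hL)
  rw [if_pos hl] at h1
  exact h1 h0

/-! ### Blocks -/

section Block

variable {κ C : Type} [Field κ] [Field C] [Algebra κ C] {g : ℕ}

/-- the parameters together with the first block sums -/
noncomputable def par (t : Fin g → C) (Y : (i : ℕ) → (Fin (g + i) → C) → C) :
    (i : ℕ) → (Fin (g + i) → C)
  | 0 => t
  | i + 1 => (Fin.cons (Y i (par t Y i)) (par t Y i) : Fin (g + i + 1) → C)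

theorem par_good [Infinite κ] {L : ℕ} (t : Fin g → C) (Y : (i : ℕ) → (Fin (g + i) → C) → C)
    (k : ℕ) : ∀ a : ℕ, (∀ i, a ≤ i → i < a + k → Good1 κ (par t Y i) L (Y i (par t Y i))) →
    GoodT κ (par t Y a) L (fun i : Fin k => Y (a + i) (par t Y (a + i))) := by
  induction k with
  | zero => intro a _; exact goodT_zero _ _
  | succ k ih =>
    intro a h
    have h1 := ih (a + 1) (fun i h1 h2 => h i (by omega) (by omega))
    have h2 := goodT_cons (h a le_rfl (by omega)) h1
    have h3 : (fun i : Fin (k + 1) => Y (a + i) (par t Y (a + i))) =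
        (Fin.cons (Y a (par t Y a)) (fun i : Fin k => Y (a + 1 + i) (par t Y (a + 1 + i))) :
          Fin (k + 1) → C) := by
      funext i
      refine Fin.cases ?_ (fun i => ?_) i
      · simp
      · rw [Fin.cons_succ, Fin.val_succ]
        have : a + 1 + (i : ℕ) = a + ((i : ℕ) + 1) := by ring
        rw [this]
    rw [h3]
    exact h2

theorem par_mem (t : Fin g → C) (Y : (i : ℕ) → (Fin (g + i) → C) → C) (a : ℕ) :
    (∀ o : Fin g, ∃ o' : Fin (g + a), par t Y a o' = t o) ∧
      ∀ i < a, ∃ o' : Fin (g + a), par t Y a o' = Y i (par t Y i) := by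
  induction a with
  | zero => exact ⟨fun o => ⟨o, rfl⟩, fun i hi => absurd hi (Nat.not_lt_zero _)⟩
  | succ a ih =>
    refine ⟨fun o => ?_, fun i hi => ?_⟩
    · obtain ⟨o', ho'⟩ := ih.1 o
      exact ⟨o'.succ, ho'⟩
    · rcases Nat.lt_or_ge i a with h | h
      · obtain ⟨o', ho'⟩ := ih.2 i h
        exact ⟨o'.succ, ho'⟩
      · obtain rfl : i = a := by omega
        exact ⟨0, rfl⟩

theorem Cmp.reindex {R ι ι' : Type*} [CommRing R] [Algebra κ R] [Fintype ι] [Fintype ι']
    {β : ι → R} {β' : ι' → R} {L : ℕ} {G : ℕ → R} (h : Cmp κ β L G)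
    (hβ : ∀ j, ∃ j', β' j' = β j) : Cmp κ β' L G := by
  classical
  choose φ hφ using hβ
  refine h.subst β' (fun _ => 1) (fun j j' => if j' = φ j then 1 else 0) ?_
  intro j
  rw [one_smul]
  simp only [pow_ite, pow_one, pow_zero, Finset.prod_ite_eq', Finset.mem_univ, if_true]
  exact (hφ j).symm

theorem GoodT.reindex {g' m L : ℕ} {t : Fin g → C} {t' : Fin g' → C} {y : Fin m → C}
    (h : GoodT κ t' L y) (ht : ∀ o, ∃ o', t' o' = t o) : GoodT κ t L y := by
  intro G hG
  refine h G (hG.reindex ?_)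
  rintro (o | i)
  · obtain ⟨o', ho'⟩ := ht o
    exact ⟨Sum.inl o', by simp [btm, ho']⟩
  · exact ⟨Sum.inr i, by simp [btm]⟩

end Block

/-- **Block sums.** -/
theorem blocks (g : ℕ) (Λ : ℕ → ℕ) : ∃ R : ℕ → ℕ, StrictMono R ∧ R 0 = 0 ∧
    ∀ lam : ℕ → ℂ, LinearIndependent QB lam → ∀ t : Fin g → ℂ,
    ∃ S : ℕ → Finset ℕ, (∀ i, S i ⊆ Finset.Ico (R i) (R (i + 1))) ∧
      ∀ a k L : ℕ, (∀ i, a ≤ i → i < a + k → L ≤ Λ i) →
        GoodT QB (Fin.append t (fun i : Fin a => ∑ j ∈ S i, lam j) : Fin (g + a) → ℂ) L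
          (fun i : Fin k => ∑ j ∈ S (a + i), lam j) := by
  classical
  have hac : IsAlgClosure ℚ QB := algebraicClosure.isAlgClosure ℚ ℂ
  have hacl : IsAlgClosed QB := IsAlgClosure.isAlgClosed ℚ
  have hinf : Infinite QB := IsAlgClosed.instInfinite
  choose ρ hρ using fun i : ℕ => cube_good (g + i) (Λ i)
  set R : ℕ → ℕ := fun i => ∑ j ∈ range i, (ρ j + 1) with hR
  have hRs : ∀ i, R (i + 1) = R i + (ρ i + 1) := fun i => Finset.sum_range_succ _ _
  refine ⟨R, strictMono_nat_of_lt_succ (fun i => by rw [hRs]; omega), Finset.sum_range_zero _,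
    fun lam hlam t => ?_⟩
  have hex : ∀ (i : ℕ) (u : Fin (g + i) → ℂ), ∃ S : Finset (Fin (ρ i)),
      Good1 QB u (Λ i) (0 + ∑ j ∈ S, lam (R i + j)) := by
    intro i u
    exact hρ i QB ℂ infTrd_complex u 0 (fun j => lam (R i + j))
      (hlam.comp (fun j : Fin (ρ i) => R i + (j : ℕ)) (fun a b h => Fin.ext (by simpa using h)))
  choose nx hnx using hex
  let Y : (i : ℕ) → (Fin (g + i) → ℂ) → ℂ := fun i u => ∑ j ∈ nx i u, lam (R i + j)
  let S : ℕ → Finset ℕ := fun i => (nx i (par t Y i)).image (fun j : Fin (ρ i) => R i + (j : ℕ))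
  have hSY : ∀ i, ∑ j ∈ S i, lam j = Y i (par t Y i) := by
    intro i
    simp only [S, Y]
    rw [Finset.sum_image]
    intro a _ b _ h
    exact Fin.ext (by simpa using h)
  refine ⟨S, fun i j hj => ?_, fun a k L hL => ?_⟩
  · simp only [S, Finset.mem_image] at hj
    obtain ⟨j', _, rfl⟩ := hj
    rw [Finset.mem_Ico, hRs]
    exact ⟨Nat.le_add_right _ _, by have := j'.2; omega⟩
  · simp only [hSY]
    have h1 : GoodT QB (par t Y a) L (fun i : Fin k => Y (a + i) (par t Y (a + i))) := by
      apply par_good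
      intro i h1 h2
      have h3 := hnx i (par t Y i)
      rw [zero_add] at h3
      exact h3.mono (hL i h1 h2)
    refine h1.reindex ?_
    intro o
    refine Fin.addCases (fun o => ?_) (fun i => ?_) o
    · rw [Fin.append_left]
      exact (par_mem t Y a).1 o
    · rw [Fin.append_right]
      exact (par_mem t Y a).2 i i.2

end Pool.Agent.R351
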